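import Pool.Agent.MP_257582_lc.H52K.D

/-! Signed counts of invariant graphs: definitions. -/

set_option autoImplicit false

namespace Pool.Agent.MP_257582_lc.H71K

open Finset SimpleGraph

section general

variable {Y : Type}

/-- `G` is invariant under `H` -/
def Inv (H : Subgroup (Equiv.Perm Y)) (G : SimpleGraph Y) : Prop :=
  ∀ h ∈ H, ∀ x y, G.Adj x y → G.Adj (h x) (h y)

/-- the edges of `O` are one orbit of `H` -/
structure IsOrb (H : Subgroup (Equiv.Perm Y)) (O : SimpleGraph Y) : Prop where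
  ne : ∃ x y, O.Adj x y
  inv : Inv H O
  tr : ∀ x y x' y', O.Adj x y → O.Adj x' y' → ∃ h ∈ H, s(h x, h y) = s(x', y')

/-- a family of different orbits outside `Z` -/
structure Orbs (H : Subgroup (Equiv.Perm Y)) (Z : SimpleGraph Y) {I : Type}
    (O : I → SimpleGraph Y) : Prop where
  orb : ∀ i, IsOrb H (O i)
  free : ∀ i x y, (O i).Adj x y → ¬ Z.Adj x y
  disj : ∀ i j x y, (O i).Adj x y → (O j).Adj x y → i = j

open Classical in
/-- the signed count -/
noncomputable def chi (Φ : SimpleGraph Y → Prop) (Z : SimpleGraph Y) {I : Type} [Fintype I]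
    (O : I → SimpleGraph Y) : ℤ :=
  ∑ J : Finset I, if Φ (Z ⊔ J.sup O) then (-1) ^ J.card else 0

/-- the signed count over all orbits vanishes -/
def Van (Φ : SimpleGraph Y → Prop) (Z : SimpleGraph Y) (H : Subgroup (Equiv.Perm Y)) : Prop :=
  ∀ (I : Type) [Fintype I] (O : I → SimpleGraph Y), Orbs H Z O →
    (∀ x y, x ≠ y → Z.Adj x y ∨ ∃ i, (O i).Adj x y) → chi Φ Z O = 0

/-- no invariant member above `Z` has the edge `x y` -/
def Bad (Φ : SimpleGraph Y → Prop) (Z : SimpleGraph Y) (H : Subgroup (Equiv.Perm Y)) (x y : Y) :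
    Prop :=
  ∀ G : SimpleGraph Y, Z ≤ G → Inv H G → G.Adj x y → ¬ Φ G

/-- an invariant graph with one edge of an orbit holds the orbit -/
theorem IsOrb.le {H : Subgroup (Equiv.Perm Y)} {O G : SimpleGraph Y} (hO : IsOrb H O) (hG : Inv H G)
    {x y : Y} (h1 : O.Adj x y) (h2 : G.Adj x y) : O ≤ G := fun x' y' h => by
  obtain ⟨g, hg, e⟩ := hO.tr x y x' y' h1 h
  have := hG g hg x y h2
  rwa [← mem_edgeSet, e, mem_edgeSet] at this

open Classical in
theorem chi_zero (Φ : SimpleGraph Y → Prop) (Z : SimpleGraph Y) (O : Fin 0 → SimpleGraph Y) :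
    chi Φ Z O = if Φ Z then 1 else 0 := by
  rw [chi, Fintype.sum_unique]
  simp [show (default : Finset (Fin 0)) = ∅ from Subsingleton.elim _ _]

theorem chi_succ (Φ : SimpleGraph Y → Prop) (Z : SimpleGraph Y) {k : ℕ}
    (O : Fin (k + 1) → SimpleGraph Y) :
    chi Φ Z O = chi Φ Z (fun i : Fin k => O i.succ) - chi Φ (Z ⊔ O 0) fun i : Fin k => O i.succ := by
  classical
  have h0 : (0 : Fin (k + 1)) ∉ (univ : Finset (Fin k)).map (Fin.succEmb k) := by simp
  have k1 : ∀ F : Finset (Fin (k + 1)) → ℤ, ∑ J ∈ ((univ : Finset (Fin k)).map (Fin.succEmb k)).powerset,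
      F J = ∑ J : Finset (Fin k), F (J.map (Fin.succEmb k)) := fun F => by
    refine (sum_bij (fun J _ => J.map (Fin.succEmb k)) (fun J _ => ?_) (fun J _ J' _ h => ?_)
      (fun J hJ => ?_) fun _ _ => rfl).symm
    · exact mem_powerset.2 (map_subset_map.2 (subset_univ _))
    · exact map_injective _ h
    · obtain ⟨J', _, rfl⟩ := subset_map_iff.1 (mem_powerset.1 hJ)
      exact ⟨J', mem_univ _, rfl⟩
  unfold chi
  rw [← powerset_univ, show (univ : Finset (Fin (k + 1))) = insert 0 (univ.map (Fin.succEmb k)) from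
    (Fin.univ_succ k).trans (cons_eq_insert _ _ _), sum_powerset_insert h0, k1, k1,
    sub_eq_add_neg, ← sum_neg_distrib]
  congr 1
  · refine sum_congr rfl fun J _ => ?_
    rw [sup_map, card_map]
    rfl
  · refine sum_congr rfl fun J _ => ?_
    rw [sup_insert, card_insert_of_notMem (by simp), sup_map, card_map, ← sup_assoc, pow_succ]
    change (if Φ (Z ⊔ O 0 ⊔ J.sup fun i : Fin k => O i.succ) then _ else _) = _
    split_ifs <;> simp

end general

/-- a block -/
abbrev V : Type := ZMod 2 × ZMod 2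

/-- the twist of order three -/
def om : V ≃+ V where
  toFun v := (v.2, v.1 + v.2)
  invFun v := (v.1 + v.2, v.1)
  left_inv := by decide
  right_inv := by decide
  map_add' := by decide

/-- the twist of order two -/
def sw : V ≃+ V where
  toFun v := (v.2, v.1)
  invFun v := (v.2, v.1)
  left_inv := by decide
  right_inv := by decide
  map_add' := by decide

section blocks

variable {R T : Type}

/-- the graph `S` on `R` and a four-cycle in each block of `M` -/
def cyc (S : SimpleGraph R) (M : Set T) : SimpleGraph (R ⊕ T × V) where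
  Adj x y := match x, y with
    | .inl a, .inl b => S.Adj a b
    | .inr p, .inr q => p.1 = q.1 ∧ p.1 ∈ M ∧ p.2.1 + q.2.1 ≠ p.2.2 + q.2.2
    | _, _ => False
  symm := ⟨by
    rintro (a | p) (b | q) h
    · exact h.symm
    · exact h
    · exact h
    · exact ⟨h.1.symm, h.1 ▸ h.2.1, by rw [add_comm q.2.1, add_comm q.2.2]; exact h.2.2⟩⟩
  loopless := ⟨by
    rintro (a | p) h
    · exact S.irrefl h
    · exact h.2.2 (by rw [CharTwo.add_self_eq_zero, CharTwo.add_self_eq_zero])⟩

/-- the points of `A` joined to the blocks of `M` -/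
def join (A : Set R) (M : Set T) : SimpleGraph (R ⊕ T × V) where
  Adj x y := match x, y with
    | .inl a, .inr q => a ∈ A ∧ q.1 ∈ M
    | .inr q, .inl a => a ∈ A ∧ q.1 ∈ M
    | _, _ => False
  symm := ⟨by rintro (a | p) (b | q) h <;> exact h⟩
  loopless := ⟨by rintro (a | p) h <;> exact h⟩

/-- translations of the blocks -/
def tl (c : T → V) : Equiv.Perm (R ⊕ T × V) :=
  Equiv.sumCongr (Equiv.refl R) (Equiv.prodShear (Equiv.refl T) fun t => Equiv.addRight (c t))

/-- the generator on top -/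
def gen (ρ : Equiv.Perm R) (σ : Equiv.Perm T) (A : T → V ≃+ V) : Equiv.Perm (R ⊕ T × V) :=
  Equiv.sumCongr ρ (Equiv.prodShear σ fun t => (A t).toEquiv)

/-- the group: translations, an involution `s` of `R`, the generator -/
def grp (s ρ : Equiv.Perm R) (σ : Equiv.Perm T) (A : T → V ≃+ V) :
    Subgroup (Equiv.Perm (R ⊕ T × V)) :=
  Subgroup.closure (Set.range tl ∪ {Equiv.sumCongr s (Equiv.refl _), gen ρ σ A})

end blocks

/-- `S` and `k` four-cycles -/
def pk {A : Type} (S : SimpleGraph A) (k : ℕ) : SimpleGraph (A ⊕ Fin k × V) := cyc S Set.univ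

/-- the subgraphs of the members of a family of `K₄`-free graphs on `n` vertices -/
structure Fm (n : ℕ) (Φ : ∀ A : Type, SimpleGraph A → Prop) : Prop where
  le : ∀ {A B : Type} {S : SimpleGraph A} {G : SimpleGraph B} (j : A → B), Function.Injective j →
    (∀ x y, S.Adj x y → G.Adj (j x) (j y)) → Φ B G → Φ A S
  pad : ∀ {A B : Type} [Finite B] {S : SimpleGraph A} {G : SimpleGraph B} (j : A → B),
    Function.Injective j → Nat.card B ≤ n →
    (∀ u v, G.Adj u v → ∃ x y, S.Adj x y ∧ j x = u ∧ j y = v) → Φ A S → Φ B G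
  k4 : ¬ Φ (Fin 4) ⊤
  bot : Φ Empty ⊥
  card : ∀ {A : Type} [Finite A] {S : SimpleGraph A}, Φ A S → Nat.card A ≤ n

/-- the points outside the blocks -/
abbrev RR (u r : ℕ) : Type := Fin u ⊕ Fin r

/-- the blocks -/
abbrev TT (b m₁ m₂ : ℕ) : Type := Fin b ⊕ Fin m₁ ⊕ Fin m₂

/-- all vertices -/
abbrev YY (u r b m₁ m₂ : ℕ) : Type := RR u r ⊕ TT b m₁ m₂ × V

/-- the graph on `RR`: complete on the first part if `lk` -/
def zr (lk : Prop) (u r : ℕ) : SimpleGraph (RR u r) where
  Adj x y := match x, y with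
    | .inl a, .inl b => lk ∧ a ≠ b
    | _, _ => False
  symm := ⟨by
    rintro (a | a) (b | b) h
    · exact ⟨h.1, h.2.symm⟩
    all_goals exact h⟩
  loopless := ⟨by
    rintro (a | a) h
    · exact h.2 rfl
    · exact h⟩

/-- the fixed graph: the edge of the link and the four-cycles -/
def zz (lk : Prop) (u r b m₁ m₂ : ℕ) : SimpleGraph (YY u r b m₁ m₂) :=
  cyc (zr lk u r) (Set.range Sum.inr)

/-- swap of the first part -/
def sU (u r : ℕ) : Equiv.Perm (RR u r) := Equiv.sumCongr (finRotate u) (Equiv.refl _)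

/-- rotation of the second part -/
def rR (u r : ℕ) : Equiv.Perm (RR u r) := Equiv.sumCongr (Equiv.refl _) (finRotate r)

/-- rotation of the two groups of blocks -/
def sT (b m₁ m₂ : ℕ) : Equiv.Perm (TT b m₁ m₂) :=
  Equiv.sumCongr (Equiv.refl _) (Equiv.sumCongr (finRotate m₁) (finRotate m₂))

/-- the group of the test -/
def hh (u r b m₁ m₂ : ℕ) : Subgroup (Equiv.Perm (YY u r b m₁ m₂)) :=
  grp (sU u r) (rR u r) (sT b m₁ m₂) (Sum.elim (fun _ => om) fun _ => AddEquiv.refl V)

/-- Oliver's theorem for all twists, with no four-cycle fixed -/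
def Test0 (n : ℕ) (Φ : ∀ A : Type, SimpleGraph A → Prop) : Prop :=
  ∀ (lk : Prop) (u r b m₁ m₂ : ℕ) (A : TT b m₁ m₂ → V ≃+ V), u + r + 4 * (b + m₁ + m₂) = n →
    u = 0 ∨ u = 2 → (lk → u = 2) →
    Van (Φ _) (cyc (zr lk u r) ∅) (grp (sU u r) (rR u r) (sT b m₁ m₂) A)

/-- the test with the four-cycles fixed -/
def Test (n : ℕ) (Φ : ∀ A : Type, SimpleGraph A → Prop) : Prop :=
  ∀ (lk : Prop) (u r b m₁ m₂ : ℕ), u + r + 4 * (b + m₁ + m₂) = n → u = 0 ∨ u = 2 → (lk → u = 2) →
    Van (Φ _) (zz lk u r b m₁ m₂) (hh u r b m₁ m₂)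

/-- the circulant with differences `± d` on the second part -/
def circ (u r d : ℕ) : SimpleGraph (RR u r) :=
  fromRel fun x y => match x, y with
    | .inr a, .inr b => (a.val + d) % r = b.val
    | _, _ => False

/-- the first part joined to the second part -/
def jUR (u r : ℕ) : SimpleGraph (RR u r) :=
  fromRel fun x y => match x, y with
    | .inl _, .inr _ => True
    | _, _ => False

/-- the first group of blocks -/
def g1 (b m₁ m₂ : ℕ) : Set (TT b m₁ m₂) := Set.range fun i => Sum.inr (Sum.inl i)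

/-- the second group of blocks -/
def g2 (b m₁ m₂ : ℕ) : Set (TT b m₁ m₂) := Set.range fun i => Sum.inr (Sum.inr i)

/-- an edge and a pentagon -/
def kc : SimpleGraph (RR 2 5) := zr True 2 5 ⊔ circ 2 5 1

end Pool.Agent.MP_257582_lc.H71K
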