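import Pool.Agent.MP_257582_lc.H71K.GRP
import Pool.Agent.MP_257582_lc.H71K.Defs

/-! The fixed graph is invariant; the orbits outside the blocks. -/

set_option autoImplicit false

namespace Pool.Agent.MP_257582_lc.H71K

open Finset SimpleGraph

theorem orb1_clo {Y : Type} [Finite Y] {S : Set (Equiv.Perm Y)} {G : SimpleGraph Y}
    (h : ∀ g ∈ S, ∀ x y, G.Adj x y → G.Adj (g x) (g y)) : Inv (Subgroup.closure S) G := by
  intro g hg
  induction hg using Subgroup.closure_induction with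
  | mem g hg => exact h g hg
  | one => exact fun _ _ k => k
  | mul a b _ _ ha hb => exact fun x y k => ha _ _ (hb _ _ k)
  | inv a _ ha =>
    intro x y k
    refine (H52K.aut_iff (σ := a) ha _ _).1 ?_
    simpa using k

theorem orb1_cyc {R T : Type} [Finite R] [Finite T] {s ρ : Equiv.Perm R} {σ : Equiv.Perm T}
    {A : T → V ≃+ V} {S : SimpleGraph R} {M : Set T}
    (h1 : ∀ a b, S.Adj a b → S.Adj (s a) (s b)) (h2 : ∀ a b, S.Adj a b → S.Adj (ρ a) (ρ b))
    (h3 : ∀ t ∈ M, σ t ∈ M ∧ ∀ v, A t v = v) : Inv (grp s ρ σ A) (cyc S M) := by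
  refine orb1_clo ?_
  rintro g (⟨c, rfl⟩ | rfl | rfl) (a | ⟨t, v⟩) (b | ⟨t', w⟩) k
  · exact k
  · exact k.elim
  · exact k.elim
  · obtain ⟨k1, k2, k3⟩ := k
    dsimp only at k1 k2 k3
    subst k1
    refine ⟨rfl, k2, ?_⟩
    change (v + c t).1 + (w + c t).1 ≠ (v + c t).2 + (w + c t).2
    revert k3
    generalize c t = z
    revert v w z
    decide
  · exact h1 a b k
  · exact k.elim
  · exact k.elim
  · exact k
  · exact h2 a b k
  · exact k.elim
  · exact k.elim
  · obtain ⟨k1, k2, k3⟩ := k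
    dsimp only at k1 k2 k3
    subst k1
    refine ⟨rfl, (h3 t k2).1, ?_⟩
    change (A t v).1 + (A t w).1 ≠ (A t v).2 + (A t w).2
    rwa [(h3 t k2).2, (h3 t k2).2]

variable {u r b m₁ m₂ : ℕ}

theorem orb1_rot (i : Fin r) : (finRotate r i).val = (i.val + 1) % r := by
  cases r with
  | zero => exact i.elim0
  | succ r => rw [finRotate_apply, Fin.val_add, Fin.val_one', Nat.add_mod_mod]

theorem orb1_mem (j k : ℕ) : ∃ h ∈ hh u r b m₁ m₂,
    (∀ x : Fin u, h (.inl (.inl x)) = .inl (.inl ((finRotate u ^ j) x))) ∧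
      ∀ y : Fin r, h (.inl (.inr y)) = .inl (.inr ((finRotate r ^ k) y)) := by
  induction j with
  | zero =>
    induction k with
    | zero => exact ⟨1, one_mem _, fun _ => rfl, fun _ => rfl⟩
    | succ k ih =>
      obtain ⟨h, a1, a2, a3⟩ := ih
      refine ⟨gen (rR u r) (sT b m₁ m₂) (Sum.elim (fun _ => om) fun _ => AddEquiv.refl V) * h,
        mul_mem (Subgroup.subset_closure (Or.inr (Or.inr rfl))) a1, fun x => ?_, fun y => ?_⟩
      · rw [Equiv.Perm.mul_apply, a2]; rfl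
      · rw [Equiv.Perm.mul_apply, a3, pow_succ']; rfl
  | succ j ih =>
    obtain ⟨h, a1, a2, a3⟩ := ih
    refine ⟨Equiv.sumCongr (sU u r) (Equiv.refl _) * h,
      mul_mem (Subgroup.subset_closure (Or.inr (Or.inl rfl))) a1, fun x => ?_, fun y => ?_⟩
    · rw [Equiv.Perm.mul_apply, a2, pow_succ']; rfl
    · rw [Equiv.Perm.mul_apply, a3]; rfl

theorem orb1_pow (k : ℕ) (i : Fin r) : ((finRotate r ^ k) i).val = (i.val + k) % r := by
  induction k with
  | zero => exact (Nat.mod_eq_of_lt i.2).symm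
  | succ k ih => rw [pow_succ', Equiv.Perm.mul_apply, orb1_rot, ih, Nat.mod_add_mod, add_assoc]

theorem orb1_tr (a a' : Fin r) : ∃ k : ℕ, (finRotate r ^ k) a = a' :=
  ⟨r - a.val + a'.val, Fin.ext (by
    rw [orb1_pow, ← add_assoc, Nat.add_sub_cancel' a.2.le, Nat.add_mod_left,
      Nat.mod_eq_of_lt a'.2])⟩

theorem orb1_zs (lk : Prop) (a b : RR u r) (k : (zr lk u r).Adj a b) :
    (zr lk u r).Adj (sU u r a) (sU u r b) := by
  rcases a with a | a <;> rcases b with b | b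
  · exact ⟨k.1, (finRotate u).injective.ne k.2⟩
  all_goals exact k.elim

theorem orb1_zr (lk : Prop) (a b : RR u r) (k : (zr lk u r).Adj a b) :
    (zr lk u r).Adj (rR u r a) (rR u r b) := by
  rcases a with a | a <;> rcases b with b | b
  · exact k
  all_goals exact k.elim

theorem inv_zz (lk : Prop) : Inv (hh u r b m₁ m₂) (zz lk u r b m₁ m₂) := by
  refine orb1_cyc (orb1_zs lk) (orb1_zr lk) ?_
  rintro _ ⟨t, rfl⟩
  exact ⟨⟨_, rfl⟩, fun _ => rfl⟩

theorem orb1_ca {d : ℕ} {x y : YY u r b m₁ m₂} (k : (cyc (circ u r d) ∅).Adj x y) :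
    ∃ a a' : Fin r, (a.val + d) % r = a'.val ∧
      s(x, y) = s(Sum.inl (Sum.inr a), Sum.inl (Sum.inr a')) := by
  rcases x with (x | x) | x <;> rcases y with (y | y) | y
  · exact k.2.elim False.elim False.elim
  · exact k.2.elim False.elim False.elim
  · exact k.elim
  · exact k.2.elim False.elim False.elim
  · exact k.2.elim (fun e => ⟨x, y, e, rfl⟩) fun e => ⟨y, x, e, Sym2.eq_swap⟩
  · exact k.elim
  · exact k.elim
  · exact k.elim
  · exact k.2.1.elim

theorem orb1_map {Y : Type} (h : Equiv.Perm Y) {x y x' y' : Y} (e : s(x, y) = s(x', y')) :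
    s(h x, h y) = s(h x', h y') := congrArg (Sym2.map h) e

theorem orb_circ {d : ℕ} (h0 : 0 < d) (hd : d < r) :
    IsOrb (hh u r b m₁ m₂) (cyc (circ u r d) ∅) := by
  refine ⟨⟨.inl (.inr ⟨0, h0.trans hd⟩), .inl (.inr ⟨d, hd⟩), fun e => ?_, Or.inl ?_⟩,
    orb1_cyc (fun a a' k => ?_) (fun a a' k => ?_) fun _ h => h.elim, fun x y x' y' k k' => ?_⟩
  · exact h0.ne (congrArg Fin.val (Sum.inr.inj e))
  · change (0 + d) % r = d
    rw [zero_add, Nat.mod_eq_of_lt hd]
  · rcases a with a | a <;> rcases a' with a' | a'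
    · exact k.2.elim False.elim False.elim
    · exact k.2.elim False.elim False.elim
    · exact k.2.elim False.elim False.elim
    · exact k
  · have q : ∀ c c' : Fin r, (c.val + d) % r = c'.val →
        ((finRotate r c).val + d) % r = (finRotate r c').val := fun c c' e => by
      rw [orb1_rot, orb1_rot, ← e, Nat.mod_add_mod, Nat.mod_add_mod, add_right_comm]
    rcases a with a | a <;> rcases a' with a' | a'
    · exact k.2.elim False.elim False.elim
    · exact k.2.elim False.elim False.elim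
    · exact k.2.elim False.elim False.elim
    · exact ⟨(rR u r).injective.ne k.1, k.2.imp (q a a') (q a' a)⟩
  · obtain ⟨a, c, e1, e2⟩ := orb1_ca k
    obtain ⟨a', c', e1', e2'⟩ := orb1_ca k'
    obtain ⟨j, hj⟩ := orb1_tr a a'
    obtain ⟨h, a1, _, a3⟩ := orb1_mem (u := u) (r := r) (b := b) (m₁ := m₁) (m₂ := m₂) 0 j
    refine ⟨h, a1, ?_⟩
    have e : (finRotate r ^ j) c = c' := Fin.ext (by
      rw [orb1_pow, ← e1, ← e1', ← hj, orb1_pow, Nat.mod_add_mod, Nat.mod_add_mod, add_right_comm])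
    rw [orb1_map h e2, e2', a3, a3, hj, e]

theorem orb1_ja {x y : YY u r b m₁ m₂} (k : (cyc (jUR u r) ∅).Adj x y) :
    ∃ (a : Fin u) (a' : Fin r), s(x, y) = s(Sum.inl (Sum.inl a), Sum.inl (Sum.inr a')) := by
  rcases x with (x | x) | x <;> rcases y with (y | y) | y
  · exact k.2.elim False.elim False.elim
  · exact ⟨x, y, rfl⟩
  · exact k.elim
  · exact ⟨y, x, Sym2.eq_swap⟩
  · exact k.2.elim False.elim False.elim
  · exact k.elim
  · exact k.elim
  · exact k.elim
  · exact k.2.1.elim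

theorem orb_UR (hr : 0 < r) : IsOrb (hh 2 r b m₁ m₂) (cyc (jUR 2 r) ∅) := by
  refine ⟨⟨.inl (.inl 0), .inl (.inr ⟨0, hr⟩), Sum.inl_ne_inr, Or.inl trivial⟩,
    orb1_cyc (fun a a' k => ⟨(sU 2 r).injective.ne k.1, ?_⟩)
      (fun a a' k => ⟨(rR 2 r).injective.ne k.1, ?_⟩) fun _ h => h.elim, fun x y x' y' k k' => ?_⟩
  · rcases a with a | a <;> rcases a' with a' | a' <;> exact k.2
  · rcases a with a | a <;> rcases a' with a' | a' <;> exact k.2
  · obtain ⟨a, c, e2⟩ := orb1_ja k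
    obtain ⟨a', c', e2'⟩ := orb1_ja k'
    obtain ⟨i, hi⟩ := orb1_tr a a'
    obtain ⟨j, hj⟩ := orb1_tr c c'
    obtain ⟨h, a1, a2, a3⟩ := orb1_mem (u := 2) (r := r) (b := b) (m₁ := m₁) (m₂ := m₂) i j
    exact ⟨h, a1, by rw [orb1_map h e2, e2', a2, a3, hi, hj]⟩

theorem orb1_ua {x y : YY 2 r b m₁ m₂} (k : (cyc (zr True 2 r) ∅).Adj x y) :
    s(x, y) = s(Sum.inl (Sum.inl 0), Sum.inl (Sum.inl 1)) := by
  rcases x with (x | x) | x <;> rcases y with (y | y) | y
  · have e : ∀ x y : Fin 2, x ≠ y → (x = 0 ∧ y = 1) ∨ (x = 1 ∧ y = 0) := by decide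
    rcases e x y k.2 with ⟨rfl, rfl⟩ | ⟨rfl, rfl⟩
    · rfl
    · exact Sym2.eq_swap
  · exact k.elim
  · exact k.elim
  · exact k.elim
  · exact k.elim
  · exact k.elim
  · exact k.elim
  · exact k.elim
  · exact k.2.1.elim

theorem orb_U : IsOrb (hh 2 r b m₁ m₂) (cyc (zr True 2 r) ∅) :=
  ⟨⟨.inl (.inl 0), .inl (.inl 1), trivial, zero_ne_one⟩,
    orb1_cyc (orb1_zs True) (orb1_zr True) fun _ h => h.elim,
    fun _ _ _ _ k k' => ⟨1, one_mem _, (orb1_ua k).trans (orb1_ua k').symm⟩⟩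

end Pool.Agent.MP_257582_lc.H71K
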