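import Pool.Agent.MP_257582_lc.H71K.GRP
import Pool.Agent.MP_257582_lc.H71K.ORB1
import Pool.Agent.MP_257582_lc.H71K.Defs

set_option autoImplicit false

namespace Pool.Agent.MP_257582_lc.H71K

open Finset SimpleGraph

/-- four mutually adjacent points -/
theorem BAD4_k4 {n : ℕ} {Φ : ∀ A : Type, SimpleGraph A → Prop} (hΦ : Fm n Φ) {Y : Type}
    {G : SimpleGraph Y} {a b c d : Y} (hab : G.Adj a b) (hac : G.Adj a c) (had : G.Adj a d)
    (hbc : G.Adj b c) (hbd : G.Adj b d) (hcd : G.Adj c d) : ¬ Φ Y G := fun h => by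
  have key : ∀ x y : Fin 4, x ≠ y → G.Adj (![a, b, c, d] x) (![a, b, c, d] y) := by
    intro x y hxy
    fin_cases x <;> fin_cases y
    all_goals first
      | exact absurd rfl hxy
      | assumption
      | (symm; assumption)
  refine hΦ.k4 (hΦ.le ![a, b, c, d] (fun x y e => ?_) (fun x y hxy => key x y hxy) h)
  by_contra hxy
  exact (key x y hxy).ne e

section orbits
variable {u r b m₁ m₂ : ℕ}

/-- translations keep an invariant graph -/
theorem BAD4_tl {G : SimpleGraph (YY u r b m₁ m₂)} (hG : Inv (hh u r b m₁ m₂) G)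
    (c : TT b m₁ m₂ → V) {x y : YY u r b m₁ m₂} (h : G.Adj x y) : G.Adj (tl c x) (tl c y) :=
  hG _ (Subgroup.subset_closure (Or.inl ⟨c, rfl⟩)) x y h

/-- a pair in a block gives all pairs with the same difference -/
theorem BAD4_same {G : SimpleGraph (YY u r b m₁ m₂)} (hG : Inv (hh u r b m₁ m₂) G)
    {t : TT b m₁ m₂} {v w v' w' : V} (h : G.Adj (.inr (t, v)) (.inr (t, w)))
    (e : v + w = v' + w') : G.Adj (.inr (t, v')) (.inr (t, w')) := by
  have h1 : G.Adj (.inr (t, v + (v + v'))) (.inr (t, w + (v + v'))) :=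
    BAD4_tl hG (fun _ => v + v') h
  have e1 : ∀ v v' : V, v + (v + v') = v' := by decide
  have e2 : ∀ v w v' w' : V, v + w = v' + w' → w + (v + v') = w' := by decide
  rwa [e1, e2 v w v' w' e] at h1

variable {n : ℕ} {Φ : ∀ A : Type, SimpleGraph A → Prop} {lk : Prop}

/-- the edges of a four-cycle -/
theorem BAD4_zz (t : Fin m₁ ⊕ Fin m₂) {v w : V} (h : v.1 + w.1 ≠ v.2 + w.2) :
    (zz lk u r b m₁ m₂).Adj (.inr (.inr t, v)) (.inr (.inr t, w)) :=
  ⟨rfl, ⟨t, rfl⟩, h⟩

/-- ROW BAD4: a pair inside one block, or between two blocks with four-cycles, gives `K₄` -/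
theorem bad_in (hΦ : Fm n Φ) (t : TT b m₁ m₂) (v w : V) (h : v ≠ w) :
    (zz lk u r b m₁ m₂).Adj (.inr (t, v)) (.inr (t, w)) ∨
      Bad (Φ _) (zz lk u r b m₁ m₂) (hh u r b m₁ m₂) (.inr (t, v)) (.inr (t, w)) := by
  rcases t with t | t
  · refine Or.inr fun G _ hG ha => ?_
    have rot : ∀ v w : V, G.Adj (.inr (.inl t, v)) (.inr (.inl t, w)) →
        G.Adj (.inr (.inl t, om v)) (.inr (.inl t, om w)) := fun v w h =>
      hG _ (Subgroup.subset_closure (Or.inr (Or.inr rfl))) _ _ h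
    have all : ∀ v' w' : V, v' ≠ w' → G.Adj (.inr (.inl t, v')) (.inr (.inl t, w')) := by
      intro v' w' h'
      have e : ∀ v w v' w' : V, v ≠ w → v' ≠ w' → v + w = v' + w' ∨ om v + om w = v' + w' ∨
          om (om v) + om (om w) = v' + w' := by decide
      rcases e v w v' w' h h' with e | e | e
      · exact BAD4_same hG ha e
      · exact BAD4_same hG (rot _ _ ha) e
      · exact BAD4_same hG (rot _ _ (rot _ _ ha)) e
    exact BAD4_k4 hΦ (all (0, 0) (0, 1) (by decide)) (all (0, 0) (1, 0) (by decide))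
      (all (0, 0) (1, 1) (by decide)) (all _ _ (by decide)) (all _ _ (by decide))
      (all _ _ (by decide))
  · by_cases hd : v.1 + w.1 = v.2 + w.2
    · refine Or.inr fun G hz hG ha => ?_
      have all : ∀ v' w' : V, v' ≠ w' → G.Adj (.inr (.inr t, v')) (.inr (.inr t, w')) := by
        intro v' w' h'
        by_cases hd' : v'.1 + w'.1 = v'.2 + w'.2
        · have e : ∀ v w v' w' : V, v ≠ w → v' ≠ w' → v.1 + w.1 = v.2 + w.2 →
              v'.1 + w'.1 = v'.2 + w'.2 → v + w = v' + w' := by decide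
          exact BAD4_same hG ha (e v w v' w' h h' hd hd')
        · exact hz (BAD4_zz t hd')
      exact BAD4_k4 hΦ (all (0, 0) (0, 1) (by decide)) (all (0, 0) (1, 0) (by decide))
        (all (0, 0) (1, 1) (by decide)) (all _ _ (by decide)) (all _ _ (by decide))
        (all _ _ (by decide))
    · exact Or.inl (BAD4_zz t hd)

/-- ROW BAD4 -/
theorem bad_CC (hΦ : Fm n Φ) (t t' : Fin m₁ ⊕ Fin m₂) (h : t ≠ t') (v w : V) :
    Bad (Φ _) (zz lk u r b m₁ m₂) (hh u r b m₁ m₂) (.inr (.inr t, v)) (.inr (.inr t', w)) := by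
  classical
  intro G hz hG ha
  have e1 : ∀ v v' : V, v + (v + v') = v' := by decide
  have all : ∀ v' w' : V, G.Adj (.inr (.inr t, v')) (.inr (.inr t', w')) := by
    intro v' w'
    have h1 : G.Adj (.inr (.inr t, v + if (Sum.inr t : TT b m₁ m₂) = .inr t then v + v' else w + w'))
        (.inr (.inr t', w + if (Sum.inr t' : TT b m₁ m₂) = .inr t then v + v' else w + w')) :=
      BAD4_tl hG (fun s => if s = .inr t then v + v' else w + w') ha
    rwa [if_pos rfl, if_neg (fun e => h (Sum.inr.inj e).symm), e1, e1] at h1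
  exact BAD4_k4 hΦ (hz (BAD4_zz t (v := (0, 0)) (w := (0, 1)) (by decide))) (all _ (0, 0))
    (all _ (0, 1)) (all _ _) (all _ _) (hz (BAD4_zz t' (by decide)))

/-- ROW BAD4: an edge in the second part, all of it joined to a block with a four-cycle -/
theorem k4_join (hΦ : Fm n Φ) {G : SimpleGraph (YY u r b m₁ m₂)} (hz : zz lk u r b m₁ m₂ ≤ G)
    {x y : RR u r} (h : G.Adj (.inl x) (.inl y)) (t : Fin m₁ ⊕ Fin m₂)
    (hx : ∀ v, G.Adj (.inl x) (.inr (.inr t, v))) (hy : ∀ v, G.Adj (.inl y) (.inr (.inr t, v))) :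
    ¬ Φ _ G :=
  BAD4_k4 hΦ h (hx (0, 0)) (hx (0, 1)) (hy _) (hy _) (hz (BAD4_zz t (by decide)))

/-- ROW BAD4 -/
theorem bad_UC (hΦ : Fm n Φ) (x : Fin 2) (t : Fin m₁ ⊕ Fin m₂) (v : V) :
    Bad (Φ _) (zz True 2 r b m₁ m₂) (hh 2 r b m₁ m₂) (.inl (.inl x)) (.inr (.inr t, v)) := by
  intro G hz hG ha
  have e1 : ∀ v v' : V, v + (v + v') = v' := by decide
  have hx : ∀ v', G.Adj (.inl (.inl x)) (.inr (.inr t, v')) := fun v' => by
    have h1 : G.Adj (.inl (.inl x)) (.inr (.inr t, v + (v + v'))) :=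
      BAD4_tl hG (fun _ => v + v') ha
    rwa [e1] at h1
  have hy : ∀ v', G.Adj (.inl (.inl (finRotate 2 x))) (.inr (.inr t, v')) := fun v' =>
    hG _ (Subgroup.subset_closure (Or.inr (Or.inl rfl))) _ _ (hx v')
  have hne : ∀ x : Fin 2, x ≠ finRotate 2 x := by decide
  exact k4_join hΦ hz (hz (show (zz True 2 r b m₁ m₂).Adj (.inl (.inl x))
    (.inl (.inl (finRotate 2 x))) from ⟨trivial, hne x⟩)) t hx hy

end orbits

end Pool.Agent.MP_257582_lc.H71K
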