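import Pool.Agent.MP_257582_lc.H71K.Defs

set_option autoImplicit false

namespace Pool.Agent.MP_257582_lc.H71K

open Finset SimpleGraph

variable {u r b m₁ m₂ : ℕ} {n : ℕ} {Φ : ∀ A : Type, SimpleGraph A → Prop} {lk : Prop}

lemma ext1_core (hΦ : Fm n Φ) {Y : Type} {k : ℕ} (hx : ¬ Φ _ (pk (⊥ : SimpleGraph Empty) k))
    {G : SimpleGraph Y} (j : Fin k → V → Y) (hj : ∀ t v t' v', j t v = j t' v' → t = t' ∧ v = v')
    (ha : ∀ t v w, v.1 + w.1 ≠ v.2 + w.2 → G.Adj (j t v) (j t w)) : ¬ Φ _ G := fun h => by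
  refine hx (hΦ.le (Sum.elim Empty.elim fun p => j p.1 p.2) ?_ ?_ h)
  · rintro (a | p) (a' | q) e
    · exact a.elim
    · exact a.elim
    · exact a'.elim
    · exact congrArg _ (Prod.ext (hj _ _ _ _ e).1 (hj _ _ _ _ e).2)
  · rintro (a | ⟨t, v⟩) (a' | ⟨t', w⟩) e
    · exact a.elim
    · exact a.elim
    · exact a'.elim
    · obtain ⟨rfl, -, e⟩ : t = t' ∧ _ ∧ _ := e
      exact ha t v w e

def ext1_ix (v : V) : Fin 4 := if v.1 = 0 then (if v.2 = 0 then 0 else 1) else if v.2 = 0 then 3 else 2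

lemma ext1_inj : ∀ v w : V, ext1_ix v = ext1_ix w → v = w := by decide

lemma ext1_adj : ∀ v w : V, v.1 + w.1 ≠ v.2 + w.2 →
    ext1_ix w = ext1_ix v + 1 ∨ ext1_ix v = ext1_ix w + 1 := by decide

theorem ext_new (hΦ : Fm n Φ) (hx : ¬ Φ _ (pk (⊥ : SimpleGraph Empty) (m₁ + m₂ + 1)))
    {G : SimpleGraph (YY u r b m₁ m₂)} (hz : zz lk u r b m₁ m₂ ≤ G) (c : Fin 4 → YY u r b m₁ m₂)
    (hc : Function.Injective c) (hn : ∀ i t v, c i ≠ .inr (.inr t, v))
    (ha : ∀ i, G.Adj (c i) (c (i + 1))) : ¬ Φ _ G := by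
  refine ext1_core hΦ hx (fun t v => Fin.lastCases (motive := fun _ => YY u r b m₁ m₂) (c (ext1_ix v))
    (fun i => .inr (.inr (finSumFinEquiv.symm i), v)) t) ?_ ?_
  · intro t v t' v'
    induction t using Fin.lastCases <;> induction t' using Fin.lastCases <;>
      simp only [Fin.lastCases_last, Fin.lastCases_castSucc] <;> intro e
    · exact ⟨trivial, ext1_inj _ _ (hc e)⟩
    · exact absurd e (hn _ _ _)
    · exact absurd e.symm (hn _ _ _)
    · simp only [Sum.inr.injEq, Prod.mk.injEq, EmbeddingLike.apply_eq_iff_eq] at e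
      exact ⟨by rw [e.1], e.2⟩
  · intro t v w e
    induction t using Fin.lastCases <;> simp only [Fin.lastCases_last, Fin.lastCases_castSucc]
    · rcases ext1_adj v w e with h | h <;> rw [h]
      · exact ha _
      · exact (ha _).symm
    · exact hz ⟨rfl, ⟨_, rfl⟩, e⟩

lemma ext1_par : ∀ v w : V, v.1 + w.1 ≠ v.2 + w.2 →
    (v.1 = v.2 ∧ w.1 ≠ w.2) ∨ (v.1 ≠ v.2 ∧ w.1 = w.2) := by decide

theorem ext_join (hΦ : Fm n Φ) (hx : ¬ Φ _ (pk (⊥ : SimpleGraph Empty) (m₁ + m₂ + 1)))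
    {G : SimpleGraph (YY u r b m₁ m₂)} (hz : zz lk u r b m₁ m₂ ≤ G) (c : Fin 4 → YY u r b m₁ m₂)
    (hc : Function.Injective c) (hn : ∀ i t v, c i ≠ .inr (.inr t, v)) (t : Fin m₁ ⊕ Fin m₂)
    (ha : ∀ i v, G.Adj (c i) (.inr (.inr t, v))) : ¬ Φ _ G := by
  classical
  refine ext1_core hΦ hx (fun t' v => Fin.lastCases (motive := fun _ => YY u r b m₁ m₂)
    (if v.1 = v.2 then c (ext1_ix v) else .inr (.inr t, v))
    (fun i => if finSumFinEquiv.symm i = t ∧ v.1 ≠ v.2 then c (ext1_ix v)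
      else .inr (.inr (finSumFinEquiv.symm i), v)) t') ?_ ?_
  · intro t1 v t' v'
    induction t1 using Fin.lastCases <;> induction t' using Fin.lastCases <;>
      simp only [Fin.lastCases_last, Fin.lastCases_castSucc] <;> intro e <;>
      split_ifs at e with h1 h2 h2 <;>
      first
      | exact absurd e (hn _ _ _)
      | exact absurd e.symm (hn _ _ _)
      | skip
    · exact ⟨trivial, ext1_inj _ _ (hc e)⟩
    · simp only [Sum.inr.injEq, Prod.mk.injEq] at e
      exact ⟨trivial, e.2⟩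
    · obtain rfl := ext1_inj _ _ (hc e)
      exact absurd h1 h2.2
    · simp only [Sum.inr.injEq, Prod.mk.injEq] at e
      exact absurd ⟨e.1.symm, e.2 ▸ h1⟩ h2
    · obtain rfl := ext1_inj _ _ (hc e)
      exact absurd h2 h1.2
    · simp only [Sum.inr.injEq, Prod.mk.injEq] at e
      exact absurd ⟨e.1, e.2 ▸ h2⟩ h1
    · exact ⟨by rw [finSumFinEquiv.symm.injective (h1.1.trans h2.1.symm)], ext1_inj _ _ (hc e)⟩
    · simp only [Sum.inr.injEq, Prod.mk.injEq, EmbeddingLike.apply_eq_iff_eq] at e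
      exact ⟨by rw [e.1], e.2⟩
  · intro t1 v w e
    induction t1 using Fin.lastCases <;> simp only [Fin.lastCases_last, Fin.lastCases_castSucc]
    · rcases ext1_par v w e with h | h
      · rw [if_pos h.1, if_neg h.2]
        exact ha _ _
      · rw [if_neg h.1, if_pos h.2]
        exact (ha _ _).symm
    · rename_i i
      by_cases hi : finSumFinEquiv.symm i = t
      · rcases ext1_par v w e with h | h
        · rw [if_neg fun k => k.2 h.1, if_pos ⟨hi, h.2⟩, hi]
          exact (ha _ _).symm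
        · rw [if_pos ⟨hi, h.1⟩, if_neg fun k => k.2 h.2, hi]
          exact ha _ _
      · rw [if_neg fun k => hi k.1, if_neg fun k => hi k.1]
        exact hz ⟨rfl, ⟨_, rfl⟩, e⟩

end Pool.Agent.MP_257582_lc.H71K
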