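import Pool.Agent.MP_257582_lc.H71K.Defs

/-! The shape of the group of the tests. -/

set_option autoImplicit false

namespace Pool.Agent.MP_257582_lc.H71K

open Finset SimpleGraph

/-- the elementary abelian part of the group -/
def grp_phi {R T : Type} (s : Equiv.Perm R) (a : Unit ⊕ T × Bool → ZMod 2) :
    Equiv.Perm (R ⊕ T × V) :=
  Equiv.sumCongr (s ^ (a (.inl ())).val) (Equiv.prodShear (Equiv.refl T) fun t =>
    Equiv.addRight ((a (.inr (t, false)), a (.inr (t, true))) : V))

theorem grp_pow {R : Type} {s : Equiv.Perm R} (hs : s * s = 1) (x y : ZMod 2) :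
    s ^ (x + y).val = s ^ x.val * s ^ y.val := by
  have h : ∀ z : ZMod 2, z = 0 ∨ z = 1 := by decide
  have h1 : (1 : ZMod 2).val = 1 := rfl
  have h2 : ((1 : ZMod 2) + 1).val = 0 := rfl
  rcases h x with rfl | rfl <;> rcases h y with rfl | rfl
  · simp
  · simp
  · simp
  · rw [h2, h1, pow_zero, pow_one, hs]

theorem grp_phi_eq {R T : Type} (s : Equiv.Perm R) (a : Unit ⊕ T × Bool → ZMod 2) :
    grp_phi s a = (Equiv.sumCongr s (Equiv.refl (T × V)) : Equiv.Perm (R ⊕ T × V)) ^
      (a (.inl ())).val * tl fun t => (a (.inr (t, false)), a (.inr (t, true))) := by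
  have h : ∀ z : ZMod 2, z.val = 0 ∨ z.val = 1 := by decide
  unfold grp_phi
  rcases h (a (.inl ())) with e | e <;> rw [e] <;> refine Equiv.ext ?_ <;> rintro (x | ⟨t, v⟩) <;> rfl

/-- ROW GRP: the group has the shape needed by `sg` -/
theorem grp_shape {R T : Type} [Fintype T] {s ρ : Equiv.Perm R} (hs : s * s = 1)
    (hc : ρ * s = s * ρ) (σ : Equiv.Perm T) (A : T → V ≃+ V) :
    ∃ φ : (Unit ⊕ T × Bool → ZMod 2) → Equiv.Perm (R ⊕ T × V), φ 0 = 1 ∧
      (∀ a b, φ (a + b) = φ a * φ b) ∧ (∀ a, ∃ b, gen ρ σ A * φ a = φ b * gen ρ σ A) ∧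
      grp s ρ σ A = Subgroup.closure (Set.range φ ∪ {gen ρ σ A}) := by
  refine ⟨grp_phi s, ?_, fun a b => ?_, fun a => ?_, ?_⟩
  · refine Equiv.ext ?_
    rintro (x | ⟨t, v⟩)
    · rfl
    · exact congrArg (fun w : V => (Sum.inr (t, w) : R ⊕ T × V)) (add_zero v)
  · refine Equiv.ext ?_
    rintro (x | ⟨t, v⟩)
    · exact congrArg (fun π : Equiv.Perm R => (Sum.inl (π x) : R ⊕ T × V))
        (grp_pow hs (a (.inl ())) (b (.inl ())))
    · refine congrArg (fun w : V => (Sum.inr (t, w) : R ⊕ T × V)) ?_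
      change v + ((a (.inr (t, false)), a (.inr (t, true))) + (b (.inr (t, false)), b (.inr (t, true)))) =
        v + (b (.inr (t, false)), b (.inr (t, true))) + (a (.inr (t, false)), a (.inr (t, true)))
      rw [add_assoc, add_comm ((a (.inr (t, false)), a (.inr (t, true))) : V)]
  · let c : T → V := fun t =>
      A (σ.symm t) (a (.inr (σ.symm t, false)), a (.inr (σ.symm t, true)))
    refine ⟨Sum.elim (fun _ => a (.inl ())) fun p => cond p.2 (c p.1).2 (c p.1).1, Equiv.ext ?_⟩
    rintro (x | ⟨t, v⟩)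
    · exact congrArg (fun π : Equiv.Perm R => (Sum.inl (π x) : R ⊕ T × V))
        (Commute.pow_right (show Commute ρ s from hc) (a (.inl ())).val).eq
    · refine congrArg (fun w : V => (Sum.inr (σ t, w) : R ⊕ T × V)) ?_
      change A t (v + (a (.inr (t, false)), a (.inr (t, true)))) = A t v + c (σ t)
      simp only [c, Equiv.symm_apply_apply, map_add]
  · refine le_antisymm ((Subgroup.closure_le _).2 ?_) ((Subgroup.closure_le _).2 ?_)
    · rintro π (⟨c, rfl⟩ | rfl | rfl)
      · refine Subgroup.subset_closure (Or.inl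
          ⟨Sum.elim (fun _ => 0) fun p => cond p.2 (c p.1).2 (c p.1).1, Equiv.ext ?_⟩)
        rintro (x | ⟨t, v⟩) <;> rfl
      · refine Subgroup.subset_closure (Or.inl ⟨Sum.elim (fun _ => 1) fun _ => 0, Equiv.ext ?_⟩)
        rintro (x | ⟨t, v⟩)
        · rfl
        · exact congrArg (fun w : V => (Sum.inr (t, w) : R ⊕ T × V)) (add_zero v)
      · exact Subgroup.subset_closure (Or.inr rfl)
    · rintro π (⟨a, rfl⟩ | rfl)
      · rw [grp_phi_eq]
        refine (grp s ρ σ A).mul_mem ((grp s ρ σ A).pow_mem ?_ _) ?_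
        · exact Subgroup.subset_closure (Or.inr (Or.inl rfl))
        · exact Subgroup.subset_closure (Or.inl ⟨_, rfl⟩)
      · exact Subgroup.subset_closure (Or.inr (Or.inr rfl))

/-- ROW GRP: invariance is checked on the generators -/
theorem inv_grp {R T : Type} [Finite R] [Finite T] {s ρ : Equiv.Perm R} {σ : Equiv.Perm T}
    {A : T → V ≃+ V} {G : SimpleGraph (R ⊕ T × V)}
    (h1 : ∀ c x y, G.Adj x y → G.Adj (tl c x) (tl c y))
    (h2 : ∀ x y, G.Adj x y → G.Adj (Equiv.sumCongr s (Equiv.refl _) x)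
      (Equiv.sumCongr s (Equiv.refl _) y))
    (h3 : ∀ x y, G.Adj x y → G.Adj (gen ρ σ A x) (gen ρ σ A y)) : Inv (grp s ρ σ A) G := by
  intro h hh
  induction hh using Subgroup.closure_induction with
  | mem π hπ =>
    rcases hπ with ⟨c, rfl⟩ | rfl | rfl
    · exact h1 c
    · exact h2
    · exact h3
  | one => exact fun _ _ h => h
  | mul π π' _ _ i1 i2 => exact fun x y h => i1 _ _ (i2 x y h)
  | inv π _ i1 =>
    intro x y h
    refine (H52K.aut_iff (σ := π) i1 _ _).1 ?_
    rwa [← Equiv.Perm.mul_apply, ← Equiv.Perm.mul_apply, mul_inv_cancel]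

end Pool.Agent.MP_257582_lc.H71K
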