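import Pool.Agent.MP_257582_lc.H71K.GRP
import Pool.Agent.MP_257582_lc.H71K.Defs

/-! The orbits between the points and a rotated group of blocks. -/

set_option autoImplicit false

namespace Pool.Agent.MP_257582_lc.H71K

open Finset SimpleGraph

theorem orb2_clo {Y : Type} [Finite Y] {S : Set (Equiv.Perm Y)} {G : SimpleGraph Y}
    (h : ∀ g ∈ S, ∀ x y, G.Adj x y → G.Adj (g x) (g y)) : Inv (Subgroup.closure S) G := by
  intro g hg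
  induction hg using Subgroup.closure_induction with
  | mem g hg => exact h g hg
  | one => exact fun _ _ k => k
  | mul a b _ _ ha hb => exact fun x y k => ha _ _ (hb _ _ k)
  | inv a _ ha =>
    intro x y k
    refine (H52K.aut_iff (σ := a) ha _ _).1 ?_
    simpa using k

theorem orb2_ja {R T : Type} {P : Set R} {M : Set T} {x y : R ⊕ T × V}
    (k : (join P M).Adj x y) :
    ∃ a ∈ P, ∃ t ∈ M, ∃ v, s(x, y) = s(Sum.inl a, Sum.inr (t, v)) := by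
  rcases x with x | ⟨t, v⟩ <;> rcases y with y | ⟨t', w⟩
  · exact k.elim
  · exact ⟨x, k.1, t', k.2, w, rfl⟩
  · exact ⟨y, k.1, t, k.2, v, Sym2.eq_swap⟩
  · exact k.elim

theorem orb2_join {R T : Type} [Finite R] [Finite T] {s ρ : Equiv.Perm R} {σ : Equiv.Perm T}
    {A : T → V ≃+ V} {P : Set R} {M : Set T} (hP : ∃ a, a ∈ P) (hM : ∃ t, t ∈ M)
    (h1 : ∀ a ∈ P, s a ∈ P) (h2 : ∀ a ∈ P, ρ a ∈ P) (h3 : ∀ t ∈ M, σ t ∈ M)
    (tr : ∀ a ∈ P, ∀ a' ∈ P, ∀ t ∈ M, ∀ t' ∈ M, ∃ h ∈ grp s ρ σ A, h (.inl a) = .inl a' ∧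
      ∀ v, h (.inr (t, v)) = .inr (t', v)) : IsOrb (grp s ρ σ A) (join P M) := by
  obtain ⟨a₀, ha₀⟩ := hP
  obtain ⟨t₀, ht₀⟩ := hM
  refine ⟨⟨.inl a₀, .inr (t₀, 0), ha₀, ht₀⟩, orb2_clo ?_, fun x y x' y' k k' => ?_⟩
  · rintro g (⟨c, rfl⟩ | rfl | rfl) (a | ⟨t, v⟩) (b | ⟨t', w⟩) k
    · exact k.elim
    · exact k
    · exact k
    · exact k.elim
    · exact k.elim
    · exact ⟨h1 _ k.1, k.2⟩
    · exact ⟨h1 _ k.1, k.2⟩
    · exact k.elim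
    · exact k.elim
    · exact ⟨h2 _ k.1, h3 _ k.2⟩
    · exact ⟨h2 _ k.1, h3 _ k.2⟩
    · exact k.elim
  · obtain ⟨a, ha, t, ht, v, e⟩ := orb2_ja k
    obtain ⟨a', ha', t', ht', v', e'⟩ := orb2_ja k'
    obtain ⟨h, g1, g2, g3⟩ := tr a ha a' ha' t ht t' ht'
    refine ⟨tl (fun _ => v' - v) * h,
      mul_mem (Subgroup.subset_closure (Or.inl ⟨_, rfl⟩)) g1, ?_⟩
    have q : ∀ g : Equiv.Perm (R ⊕ T × V), s(g x, g y) = s(g (.inl a), g (.inr (t, v))) :=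
      fun g => congrArg (Sym2.map g) e
    rw [q, e', Equiv.Perm.mul_apply, Equiv.Perm.mul_apply, g2, g3]
    change s(Sum.inl a', Sum.inr (t', v + (v' - v))) = _
    rw [add_sub_cancel]

variable {u r b m₁ m₂ : ℕ}

theorem orb2_rot (i : Fin r) : (finRotate r i).val = (i.val + 1) % r := by
  cases r with
  | zero => exact i.elim0
  | succ r => rw [finRotate_apply, Fin.val_add, Fin.val_one', Nat.add_mod_mod]

theorem orb2_pow (k : ℕ) (i : Fin r) : ((finRotate r ^ k) i).val = (i.val + k) % r := by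
  induction k with
  | zero => exact (Nat.mod_eq_of_lt i.2).symm
  | succ k ih => rw [pow_succ', Equiv.Perm.mul_apply, orb2_rot, ih, Nat.mod_add_mod, add_assoc]

theorem orb2_tr (a a' : Fin r) {k : ℕ} (hk : k ≡ r - a.val + a'.val [MOD r]) :
    (finRotate r ^ k) a = a' :=
  Fin.ext (by
    rw [orb2_pow, (hk.add_left a.val : (a.val + k) % r = _), ← add_assoc,
      Nat.add_sub_cancel' a.2.le, Nat.add_mod_left, Nat.mod_eq_of_lt a'.2])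

theorem orb2_mem (j k : ℕ) : ∃ h ∈ hh u r b m₁ m₂,
    (∀ x : Fin u, h (.inl (.inl x)) = .inl (.inl ((finRotate u ^ j) x))) ∧
      (∀ y : Fin r, h (.inl (.inr y)) = .inl (.inr ((finRotate r ^ k) y))) ∧
      (∀ (i : Fin m₁) v, h (.inr (.inr (.inl i), v)) =
        .inr (.inr (.inl ((finRotate m₁ ^ k) i)), v)) ∧
      ∀ (i : Fin m₂) v, h (.inr (.inr (.inr i), v)) =
        .inr (.inr (.inr ((finRotate m₂ ^ k) i)), v) := by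
  induction j with
  | zero =>
    induction k with
    | zero => exact ⟨1, one_mem _, fun _ => rfl, fun _ => rfl, fun _ _ => rfl, fun _ _ => rfl⟩
    | succ k ih =>
      obtain ⟨h, a1, a2, a3, a4, a5⟩ := ih
      refine ⟨gen (rR u r) (sT b m₁ m₂) (Sum.elim (fun _ => om) fun _ => AddEquiv.refl V) * h,
        mul_mem (Subgroup.subset_closure (Or.inr (Or.inr rfl))) a1, fun x => ?_, fun y => ?_,
        fun i v => ?_, fun i v => ?_⟩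
      · rw [Equiv.Perm.mul_apply, a2]; rfl
      · rw [Equiv.Perm.mul_apply, a3, pow_succ']; rfl
      · rw [Equiv.Perm.mul_apply, a4, pow_succ']; rfl
      · rw [Equiv.Perm.mul_apply, a5, pow_succ']; rfl
  | succ j ih =>
    obtain ⟨h, a1, a2, a3, a4, a5⟩ := ih
    refine ⟨Equiv.sumCongr (sU u r) (Equiv.refl _) * h,
      mul_mem (Subgroup.subset_closure (Or.inr (Or.inl rfl))) a1, fun x => ?_, fun y => ?_,
      fun i v => ?_, fun i v => ?_⟩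
    · rw [Equiv.Perm.mul_apply, a2, pow_succ']; rfl
    · rw [Equiv.Perm.mul_apply, a3]; rfl
    · rw [Equiv.Perm.mul_apply, a4]; rfl
    · rw [Equiv.Perm.mul_apply, a5]; rfl

/-- ROW ORB2 -/
theorem orb_R1 (hr : 0 < r) (hm : 0 < m₁) (hc : r.Coprime m₁) :
    IsOrb (hh u r b m₁ m₂) (join (Set.range Sum.inr) (g1 b m₁ m₂)) := by
  refine orb2_join ⟨_, ⟨0, hr⟩, rfl⟩ ⟨_, ⟨0, hm⟩, rfl⟩ ?_ ?_ ?_ ?_
  · rintro _ ⟨a, rfl⟩; exact ⟨_, rfl⟩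
  · rintro _ ⟨a, rfl⟩; exact ⟨_, rfl⟩
  · rintro _ ⟨a, rfl⟩; exact ⟨_, rfl⟩
  · rintro _ ⟨a, rfl⟩ _ ⟨a', rfl⟩ _ ⟨i, rfl⟩ _ ⟨i', rfl⟩
    obtain ⟨k, k1, k2⟩ := Nat.chineseRemainder hc (r - a.val + a'.val) (m₁ - i.val + i'.val)
    obtain ⟨h, a1, _, a3, a4, _⟩ := orb2_mem (u := u) (r := r) (b := b) (m₁ := m₁) (m₂ := m₂) 0 k
    exact ⟨h, a1, by rw [a3, orb2_tr a a' k1], fun v => by rw [a4, orb2_tr i i' k2]⟩

/-- ROW ORB2 -/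
theorem orb_R2 (hr : 0 < r) (hm : 0 < m₂) (hc : r.Coprime m₂) :
    IsOrb (hh u r b m₁ m₂) (join (Set.range Sum.inr) (g2 b m₁ m₂)) := by
  refine orb2_join ⟨_, ⟨0, hr⟩, rfl⟩ ⟨_, ⟨0, hm⟩, rfl⟩ ?_ ?_ ?_ ?_
  · rintro _ ⟨a, rfl⟩; exact ⟨_, rfl⟩
  · rintro _ ⟨a, rfl⟩; exact ⟨_, rfl⟩
  · rintro _ ⟨a, rfl⟩; exact ⟨_, rfl⟩
  · rintro _ ⟨a, rfl⟩ _ ⟨a', rfl⟩ _ ⟨i, rfl⟩ _ ⟨i', rfl⟩
    obtain ⟨k, k1, k2⟩ := Nat.chineseRemainder hc (r - a.val + a'.val) (m₂ - i.val + i'.val)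
    obtain ⟨h, a1, _, a3, _, a5⟩ := orb2_mem (u := u) (r := r) (b := b) (m₁ := m₁) (m₂ := m₂) 0 k
    exact ⟨h, a1, by rw [a3, orb2_tr a a' k1], fun v => by rw [a5, orb2_tr i i' k2]⟩

/-- ROW ORB2 -/
theorem orb_U1 (hm : 0 < m₁) :
    IsOrb (hh 2 r b m₁ m₂) (join (Set.range Sum.inl) (g1 b m₁ m₂)) := by
  refine orb2_join ⟨_, 0, rfl⟩ ⟨_, ⟨0, hm⟩, rfl⟩ ?_ ?_ ?_ ?_
  · rintro _ ⟨a, rfl⟩; exact ⟨_, rfl⟩
  · rintro _ ⟨a, rfl⟩; exact ⟨_, rfl⟩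
  · rintro _ ⟨a, rfl⟩; exact ⟨_, rfl⟩
  · rintro _ ⟨a, rfl⟩ _ ⟨a', rfl⟩ _ ⟨i, rfl⟩ _ ⟨i', rfl⟩
    obtain ⟨h, a1, a2, _, a4, _⟩ := orb2_mem (u := 2) (r := r) (b := b) (m₁ := m₁) (m₂ := m₂)
      (2 - a.val + a'.val) (m₁ - i.val + i'.val)
    exact ⟨h, a1, by rw [a2, orb2_tr a a' (Nat.ModEq.refl _)],
      fun v => by rw [a4, orb2_tr i i' (Nat.ModEq.refl _)]⟩

end Pool.Agent.MP_257582_lc.H71K
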