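import Pool.Agent.MP_257582_lc.H71K.BAD4
import Pool.Agent.MP_257582_lc.H71K.EXT1
import Pool.Agent.MP_257582_lc.H71K.GRP
import Pool.Agent.MP_257582_lc.H71K.ORB1
import Pool.Agent.MP_257582_lc.H71K.ORB2
import Pool.Agent.MP_257582_lc.H71K.Defs

set_option autoImplicit false

namespace Pool.Agent.MP_257582_lc.H71K

open Finset SimpleGraph

section orbits
variable {u r b m₁ m₂ : ℕ}
variable {n : ℕ} {Φ : ∀ A : Type, SimpleGraph A → Prop} {lk : Prop}


theorem ext2_tl {G : SimpleGraph (YY u r b m₁ m₂)} (hG : Inv (hh u r b m₁ m₂) G)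
    (c : TT b m₁ m₂ → V) {x y : YY u r b m₁ m₂} (h : G.Adj x y) : G.Adj (tl c x) (tl c y) :=
  hG _ (Subgroup.subset_closure (Or.inl ⟨c, rfl⟩)) x y h

theorem ext2_pt {G : SimpleGraph (YY u r b m₁ m₂)} (hG : Inv (hh u r b m₁ m₂) G)
    {t : TT b m₁ m₂} {v : V} {x : RR u r} (h : G.Adj (.inr (t, v)) (.inl x)) (w : V) :
    G.Adj (.inr (t, w)) (.inl x) := by
  have := ext2_tl hG (fun _ => w - v) h
  rwa [show tl (fun _ => w - v) (.inr (t, v) : YY u r b m₁ m₂) = .inr (t, v + (w - v)) from rfl,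
    add_sub_cancel] at this

theorem ext2_bl {G : SimpleGraph (YY u r b m₁ m₂)} (hG : Inv (hh u r b m₁ m₂) G)
    {t t' : TT b m₁ m₂} (ht : t ≠ t') {v v' : V} (h : G.Adj (.inr (t, v)) (.inr (t', v')))
    (w w' : V) : G.Adj (.inr (t, w)) (.inr (t', w')) := by
  classical
  have := ext2_tl hG (fun s => if s = t then w - v else w' - v') h
  rwa [show tl (fun s => if s = t then w - v else w' - v') (.inr (t, v) : YY u r b m₁ m₂) =
      .inr (t, v + if t = t then w - v else w' - v') from rfl,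
    show tl (fun s => if s = t then w - v else w' - v') (.inr (t', v') : YY u r b m₁ m₂) =
      .inr (t', v' + if t' = t then w - v else w' - v') from rfl,
    if_pos rfl, if_neg ht.symm, add_sub_cancel, add_sub_cancel] at this

theorem ext2_c4 (hΦ : Fm n Φ) (hx : ¬ Φ _ (pk (⊥ : SimpleGraph Empty) (m₁ + m₂ + 1)))
    {G : SimpleGraph (YY u r b m₁ m₂)} (hz : zz lk u r b m₁ m₂ ≤ G) (t : Fin b)
    {p q : YY u r b m₁ m₂} (hpq : p ≠ q) (p1 : ∀ s v, p ≠ .inr (.inr s, v))
    (q1 : ∀ s v, q ≠ .inr (.inr s, v)) (p2 : ∀ w, G.Adj (.inr (.inl t, w)) p)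
    (q2 : ∀ w, G.Adj (.inr (.inl t, w)) q) : ¬ Φ _ G := by
  have e : (.inr (.inl t, (0, 0)) : YY u r b m₁ m₂) ≠ .inr (.inl t, (1, 0)) := by simp
  have a1 := (p2 (0, 0)).ne
  have a2 := (p2 (1, 0)).ne
  have a3 := (q2 (0, 0)).ne
  have a4 := (q2 (1, 0)).ne
  refine ext_new hΦ hx hz ![.inr (.inl t, (0, 0)), p, .inr (.inl t, (1, 0)), q] (fun i j h => ?_)
    (fun i s v => ?_) fun i => ?_
  · fin_cases i <;> fin_cases j <;>
      first
        | rfl
        | exact absurd h e
        | exact absurd h.symm e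
        | exact absurd h hpq
        | exact absurd h.symm hpq
        | exact absurd h a1
        | exact absurd h.symm a1
        | exact absurd h a2
        | exact absurd h.symm a2
        | exact absurd h a3
        | exact absurd h.symm a3
        | exact absurd h a4
        | exact absurd h.symm a4
  · fin_cases i
    exacts [by simp, p1 s v, by simp, q1 s v]
  · fin_cases i
    exacts [p2 _, (p2 _).symm, q2 _, (q2 _).symm]

theorem ext2_rot {k : ℕ} (hk : k ≠ 1) (x : Fin k) : x ≠ finRotate k x := by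
  obtain _ | _ | k := k
  · exact x.elim0
  · exact absurd rfl hk
  · rw [finRotate_apply]
    exact fun h => one_ne_zero (left_eq_add.1 h)

theorem bad_B (hΦ : Fm n Φ) (hx : ¬ Φ _ (pk (⊥ : SimpleGraph Empty) (m₁ + m₂ + 1)))
    (hu : u = 0 ∨ u = 2) (hr : r ≠ 1) (t : Fin b) (v : V) (y : YY u r b m₁ m₂)
    (h : .inr (.inl t, v) ≠ y) :
    Bad (Φ _) (zz lk u r b m₁ m₂) (hh u r b m₁ m₂) (.inr (.inl t, v)) y := by
  intro G hz hG ha
  rcases y with (x | x) | ⟨s | s, w⟩
  · have h1 := ext2_pt hG ha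
    refine ext2_c4 hΦ hx hz t (p := .inl (.inl x)) (q := .inl (.inl (finRotate u x)))
      (fun k => ext2_rot (by omega) x (Sum.inl.inj (Sum.inl.inj k))) (by simp) (by simp) h1
      fun w => ?_
    exact hG _ (Subgroup.subset_closure (Or.inr (Or.inl rfl))) _ _ (h1 w)
  · have h1 := ext2_pt hG ha
    refine ext2_c4 hΦ hx hz t (p := .inl (.inr x)) (q := .inl (.inr (finRotate r x)))
      (fun k => ext2_rot hr x (Sum.inr.inj (Sum.inl.inj k))) (by simp) (by simp) h1 ?_
    exact ext2_pt hG (v := om v) (hG _ (Subgroup.subset_closure (Or.inr (Or.inr rfl))) _ _ ha)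
  · by_cases e : t = s
    · subst e
      rcases bad_in (lk := lk) (u := u) (r := r) hΦ (.inl t : TT b m₁ m₂) v w
        (fun k => h (by rw [k])) with k | k
      · obtain ⟨-, ⟨_, k⟩, -⟩ := k
        exact absurd k (by simp)
      · exact k G hz hG ha
    · have h1 := ext2_bl hG (fun k => e (Sum.inl.inj k)) ha
      exact ext2_c4 hΦ hx hz t (p := .inr (.inl s, (0, 0))) (q := .inr (.inl s, (1, 0)))
        (by simp) (by simp) (by simp) (fun w => h1 w _) fun w => h1 w _
  · have h1 := ext2_bl hG (by simp) ha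
    refine ext_join hΦ hx hz (fun i => .inr (.inl t, ![(0, 0), (1, 0), (0, 1), (1, 1)] i))
      (fun i j k => ?_) (by simp) s fun i w => h1 _ w
    have : Function.Injective (![(0, 0), (1, 0), (0, 1), (1, 1)] : Fin 4 → V) := by decide
    exact this (Prod.ext_iff.1 (Sum.inr.inj k)).2

end orbits

end Pool.Agent.MP_257582_lc.H71K
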