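import Pool.Agent.MP_257582_lc.H71K.Defs

set_option autoImplicit false

namespace Pool.Agent.MP_257582_lc.H71K

open Finset SimpleGraph

section pad
variable {u r b m₁ m₂ : ℕ} {n : ℕ} {Φ : ∀ A : Type, SimpleGraph A → Prop}

/-- the embedding of the blocks with four-cycles -/
def padJ (u r b m₁ m₂ : ℕ) : RR u r ⊕ Fin (m₁ + m₂) × V → YY u r b m₁ m₂ :=
  Sum.map id (Prod.map (fun i => Sum.inr (finSumFinEquiv.symm i)) id)

theorem padJ_inj : Function.Injective (padJ u r b m₁ m₂) :=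
  Sum.map_injective.2 ⟨Function.injective_id,
    (Sum.inr_injective.comp finSumFinEquiv.symm.injective).prodMap Function.injective_id⟩

theorem pk_iff (hΦ : Fm n Φ) (hn : u + r + 4 * (b + m₁ + m₂) = n) (S : SimpleGraph (RR u r)) :
    Φ _ (cyc S (Set.range (Sum.inr : _ → TT b m₁ m₂))) ↔ Φ _ (pk S (m₁ + m₂)) := by
  constructor
  · refine hΦ.le (padJ u r b m₁ m₂) padJ_inj ?_
    rintro (x | ⟨s, v⟩) (y | ⟨t, w⟩) h
    · exact h
    · exact h
    · exact h
    · obtain ⟨h1, -, h2⟩ := h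
      have h1' : s = t := h1
      subst h1'
      exact ⟨rfl, ⟨_, rfl⟩, h2⟩
  · refine hΦ.pad (padJ u r b m₁ m₂) padJ_inj ?_ ?_
    · simp only [Nat.card_eq_fintype_card, Fintype.card_sum, Fintype.card_prod, Fintype.card_fin,
        ZMod.card]
      omega
    · rintro (x | ⟨s, v⟩) (y | ⟨t, w⟩) h
      · exact ⟨.inl x, .inl y, h, rfl, rfl⟩
      · exact h.elim
      · exact h.elim
      · obtain ⟨h1, ⟨i, hi⟩, h2⟩ := h
        have h1' : s = t := h1
        have hi' : Sum.inr i = s := hi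
        subst h1'
        subst hi'
        refine ⟨.inr (finSumFinEquiv i, v), .inr (finSumFinEquiv i, w), ⟨rfl, trivial, h2⟩, ?_, ?_⟩ <;>
          simp [padJ]

theorem pk_bot (hΦ : Fm n Φ) {k : ℕ} (hn : u + r + 4 * k ≤ n) :
    Φ _ (pk (⊥ : SimpleGraph (RR u r)) k) ↔ Φ _ (pk (⊥ : SimpleGraph Empty) k) := by
  have hj : Function.Injective
      (Sum.map Empty.elim id : Empty ⊕ Fin k × V → RR u r ⊕ Fin k × V) :=
    Sum.map_injective.2 ⟨fun a => a.elim, Function.injective_id⟩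
  constructor
  · refine hΦ.le _ hj ?_
    rintro (x | p) (y | q) h
    · exact x.elim
    · exact x.elim
    · exact y.elim
    · exact h
  · refine hΦ.pad _ hj ?_ ?_
    · simp only [Nat.card_eq_fintype_card, Fintype.card_sum, Fintype.card_prod, Fintype.card_fin,
        ZMod.card]
      omega
    · rintro (x | p) (y | q) h
      · exact h.elim
      · exact h.elim
      · exact h.elim
      · exact ⟨.inr p, .inr q, h, rfl, rfl⟩

end pad

theorem split (m : ℕ) {r : ℕ} (hr : r = 5 ∨ r = 7) :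
    ∃ m₁ m₂, m₁ + m₂ = m ∧ ((m₂ = 0 ∧ (m₁ = 0 ∨ r.Coprime m₁)) ∨
      (m₁ = 2 ∧ 2 ≤ m₂ ∧ r.Coprime m₁ ∧ r.Coprime m₂)) := by
  have hp : r.Prime := by rcases hr with rfl | rfl <;> norm_num
  by_cases h0 : m = 0
  · exact ⟨0, 0, by omega, Or.inl ⟨rfl, Or.inl rfl⟩⟩
  by_cases hd : r ∣ m
  · refine ⟨2, m - 2, ?_, Or.inr ⟨rfl, ?_, ?_, ?_⟩⟩
    · rcases hr with rfl | rfl <;> omega
    · rcases hr with rfl | rfl <;> omega
    · rcases hr with rfl | rfl <;> norm_num
    · rw [Nat.Prime.coprime_iff_not_dvd hp]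
      rcases hr with rfl | rfl <;> omega
  · exact ⟨m, 0, rfl, Or.inl ⟨rfl, Or.inr ((Nat.Prime.coprime_iff_not_dvd hp).2 hd)⟩⟩

end Pool.Agent.MP_257582_lc.H71K
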