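import Pool.Agent.MP_257582_lc.H71K.EVAL
import Pool.Agent.MP_257582_lc.H71K.ORB1
import Pool.Agent.MP_257582_lc.H71K.ORB2
import Pool.Agent.MP_257582_lc.H71K.BAD4
import Pool.Agent.MP_257582_lc.H71K.EXT1
import Pool.Agent.MP_257582_lc.H71K.EXT2
import Pool.Agent.MP_257582_lc.H71K.PAD
import Pool.Agent.MP_257582_lc.H71K.GRP
import Pool.Agent.MP_257582_lc.H71K.Defs

set_option autoImplicit false

namespace Pool.Agent.MP_257582_lc.H71K

open Finset SimpleGraph


section c02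
variable {n : ℕ} {Φ : ∀ A : Type, SimpleGraph A → Prop}

theorem c02_symm {Y : Type} {Ψ : SimpleGraph Y → Prop} {Z : SimpleGraph Y}
    {H : Subgroup (Equiv.Perm Y)} {x y : Y} (h : Bad Ψ Z H x y) : Bad Ψ Z H y x :=
  fun G h1 h2 h3 => h G h1 h2 h3.symm

theorem c02_anti (hΦ : Fm n Φ) {Y : Type} (G G' : SimpleGraph Y) (h : G ≤ G') (h' : Φ _ G') :
    Φ _ G :=
  hΦ.le id Function.injective_id (fun _ _ hxy => h hxy) h'

/-- if every pair outside the fixed graph is bad, the fixed graph is not a member -/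
theorem c02_none (hΦ : Fm n Φ) (hT : Test n Φ) (lk : Prop) {u b μ : ℕ}
    (hx : ¬ Φ _ (pk (⊥ : SimpleGraph Empty) (μ + 1))) (hn : u + 4 * (b + μ) = n)
    (hu : u = 0 ∨ u = 2) (hl : lk → u = 2)
    (h1 : ∀ x y : Fin u, x ≠ y → lk ∨
      Bad (Φ _) (zz lk u 0 b μ 0) (hh u 0 b μ 0) (.inl (.inl x)) (.inl (.inl y)))
    (h2 : ∀ (x : Fin u) (t : Fin μ) (v : V),
      Bad (Φ _) (zz lk u 0 b μ 0) (hh u 0 b μ 0) (.inl (.inl x)) (.inr (.inr (.inl t), v))) :
    ¬ Φ _ (pk (zr lk u 0) μ) := by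
  classical
  have hn' : u + 0 + 4 * (b + μ + 0) = n := hn
  have hB : ∀ (t : Fin b) (v : V) (y : YY u 0 b μ 0), .inr (.inl t, v) ≠ y →
      Bad (Φ _) (zz lk u 0 b μ 0) (hh u 0 b μ 0) (.inr (.inl t, v)) y := fun t v y h =>
    bad_B (m₁ := μ) (m₂ := 0) hΦ hx hu (by omega) t v y h
  have h0 := eval (c02_anti hΦ) (inv_zz lk) (hT lk u 0 b μ 0 hn' hu hl) (I := Fin 0)
    (O := Fin.elim0) ⟨fun i => i.elim0, fun i => i.elim0, fun i => i.elim0⟩ (by
      rintro ((x | x) | ⟨t | t | t, v⟩) y h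
      · rcases y with (y | y) | ⟨s | s | s, w⟩
        · have hxy : x ≠ y := fun e => h (by rw [e])
          exact (h1 x y hxy).imp (fun k => ⟨k, hxy⟩) Or.inr
        · exact y.elim0
        · exact Or.inr (Or.inr (c02_symm (hB s w _ h.symm)))
        · exact Or.inr (Or.inr (h2 x s w))
        · exact s.elim0
      · exact x.elim0
      · exact Or.inr (Or.inr (hB t v y h))
      · rcases y with (y | y) | ⟨s | s | s, w⟩
        · exact Or.inr (Or.inr (c02_symm (h2 y t v)))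
        · exact y.elim0
        · exact Or.inr (Or.inr (c02_symm (hB s w _ h.symm)))
        · by_cases e : t = s
          · subst e
            exact (bad_in hΦ _ v w fun e => h (by rw [e])).imp_right Or.inr
          · exact Or.inr (Or.inr (bad_CC hΦ (.inl t) (.inl s) (fun k => e (Sum.inl.inj k)) v w))
        · exact s.elim0
      · exact t.elim0)
  rw [chi_zero] at h0
  intro h
  rw [if_pos (show Φ _ (zz lk u 0 b μ 0) from (pk_iff hΦ hn' _).2 h)] at h0
  exact one_ne_zero h0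

theorem c02_zr (u r : ℕ) : zr False u r = ⊥ := by
  ext (a | a) (b | b)
  · exact ⟨fun h => h.1, fun h => h.elim⟩
  all_goals exact Iff.rfl

end c02

section cases
variable {n μ : ℕ} {Φ : ∀ A : Type, SimpleGraph A → Prop}

theorem case0 (hΦ : Fm n Φ) (hT : Test n Φ) (h1 : Φ _ (pk (⊥ : SimpleGraph Empty) μ))
    (hx : ¬ Φ _ (pk (⊥ : SimpleGraph Empty) (μ + 1))) {b : ℕ} (hn : 4 * (b + μ) = n) : False := by
  refine c02_none hΦ hT False (u := 0) (b := b) hx (by omega) (Or.inl rfl) False.elim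
    (fun x => x.elim0) (fun x => x.elim0) ?_
  rw [c02_zr]
  exact (pk_bot hΦ (by omega)).2 h1

theorem case2a (hΦ : Fm n Φ) (hT : Test n Φ)
    (hx : ¬ Φ _ (pk (⊥ : SimpleGraph Empty) (μ + 1))) {b : ℕ} (hn : 2 + 4 * (b + μ) = n) :
    ¬ Φ _ (pk (zr True 2 0) μ) :=
  c02_none hΦ hT True hx hn (Or.inr rfl) (fun _ => rfl) (fun _ _ _ => Or.inl trivial)
    fun x t v => bad_UC hΦ x (.inl t) v

theorem case2b (hΦ : Fm n Φ) (hT : Test n Φ) (h1 : Φ _ (pk (⊥ : SimpleGraph Empty) μ))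
    (hx : ¬ Φ _ (pk (⊥ : SimpleGraph Empty) (μ + 1))) {b : ℕ} (hn : 2 + 4 * (b + μ) = n) :
    Φ _ (pk (zr True 2 0) μ) := by
  classical
  by_contra hc
  have hn' : 2 + 0 + 4 * (b + μ + 0) = n := hn
  have hd : ¬ Φ _ (zz True 2 0 b μ 0) := fun h => hc ((pk_iff hΦ hn' _).1 h)
  refine c02_none hΦ hT False hx hn (Or.inr rfl) False.elim (fun x y hxy => Or.inr ?_)
    (fun x t v => ?_) ?_
  · intro G hZ _ hG hΦG
    refine hd (c02_anti hΦ _ G ?_ hΦG)
    rintro ((a | a) | p) ((c | c) | q) h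
    · have h2 : a ≠ c := h.2
      have h3 : (a = x ∧ c = y) ∨ (a = y ∧ c = x) := by omega
      rcases h3 with ⟨rfl, rfl⟩ | ⟨rfl, rfl⟩
      · exact hG
      · exact hG.symm
    · exact c.elim0
    · exact h.elim
    · exact a.elim0
    · exact a.elim0
    · exact a.elim0
    · exact h.elim
    · exact c.elim0
    · exact hZ h
  · intro G hZ hI hG hΦG
    have hJ : join (Set.range Sum.inl) (g1 b μ 0) ≤ G :=
      (orb_U1 t.pos).le hI (x := .inl (.inl x)) (y := .inr (.inr (.inl t), v))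
        ⟨⟨x, rfl⟩, ⟨t, rfl⟩⟩ hG
    have hj : ∀ (a : Fin 2) (w : V), G.Adj (.inl (.inl a)) (.inr (.inr (.inl t), w)) := fun a w =>
      hJ (show (join (Set.range Sum.inl) (g1 b μ 0)).Adj (.inl (.inl a)) (.inr (.inr (.inl t), w))
        from ⟨⟨a, rfl⟩, ⟨t, rfl⟩⟩)
    let P : YY 2 0 b μ 0 := .inl (.inl 1)
    let Q : YY 2 0 b μ 0 := .inr (.inr (.inl t), 0)
    have s0 : Equiv.swap P Q (.inl (.inl 0)) = .inl (.inl 0) :=
      Equiv.swap_apply_of_ne_of_ne (by simp [P]) (by simp [Q])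
    have s1 : ∀ p : TT b μ 0 × V, Sum.inr p ≠ Q → Equiv.swap P Q (.inr p) = .inr p := fun p hp =>
      Equiv.swap_apply_of_ne_of_ne (by simp [P]) hp
    have key : ∀ q : TT b μ 0 × V, (zz True 2 0 b μ 0).Adj Q (.inr q) →
        G.Adj (Equiv.swap P Q Q) (Equiv.swap P Q (.inr q)) := fun q h => by
      rw [Equiv.swap_apply_right, s1 q h.ne']
      obtain ⟨s, w⟩ := q
      obtain rfl : Sum.inr (Sum.inl t) = s := h.1
      exact hj 1 w
    refine hd (hΦ.le (Equiv.swap P Q) (Equiv.swap P Q).injective ?_ hΦG)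
    rintro ((a | a) | p) ((c | c) | q) h
    · have h2 : a ≠ c := h.2
      have h3 : (a = 0 ∧ c = 1) ∨ (a = 1 ∧ c = 0) := by omega
      rcases h3 with ⟨rfl, rfl⟩ | ⟨rfl, rfl⟩
      · rw [s0, Equiv.swap_apply_left]
        exact hj 0 0
      · rw [s0, Equiv.swap_apply_left]
        exact (hj 0 0).symm
    · exact c.elim0
    · exact h.elim
    · exact a.elim0
    · exact a.elim0
    · exact a.elim0
    · exact h.elim
    · exact c.elim0
    · by_cases hp : Sum.inr p = Q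
      · rw [hp] at h ⊢
        exact key q h
      · by_cases hq : Sum.inr q = Q
        · rw [hq] at h ⊢
          exact (key p h.symm).symm
        · rw [s1 p hp, s1 q hq]
          exact hZ h
  · rw [c02_zr]
    exact (pk_bot hΦ (by omega)).2 h1

end cases

end Pool.Agent.MP_257582_lc.H71K
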