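import Pool.Agent.MP_257582_lc.H71K.EVAL
import Pool.Agent.MP_257582_lc.H71K.ORB1
import Pool.Agent.MP_257582_lc.H71K.ORB2
import Pool.Agent.MP_257582_lc.H71K.BAD4
import Pool.Agent.MP_257582_lc.H71K.EXT1
import Pool.Agent.MP_257582_lc.H71K.EXT2
import Pool.Agent.MP_257582_lc.H71K.PAD
import Pool.Agent.MP_257582_lc.H71K.GRP
import Pool.Agent.MP_257582_lc.H71K.Defs

set_option autoImplicit false

namespace Pool.Agent.MP_257582_lc.H71K

open Finset SimpleGraph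


theorem c1a_symm {Y : Type} {Φ : SimpleGraph Y → Prop} {Z : SimpleGraph Y}
    {H : Subgroup (Equiv.Perm Y)} {x y : Y} (h : Bad Φ Z H x y) : Bad Φ Z H y x :=
  fun G h1 h2 h3 => h G h1 h2 h3.symm

theorem c1a_adj (d : ℕ) (x y : Fin 5) : (circ 0 5 d).Adj (.inr x) (.inr y) ↔
    x ≠ y ∧ ((x.val + d) % 5 = y.val ∨ (y.val + d) % 5 = x.val) := by
  simp [circ, fromRel_adj]

theorem c1a_map {n b m₁ m₂ : ℕ} {Φ : ∀ A : Type, SimpleGraph A → Prop} (hΦ : Fm n Φ) (d d' : ℕ)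
    (f : Fin 5 → Fin 5) (hf : Function.Injective f)
    (h : ∀ x y, (circ 0 5 d).Adj (.inr x) (.inr y) → (circ 0 5 d').Adj (.inr (f x)) (.inr (f y)))
    (h1 : Φ _ (zz False 0 5 b m₁ m₂ ⊔ cyc (circ 0 5 d') ∅)) :
    Φ _ (zz False 0 5 b m₁ m₂ ⊔ cyc (circ 0 5 d) ∅) := by
  refine hΦ.le (Sum.map (Sum.map id f) id)
    ((Function.injective_id.sumMap hf).sumMap Function.injective_id) ?_ h1
  rintro ((⟨_, ⟨⟩⟩ | x) | p) ((⟨_, ⟨⟩⟩ | y) | q) hxy
  · rcases hxy with hxy | hxy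
    · exact hxy.elim
    · exact Or.inr (h x y hxy)
  · rcases hxy with hxy | hxy <;> exact hxy.elim
  · rcases hxy with hxy | hxy <;> exact hxy.elim
  · exact hxy

theorem c1a_RC {n b m₁ m₂ : ℕ} {Φ : ∀ A : Type, SimpleGraph A → Prop} (hΦ : Fm n Φ)
    (hx : ¬ Φ _ (pk (⊥ : SimpleGraph Empty) (m₁ + m₂ + 1)))
    (h1 : 0 < m₁ → Nat.Coprime 5 m₁) (h2 : 0 < m₂ → Nat.Coprime 5 m₂) (x : Fin 5)
    (t : Fin m₁ ⊕ Fin m₂) (v : V) :
    Bad (Φ _) (zz False 0 5 b m₁ m₂) (hh 0 5 b m₁ m₂) (.inl (.inr x)) (.inr (.inr t, v)) := by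
  intro G hz hG ha
  refine ext_join hΦ hx hz (fun i => .inl (.inr i.castSucc)) (fun i j e => ?_)
    (fun i t v e => by cases e) t fun i w => ?_
  · simpa using e
  · rcases t with t | t
    · exact (orb_R1 (by norm_num) t.pos (h1 t.pos)).le hG
        (x := .inl (.inr x)) (y := .inr (.inr (.inl t), v)) ⟨⟨x, rfl⟩, t, rfl⟩ ha
        ⟨⟨_, rfl⟩, t, rfl⟩
    · exact (orb_R2 (by norm_num) t.pos (h2 t.pos)).le hG
        (x := .inl (.inr x)) (y := .inr (.inr (.inr t), v)) ⟨⟨x, rfl⟩, t, rfl⟩ ha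
        ⟨⟨_, rfl⟩, t, rfl⟩

section cases
variable {n μ : ℕ} {Φ : ∀ A : Type, SimpleGraph A → Prop}

/-- ROW C1a -/
theorem case1a (hΦ : Fm n Φ) (hT : Test n Φ) (h1 : Φ _ (pk (⊥ : SimpleGraph Empty) μ))
    (hx : ¬ Φ _ (pk (⊥ : SimpleGraph Empty) (μ + 1))) {b : ℕ} (hn : 5 + 4 * (b + μ) = n) :
    False := by
  classical
  obtain ⟨m₁, m₂, rfl, hm⟩ := split μ (r := 5) (Or.inl rfl)
  have c1 : 0 < m₁ → Nat.Coprime 5 m₁ := fun h => by
    rcases hm with ⟨_, h' | h'⟩ | h'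
    · omega
    · exact h'
    · exact h'.2.2.1
  have c2 : 0 < m₂ → Nat.Coprime 5 m₂ := fun h => by
    rcases hm with ⟨h', _⟩ | h'
    · omega
    · exact h'.2.2.2
  have hn' : 0 + 5 + 4 * (b + m₁ + m₂) = n := by omega
  have hV := hT False 0 5 b m₁ m₂ hn' (Or.inl rfl) False.elim
  have hO : Orbs (hh 0 5 b m₁ m₂) (zz False 0 5 b m₁ m₂)
      (fun i : Fin 2 => cyc (circ 0 5 (i.val + 1)) ∅) := by
    refine ⟨fun i => orb_circ (by omega) (by omega), ?_, ?_⟩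
    · rintro i ((⟨_, ⟨⟩⟩ | x) | p) ((⟨_, ⟨⟩⟩ | y) | q) hxy h
      · exact h
      · exact h
      · exact h
      · exact hxy.2.1
    · rintro i j ((⟨_, ⟨⟩⟩ | x) | p) ((⟨_, ⟨⟩⟩ | y) | q) hi hj
      · have e1 := (c1a_adj _ x y).1 hi
        have e2 := (c1a_adj _ x y).1 hj
        have := e1.2
        have := e2.2
        omega
      · exact hi.elim
      · exact hi.elim
      · exact hi.2.1.elim
  have hc := eval (fun G G' h => hΦ.le id Function.injective_id fun x y hxy => h hxy)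
    (inv_zz False) hV hO (by
      rintro ((⟨_, ⟨⟩⟩ | x) | ⟨t | t, v⟩) ((⟨_, ⟨⟩⟩ | y) | ⟨t' | t', w⟩) hxy
      · have hne : x ≠ y := fun e => hxy (by rw [e])
        have hv : x.val ≠ y.val := fun e => hne (Fin.ext e)
        right; left
        by_cases h : (x.val + 1) % 5 = y.val ∨ (y.val + 1) % 5 = x.val
        · exact ⟨0, (c1a_adj _ x y).2 ⟨hne, h⟩⟩
        · exact ⟨1, (c1a_adj _ x y).2 ⟨hne, by
            change (x.val + 2) % 5 = y.val ∨ (y.val + 2) % 5 = x.val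
            omega⟩⟩
      · exact Or.inr (Or.inr (c1a_symm (bad_B hΦ hx (Or.inl rfl) (by norm_num) t' w _ hxy.symm)))
      · exact Or.inr (Or.inr (c1a_RC hΦ hx c1 c2 x t' w))
      · exact Or.inr (Or.inr (bad_B hΦ hx (Or.inl rfl) (by norm_num) t v _ hxy))
      · exact Or.inr (Or.inr (bad_B hΦ hx (Or.inl rfl) (by norm_num) t v _ hxy))
      · exact Or.inr (Or.inr (bad_B hΦ hx (Or.inl rfl) (by norm_num) t v _ hxy))
      · exact Or.inr (Or.inr (c1a_symm (c1a_RC hΦ hx c1 c2 y t v)))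
      · exact Or.inr (Or.inr (c1a_symm (bad_B hΦ hx (Or.inl rfl) (by norm_num) t' w _ hxy.symm)))
      · by_cases e : t = t'
        · subst e
          rcases bad_in (lk := False) (u := 0) (r := 5) hΦ (Sum.inr t : TT b m₁ m₂) v w
            (fun e => hxy (by rw [e])) with h | h
          · exact Or.inl h
          · exact Or.inr (Or.inr h)
        · exact Or.inr (Or.inr (bad_CC hΦ t t' e v w)))
  have z0 : Φ _ (zz False 0 5 b m₁ m₂) := by
    have e : zr False 0 5 = ⊥ := by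
      ext x y
      rcases x with x | x
      · exact x.elim0
      · rcases y with y | y
        · exact y.elim0
        · exact Iff.rfl
    rw [zz, e]
    exact (pk_iff hΦ hn' ⊥).2 ((pk_bot hΦ (by omega)).2 h1)
  have z12 : Φ _ (zz False 0 5 b m₁ m₂ ⊔ cyc (circ 0 5 1) ∅) ↔
      Φ _ (zz False 0 5 b m₁ m₂ ⊔ cyc (circ 0 5 2) ∅) :=
    ⟨c1a_map hΦ 2 1 ![0, 2, 4, 1, 3] (by decide) (by simp only [c1a_adj]; decide),
      c1a_map hΦ 1 2 ![0, 2, 4, 1, 3] (by decide) (by simp only [c1a_adj]; decide)⟩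
  have z3 : ¬ Φ _ (zz False 0 5 b m₁ m₂ ⊔ cyc (circ 0 5 1) ∅ ⊔ cyc (circ 0 5 2) ∅) := by
    intro h
    refine hΦ.k4 (hΦ.le (fun i : Fin 4 => (.inl (.inr i.castSucc) : YY 0 5 b m₁ m₂))
      (fun i j e => by simpa using e) (fun x y hxy => ?_) h)
    have hne : x.castSucc ≠ y.castSucc := fun e => hxy (Fin.castSucc_injective _ e)
    have hv : x.val ≠ y.val := fun e => hxy (Fin.ext e)
    by_cases h : (x.val + 1) % 5 = y.val ∨ (y.val + 1) % 5 = x.val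
    · exact Or.inl (Or.inr ((c1a_adj 1 _ _).2 ⟨hne, h⟩))
    · exact Or.inr ((c1a_adj 2 _ _).2 ⟨hne, by
        change (x.val + 2) % 5 = y.val ∨ (y.val + 2) % 5 = x.val
        omega⟩)
  rw [chi_succ, chi_succ, chi_succ, chi_zero, chi_zero, chi_zero, chi_zero] at hc
  change ((if Φ _ (zz False 0 5 b m₁ m₂) then (1 : ℤ) else 0) -
      (if Φ _ (zz False 0 5 b m₁ m₂ ⊔ cyc (circ 0 5 2) ∅) then (1 : ℤ) else 0)) -
    ((if Φ _ (zz False 0 5 b m₁ m₂ ⊔ cyc (circ 0 5 1) ∅) then (1 : ℤ) else 0) -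
      (if Φ _ (zz False 0 5 b m₁ m₂ ⊔ cyc (circ 0 5 1) ∅ ⊔ cyc (circ 0 5 2) ∅) then (1 : ℤ)
        else 0)) = 0 at hc
  by_cases h : Φ _ (zz False 0 5 b m₁ m₂ ⊔ cyc (circ 0 5 1) ∅)
  · rw [if_pos z0, if_pos h, if_pos (z12.1 h), if_neg z3] at hc
    omega
  · rw [if_pos z0, if_neg h, if_neg (mt z12.2 h), if_neg z3] at hc
    omega

end cases

end Pool.Agent.MP_257582_lc.H71K
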