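import Pool.Agent.MP_257582_lc.H71K.EVAL
import Pool.Agent.MP_257582_lc.H71K.ORB1
import Pool.Agent.MP_257582_lc.H71K.ORB2
import Pool.Agent.MP_257582_lc.H71K.BAD4
import Pool.Agent.MP_257582_lc.H71K.EXT1
import Pool.Agent.MP_257582_lc.H71K.EXT2
import Pool.Agent.MP_257582_lc.H71K.PAD
import Pool.Agent.MP_257582_lc.H71K.GRP
import Pool.Agent.MP_257582_lc.H71K.Defs

set_option autoImplicit false

namespace Pool.Agent.MP_257582_lc.H71K

open Finset SimpleGraph


section cases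
variable {n μ : ℕ} {Φ : ∀ A : Type, SimpleGraph A → Prop}

/-- the pentagon inside the wheel -/
def c1b_w (μ : ℕ) : Fin 5 → YY 0 1 0 (μ + 1) 0 :=
  ![.inl (.inr 0), .inr (.inr (.inl 0), (0, 0)), .inr (.inr (.inl 0), (1, 0)),
    .inr (.inr (.inl 0), (1, 1)), .inr (.inr (.inl 0), (0, 1))]

/-- the embedding of a pentagon and the other four-cycles -/
def c1b_j (μ : ℕ) : RR 0 5 ⊕ Fin μ × V → YY 0 1 0 (μ + 1) 0
  | .inl (.inl a) => a.elim0
  | .inl (.inr k) => c1b_w μ k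
  | .inr p => .inr (.inr (.inl p.1.succ), p.2)

theorem c1b_w_inj (μ : ℕ) : Function.Injective (c1b_w μ) := by
  intro k l h
  fin_cases k <;> fin_cases l <;> simp [c1b_w] at h ⊢

theorem c1b_w_ne (μ : ℕ) (k : Fin 5) (t : Fin μ) (v : V) :
    c1b_w μ k ≠ .inr (.inr (.inl t.succ), v) := by
  intro h
  fin_cases k <;> simp [c1b_w, (Fin.succ_ne_zero t).symm] at h

theorem c1b_inj (μ : ℕ) : Function.Injective (c1b_j μ) := by
  rintro ((a | k) | ⟨t, v⟩) ((a' | k') | ⟨t', v'⟩) h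
  · exact a.elim0
  · exact a.elim0
  · exact a.elim0
  · exact a'.elim0
  · rw [c1b_w_inj μ h]
  · exact absurd h (c1b_w_ne μ k t' v')
  · exact a'.elim0
  · exact absurd h.symm (c1b_w_ne μ k' t v)
  · simpa [c1b_j] using h

theorem c1b_adj (μ : ℕ) (k l : Fin 5) (h : (k.val + 1) % 5 = l.val) :
    (zz False 0 1 0 (μ + 1) 0 ⊔ join (Set.range Sum.inr) (g1 0 (μ + 1) 0)).Adj
      (c1b_w μ k) (c1b_w μ l) := by
  fin_cases k <;> fin_cases l <;> simp at h
  · exact Or.inr ⟨⟨_, rfl⟩, ⟨_, rfl⟩⟩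
  · exact Or.inl ⟨rfl, ⟨_, rfl⟩, show (0 : ZMod 2) + 1 ≠ 0 + 0 by decide⟩
  · exact Or.inl ⟨rfl, ⟨_, rfl⟩, show (1 : ZMod 2) + 1 ≠ 0 + 1 by decide⟩
  · exact Or.inl ⟨rfl, ⟨_, rfl⟩, show (1 : ZMod 2) + 0 ≠ 1 + 1 by decide⟩
  · exact Or.inr ⟨⟨_, rfl⟩, ⟨_, rfl⟩⟩

/-- ROW C1b (u = 0, r = 1, one group; the wheel holds a pentagon) -/
theorem case1b (hΦ : Fm n Φ) (hT : Test n Φ) (h1 : Φ _ (pk (⊥ : SimpleGraph Empty) (μ + 1)))
    (hn : 5 + 4 * μ = n) : Φ _ (pk (circ 0 5 1) μ) := by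
  classical
  have hn' : 0 + 1 + 4 * (0 + (μ + 1) + 0) = n := by omega
  have hV := hT False 0 1 0 (μ + 1) 0 hn' (Or.inl rfl) False.elim
  have hO : Orbs (hh 0 1 0 (μ + 1) 0) (zz False 0 1 0 (μ + 1) 0)
      (fun _ : Fin 1 => join (Set.range Sum.inr) (g1 0 (μ + 1) 0)) := by
    refine ⟨fun _ => orb_R1 one_pos (Nat.succ_pos μ) (Nat.coprime_one_left _), ?_,
      fun i j _ _ _ _ => Subsingleton.elim i j⟩
    rintro i (a | p) (a' | q) h h'
    · exact h
    · exact h'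
    · exact h'
    · exact h
  have hc := eval (fun G G' hle => hΦ.le id Function.injective_id fun x y h => hle h)
    (inv_zz False) hV hO (by
      rintro ((a | a) | ⟨a | t, v⟩) y h
      · exact a.elim0
      · rcases y with (a' | a') | ⟨a' | t' | t', v'⟩
        · exact a'.elim0
        · exact absurd (by rw [Subsingleton.elim a a']) h
        · exact a'.elim0
        · exact Or.inr (Or.inl ⟨0, ⟨_, rfl⟩, ⟨_, rfl⟩⟩)
        · exact t'.elim0
      · exact a.elim0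
      · rcases y with (a' | a') | ⟨a' | t', v'⟩
        · exact a'.elim0
        · rcases t with t | t
          · exact Or.inr (Or.inl ⟨0, ⟨_, rfl⟩, ⟨_, rfl⟩⟩)
          · exact t.elim0
        · exact a'.elim0
        · by_cases e : t = t'
          · subst e
            exact (bad_in hΦ (.inr t) v v' fun e => h (by rw [e])).imp_right Or.inr
          · exact Or.inr (Or.inr (bad_CC hΦ t t' e v v')))
  have hz : zr False 0 1 = ⊥ := by
    ext (a | a) (a' | a')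
    · exact a.elim0
    · exact a.elim0
    · exact a'.elim0
    · exact Iff.rfl
  have hZ : Φ _ (zz False 0 1 0 (μ + 1) 0) := by
    refine (pk_iff hΦ hn' _).2 ?_
    rw [hz]
    exact (pk_bot hΦ (by omega)).2 h1
  rw [chi_succ, chi_zero, chi_zero, if_pos hZ] at hc
  have hW : Φ _ (zz False 0 1 0 (μ + 1) 0 ⊔ join (Set.range Sum.inr) (g1 0 (μ + 1) 0)) := by
    by_contra h
    rw [if_neg h] at hc
    exact absurd hc (by decide)
  refine hΦ.le (c1b_j μ) (c1b_inj μ) ?_ hW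
  rintro ((a | k) | ⟨t, v⟩) ((a' | k') | ⟨t', v'⟩) h
  · exact a.elim0
  · exact a.elim0
  · exact a.elim0
  · exact a'.elim0
  · have h' : (circ 0 5 1).Adj (.inr k) (.inr k') := h
    rcases ((fromRel_adj _ _ _).1 h').2 with h | h
    · exact c1b_adj μ k k' h
    · exact (c1b_adj μ k' k h).symm
  · exact h.elim
  · exact a'.elim0
  · exact h.elim
  · exact Or.inl ⟨congrArg (fun s : Fin μ => (Sum.inr (Sum.inl s.succ) : TT 0 (μ + 1) 0)) h.1,
      ⟨_, rfl⟩, h.2.2⟩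

end cases

end Pool.Agent.MP_257582_lc.H71K
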