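import Pool.Agent.MP_257582_lc.H71K.EVAL
import Pool.Agent.MP_257582_lc.H71K.ORB1
import Pool.Agent.MP_257582_lc.H71K.ORB2
import Pool.Agent.MP_257582_lc.H71K.BAD4
import Pool.Agent.MP_257582_lc.H71K.EXT1
import Pool.Agent.MP_257582_lc.H71K.EXT2
import Pool.Agent.MP_257582_lc.H71K.PAD
import Pool.Agent.MP_257582_lc.H71K.GRP
import Pool.Agent.MP_257582_lc.H71K.Defs

set_option autoImplicit false

namespace Pool.Agent.MP_257582_lc.H71K

open Finset SimpleGraph


section c1c_general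

variable {Y : Type} {Ψ : SimpleGraph Y → Prop} {Z : SimpleGraph Y}

theorem c1c_zero (anti : ∀ G G', G ≤ G' → Ψ G' → Ψ G) {I : Type} [Fintype I]
    (O : I → SimpleGraph Y) (h : ¬ Ψ Z) : chi Ψ Z O = 0 :=
  sum_eq_zero fun _ _ => if_neg fun h' => h (anti _ _ le_sup_left h')

theorem c1c_one (anti : ∀ G G', G ≤ G' → Ψ G' → Ψ G) {I : Type} [Fintype I]
    (O : I → SimpleGraph Y) (h : Ψ Z) (h' : ∀ i, ¬ Ψ (Z ⊔ O i)) : chi Ψ Z O = 1 := by
  unfold chi
  rw [sum_eq_single ∅]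
  · simp [h]
  · intro J _ hJ
    obtain ⟨i, hi⟩ := nonempty_iff_ne_empty.2 hJ
    exact if_neg fun e => h' i (anti _ _ (sup_le_sup_left (le_sup hi) _) e)
  · simp

theorem c1c_le (anti : ∀ G G', G ≤ G' → Ψ G' → Ψ G) {k : ℕ} (hk : k ≤ 2)
    (O : Fin k → SimpleGraph Y) : chi Ψ Z O ≤ 1 := by
  obtain rfl | rfl | rfl : k = 0 ∨ k = 1 ∨ k = 2 := by omega
  · rw [chi_zero]; split_ifs <;> omega
  · rw [chi_succ, chi_zero, chi_zero]; split_ifs <;> omega
  · rw [chi_succ, chi_succ, chi_succ, chi_zero, chi_zero, chi_zero, chi_zero]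
    have := anti (Z ⊔ O 0) (Z ⊔ O 0 ⊔ O (Fin.succ 0)) le_sup_left
    split_ifs <;> first | omega | tauto

end c1c_general

theorem c1c_circ {u r d : ℕ} (a b : Fin r) : (circ u r d).Adj (.inr a) (.inr b) ↔
    a ≠ b ∧ ((a.val + d) % r = b.val ∨ (b.val + d) % r = a.val) := by
  simp [circ, fromRel_adj]

section cases
variable {n μ : ℕ} {Φ : ∀ A : Type, SimpleGraph A → Prop}

theorem c1c_core (hΦ : Fm n Φ) (hT : Test n Φ) {m₁ m₂ k : ℕ} (hn : 5 + 4 * (m₁ + m₂) = n)
    (hk : k ≤ 2) (M : Fin k → Set (TT 0 m₁ m₂))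
    (horb : ∀ i, IsOrb (hh 0 5 0 m₁ m₂) (join (Set.range Sum.inr) (M i)))
    (hne : ∀ i, ∃ t, Sum.inr t ∈ M i) (hdis : ∀ i j t, t ∈ M i → t ∈ M j → i = j)
    (hcov : ∀ t, ∃ i, Sum.inr t ∈ M i) : ¬ Φ _ (pk (circ 0 5 1) (m₁ + m₂)) := by
  intro h
  have hn' : 0 + 5 + 4 * (0 + m₁ + m₂) = n := by omega
  rw [← pk_iff (b := 0) hΦ hn'] at h
  have anti : ∀ G G' : SimpleGraph (YY 0 5 0 m₁ m₂), G ≤ G' → Φ _ G' → Φ _ G :=
    fun G G' e => hΦ.le id Function.injective_id fun _ _ a => e a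
  have hV := hT False 0 5 0 m₁ m₂ hn' (Or.inl rfl) False.elim
  have d12 : ∀ a b : Fin 5, (circ 0 5 1).Adj (.inr a) (.inr b) →
      ¬ (circ 0 5 2).Adj (.inr a) (.inr b) := by
    intro a b
    rw [c1c_circ, c1c_circ]
    revert a b
    decide
  have c12 : ∀ a b : Fin 5, a ≠ b → (circ 0 5 1).Adj (.inr a) (.inr b) ∨
      (circ 0 5 2).Adj (.inr a) (.inr b) := by
    intro a b
    rw [c1c_circ, c1c_circ]
    revert a b
    decide
  have m21 : ∀ a b : Fin 5, (circ 0 5 2).Adj (.inr a) (.inr b) →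
      (circ 0 5 1).Adj (.inr (3 * a)) (.inr (3 * b)) := by
    intro a b
    rw [c1c_circ, c1c_circ]
    revert a b
    decide
  have cj : ∀ (S : SimpleGraph (RR 0 5)) (N : Set (TT 0 m₁ m₂)) x y, (cyc S ∅).Adj x y →
      ¬ (join (Set.range Sum.inr) N).Adj x y := by
    rintro S N (a | p) (b | q) e e'
    · exact e'
    · exact e
    · exact e
    · exact e'
  have cc : ∀ x y : YY 0 5 0 m₁ m₂, (cyc (circ 0 5 1) ∅).Adj x y →
      ¬ (cyc (circ 0 5 2) ∅).Adj x y := by
    rintro ((a | a) | p) ((b | b) | q) e e'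
    · exact a.elim0
    · exact a.elim0
    · exact a.elim0
    · exact b.elim0
    · exact d12 a b e e'
    · exact e
    · exact b.elim0
    · exact e
    · exact e.2.1
  have cz : ∀ (S : SimpleGraph (RR 0 5)) x y, (cyc S ∅).Adj x y →
      ¬ (zz False 0 5 0 m₁ m₂).Adj x y := by
    rintro S ((a | a) | p) ((b | b) | q) e e'
    · exact a.elim0
    · exact a.elim0
    · exact a.elim0
    · exact b.elim0
    · exact e'
    · exact e
    · exact b.elim0
    · exact e
    · exact e.2.1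
  have hO : Orbs (hh 0 5 0 m₁ m₂) (zz False 0 5 0 m₁ m₂)
      (Matrix.vecCons (cyc (circ 0 5 1) ∅) (Matrix.vecCons (cyc (circ 0 5 2) ∅)
        fun i => join (Set.range Sum.inr) (M i))) := by
    refine ⟨fun i => ?_, fun i x y e => ?_, fun i j x y e e' => ?_⟩
    · refine Fin.cases ?_ (fun i => Fin.cases ?_ (fun i => ?_) i) i
      · exact orb_circ (by omega) (by omega)
      · exact orb_circ (by omega) (by omega)
      · exact horb i
    · revert e
      refine Fin.cases ?_ (fun i => Fin.cases ?_ (fun i => ?_) i) i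
      · exact cz _ x y
      · exact cz _ x y
      · intro e e'
        rcases x with a | p <;> rcases y with b | q
        · exact e
        · exact e'
        · exact e'
        · exact e
    · revert e e'
      refine Fin.cases ?_ (fun i => Fin.cases ?_ (fun i => ?_) i) i <;>
        refine Fin.cases ?_ (fun j => Fin.cases ?_ (fun j => ?_) j) j <;> intro e e'
      · rfl
      · exact (cc x y e e').elim
      · exact (cj _ _ x y e e').elim
      · exact (cc x y e' e).elim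
      · rfl
      · exact (cj _ _ x y e e').elim
      · exact (cj _ _ x y e' e).elim
      · exact (cj _ _ x y e' e).elim
      · congr 2
        rcases x with a | p <;> rcases y with b | q
        · exact e.elim
        · exact hdis _ _ _ e.2 e'.2
        · exact hdis _ _ _ e.2 e'.2
        · exact e.elim
  have h0 := eval anti (inv_zz False) hV hO (by
    rintro ((a | a) | ⟨t | t, v⟩) ((b | b) | ⟨t' | t', w⟩) e
    all_goals first | exact a.elim0 | exact b.elim0 | exact t.elim0 | exact t'.elim0 | skip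
    · rcases c12 a b (fun e' => e (by rw [e'])) with e' | e'
      · exact Or.inr (Or.inl ⟨0, e'⟩)
      · exact Or.inr (Or.inl ⟨Fin.succ 0, e'⟩)
    · obtain ⟨i, hi⟩ := hcov t'
      exact Or.inr (Or.inl ⟨i.succ.succ, ⟨a, rfl⟩, hi⟩)
    · obtain ⟨i, hi⟩ := hcov t
      exact Or.inr (Or.inl ⟨i.succ.succ, ⟨b, rfl⟩, hi⟩)
    · by_cases et : t = t'
      · subst et
        exact (bad_in hΦ (.inr t) v w fun e' => e (by rw [e'])).imp_right Or.inr
      · exact Or.inr (Or.inr (bad_CC hΦ t t' et v w)))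
  rw [chi_succ, chi_succ, chi_succ] at h0
  simp only [Matrix.cons_val_zero, Matrix.cons_val_succ] at h0
  have kj : ∀ (S : SimpleGraph (RR 0 5)) (a b : Fin 5), S.Adj (.inr a) (.inr b) → ∀ i,
      ¬ Φ _ (zz False 0 5 0 m₁ m₂ ⊔ cyc S ∅ ⊔ join (Set.range Sum.inr) (M i)) := by
    intro S a b e i
    obtain ⟨t, ht⟩ := hne i
    exact k4_join (lk := False) hΦ (le_sup_left.trans le_sup_left) (x := .inr a) (y := .inr b)
      (Or.inl (Or.inr e)) t (fun v => Or.inr ⟨⟨a, rfl⟩, ht⟩) fun v => Or.inr ⟨⟨b, rfl⟩, ht⟩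
  have p1 : Φ _ (zz False 0 5 0 m₁ m₂ ⊔ cyc (circ 0 5 1) ∅) := by
    refine anti _ _ ?_ h
    rintro ((a | a) | p) ((b | b) | q) (e | e)
    all_goals first | exact a.elim0 | exact b.elim0 | exact e.elim | exact e | exact e.2.1.elim
  have p2 : Φ _ (zz False 0 5 0 m₁ m₂ ⊔ cyc (circ 0 5 2) ∅) := by
    refine hΦ.le (Sum.map (Sum.map id fun a : Fin 5 => 3 * a) id)
      ((Function.injective_id.sumMap (by decide)).sumMap Function.injective_id) ?_ h
    rintro ((a | a) | p) ((b | b) | q) (e | e)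
    all_goals first
      | exact a.elim0 | exact b.elim0 | exact e.elim | exact m21 a b e | exact e | exact e.2.1.elim
  have p3 : ¬ Φ _ (zz False 0 5 0 m₁ m₂ ⊔ cyc (circ 0 5 1) ∅ ⊔ cyc (circ 0 5 2) ∅) := by
    intro e
    refine hΦ.k4 (hΦ.le (fun i : Fin 4 => (.inl (.inr i.castSucc) : YY 0 5 0 m₁ m₂))
      (fun i j e' => Fin.castSucc_injective _ (Sum.inr.inj (Sum.inl.inj e'))) (fun i j e' => ?_) e)
    rcases c12 _ _ (fun e'' => e'.ne (Fin.castSucc_injective _ e'')) with e'' | e''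
    · exact Or.inl (Or.inr e'')
    · exact Or.inr e''
  rw [c1c_one anti _ p1 (kj _ 0 1 (by rw [c1c_circ]; decide)),
    c1c_one anti _ p2 (kj _ 0 2 (by rw [c1c_circ]; decide)), c1c_zero anti _ p3] at h0
  have := c1c_le (Z := zz False 0 5 0 m₁ m₂) anti hk fun i => join (Set.range Sum.inr) (M i)
  omega

/-- ROW C1c -/
theorem case1c (hΦ : Fm n Φ) (hT : Test n Φ) (hn : 5 + 4 * μ = n) :
    ¬ Φ _ (pk (circ 0 5 1) μ) := by
  obtain ⟨m₁, m₂, rfl, h⟩ := split μ (r := 5) (Or.inl rfl)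
  rcases h with ⟨rfl, h⟩ | ⟨h1, h2, h3, h4⟩
  · rcases Nat.eq_zero_or_pos m₁ with rfl | hm
    · exact c1c_core hΦ hT hn (k := 0) (by omega) Fin.elim0 (fun i => i.elim0) (fun i => i.elim0)
        (fun i => i.elim0) (by rintro (t | t) <;> exact t.elim0)
    · refine c1c_core hΦ hT hn (k := 1) (by omega) (fun _ => g1 0 m₁ 0)
        (fun _ => orb_R1 (by omega) hm (h.resolve_left hm.ne'))
        (fun _ => ⟨.inl ⟨0, hm⟩, _, rfl⟩) (fun i j _ _ _ => Subsingleton.elim i j) ?_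
      rintro (t | t)
      · exact ⟨0, t, rfl⟩
      · exact t.elim0
  · refine c1c_core hΦ hT hn (k := 2) le_rfl ![g1 0 m₁ m₂, g2 0 m₁ m₂] (fun i => ?_) (fun i => ?_)
      (fun i j t e e' => ?_) ?_
    · fin_cases i
      · exact orb_R1 (by omega) (by omega) h3
      · exact orb_R2 (by omega) (by omega) h4
    · fin_cases i
      · exact ⟨.inl ⟨0, by omega⟩, _, rfl⟩
      · exact ⟨.inr ⟨0, by omega⟩, _, rfl⟩
    · fin_cases i <;> fin_cases j
      · rfl
      · obtain ⟨a, rfl⟩ := e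
        obtain ⟨b, e'⟩ := e'
        cases e'
      · obtain ⟨a, rfl⟩ := e
        obtain ⟨b, e'⟩ := e'
        cases e'
      · rfl
    · rintro (t | t)
      · exact ⟨0, t, rfl⟩
      · exact ⟨1, t, rfl⟩

end cases

end Pool.Agent.MP_257582_lc.H71K
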