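import Pool.Agent.MP_257582_lc.H71K.EVAL
import Pool.Agent.MP_257582_lc.H71K.ORB1
import Pool.Agent.MP_257582_lc.H71K.ORB2
import Pool.Agent.MP_257582_lc.H71K.BAD4
import Pool.Agent.MP_257582_lc.H71K.EXT1
import Pool.Agent.MP_257582_lc.H71K.EXT2
import Pool.Agent.MP_257582_lc.H71K.PAD
import Pool.Agent.MP_257582_lc.H71K.GRP
import Pool.Agent.MP_257582_lc.H71K.Defs

set_option autoImplicit false

namespace Pool.Agent.MP_257582_lc.H71K

open Finset SimpleGraph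


section c3a
variable {n μ : ℕ} {Φ : ∀ A : Type, SimpleGraph A → Prop}

theorem c3a_adj {b m₁ m₂ : ℕ} (d : ℕ) (x y : Fin 7) :
    (cyc (circ 0 7 d) ∅ : SimpleGraph (YY 0 7 b m₁ m₂)).Adj (.inl (.inr x)) (.inl (.inr y)) ↔
      x ≠ y ∧ ((x.val + d) % 7 = y.val ∨ (y.val + d) % 7 = x.val) := by
  change (circ 0 7 d).Adj _ _ ↔ _
  simp [circ, fromRel_adj]

theorem c3a_inv {b m₁ m₂ d : ℕ} {x y : YY 0 7 b m₁ m₂} (h : (cyc (circ 0 7 d) ∅).Adj x y) :
    ∃ a c : Fin 7, x = .inl (.inr a) ∧ y = .inl (.inr c) := by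
  rcases x with (a | a) | p
  · exact a.elim0
  · rcases y with (c | c) | q
    · exact c.elim0
    · exact ⟨a, c, rfl, rfl⟩
    · exact h.elim
  · rcases y with c | q
    · exact h.elim
    · exact h.2.1.elim

theorem c3a_two (hΦ : Fm n Φ) {b m₁ m₂ d d' : ℕ}
    (hd : ∀ x y : Fin 7, (x ≠ y ∧ ((x.val + d) % 7 = y.val ∨ (y.val + d) % 7 = x.val)) →
      2 * x ≠ 2 * y ∧ (((2 * x).val + d') % 7 = (2 * y).val ∨ ((2 * y).val + d') % 7 = (2 * x).val))
    (h : Φ _ (zz False 0 7 b m₁ m₂ ⊔ cyc (circ 0 7 d') ∅)) :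
    Φ _ (zz False 0 7 b m₁ m₂ ⊔ cyc (circ 0 7 d) ∅) := by
  have h2 : Function.Injective fun x : Fin 7 => 2 * x := by decide
  refine hΦ.le (Sum.map (Sum.map id fun x : Fin 7 => 2 * x) id)
    (Function.Injective.sumMap (Function.Injective.sumMap Function.injective_id h2)
      Function.injective_id) ?_ h
  rintro x y (h1 | h1)
  · left
    rcases x with (a | a) | p
    · exact a.elim0
    · rcases y with (c | c) | q
      · exact c.elim0
      · exact h1.elim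
      · exact h1.elim
    · rcases y with c | q
      · exact h1.elim
      · exact h1
  · right
    obtain ⟨a, c, rfl, rfl⟩ := c3a_inv h1
    exact (c3a_adj d' _ _).2 (hd a c ((c3a_adj d a c).1 h1))

theorem c3a_pair (hΦ : Fm n Φ) {b m₁ m₂ d d' : ℕ}
    (hx : ¬ Φ _ (pk (⊥ : SimpleGraph Empty) (m₁ + m₂ + 1))) (c : Fin 4 → Fin 7)
    (hc : Function.Injective c)
    (ha : ∀ i, (c i ≠ c (i + 1) ∧ (((c i).val + d) % 7 = (c (i + 1)).val ∨
        ((c (i + 1)).val + d) % 7 = (c i).val)) ∨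
      (c i ≠ c (i + 1) ∧ (((c i).val + d') % 7 = (c (i + 1)).val ∨
        ((c (i + 1)).val + d') % 7 = (c i).val)))
    {G : SimpleGraph (YY 0 7 b m₁ m₂)} (hz : zz False 0 7 b m₁ m₂ ≤ G)
    (h1 : cyc (circ 0 7 d) ∅ ≤ G) (h2 : cyc (circ 0 7 d') ∅ ≤ G) : ¬ Φ _ G := by
  refine ext_new hΦ hx hz (fun i => .inl (.inr (c i)))
    (fun i j h => hc (Sum.inr_injective (Sum.inl_injective h))) (fun i t v h => by cases h) fun i => ?_
  rcases ha i with h | h
  · exact h1 ((c3a_adj d _ _).2 h)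
  · exact h2 ((c3a_adj d' _ _).2 h)

theorem c3a_RC (hΦ : Fm n Φ) {b m₁ m₂ : ℕ}
    (hx : ¬ Φ _ (pk (⊥ : SimpleGraph Empty) (m₁ + m₂ + 1)))
    (hs : (m₂ = 0 ∧ (m₁ = 0 ∨ (7 : ℕ).Coprime m₁)) ∨
      (m₁ = 2 ∧ 2 ≤ m₂ ∧ (7 : ℕ).Coprime m₁ ∧ (7 : ℕ).Coprime m₂))
    (a : Fin 7) (t : Fin m₁ ⊕ Fin m₂) (v : V) :
    Bad (Φ _) (zz False 0 7 b m₁ m₂) (hh 0 7 b m₁ m₂) (.inl (.inr a)) (.inr (.inr t, v)) := by
  intro G hz hG hadj
  have key : ∀ (x : Fin 7) (w : V), G.Adj (.inl (.inr x)) (.inr (.inr t, w)) := by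
    rcases t with i | i
    · have hm : 0 < m₁ := i.pos
      have hc : (7 : ℕ).Coprime m₁ := by
        rcases hs with ⟨-, h | h⟩ | h
        · omega
        · exact h
        · exact h.2.2.1
      have hle := (orb_R1 (u := 0) (b := b) (m₂ := m₂) (by norm_num) hm hc).le hG
        (x := .inl (.inr a)) (y := .inr (.inr (.inl i), v)) ⟨⟨a, rfl⟩, ⟨i, rfl⟩⟩ hadj
      exact fun x w => hle (show (join _ _).Adj _ _ from ⟨⟨x, rfl⟩, ⟨i, rfl⟩⟩)
    · have hm : 0 < m₂ := i.pos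
      have hc : (7 : ℕ).Coprime m₂ := by
        rcases hs with ⟨h, -⟩ | h
        · omega
        · exact h.2.2.2
      have hle := (orb_R2 (u := 0) (b := b) (m₁ := m₁) (by norm_num) hm hc).le hG
        (x := .inl (.inr a)) (y := .inr (.inr (.inr i), v)) ⟨⟨a, rfl⟩, ⟨i, rfl⟩⟩ hadj
      exact fun x w => hle (show (join _ _).Adj _ _ from ⟨⟨x, rfl⟩, ⟨i, rfl⟩⟩)
  refine ext_join hΦ hx hz (fun i : Fin 4 => .inl (.inr (Fin.castLE (by norm_num) i)))
    (fun i j h => Fin.castLE_injective _ (Sum.inr_injective (Sum.inl_injective h)))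
    (fun i t v h => by cases h) t fun i w => key _ w

open Classical in
theorem c3a_chi {Y : Type} (Ψ : SimpleGraph Y → Prop) (Z : SimpleGraph Y) (O : Fin 3 → SimpleGraph Y) :
    chi Ψ Z O = (if Ψ Z then 1 else 0) - (if Ψ (Z ⊔ O 2) then 1 else 0) -
      ((if Ψ (Z ⊔ O 1) then 1 else 0) - (if Ψ (Z ⊔ O 1 ⊔ O 2) then 1 else 0)) -
      ((if Ψ (Z ⊔ O 0) then 1 else 0) - (if Ψ (Z ⊔ O 0 ⊔ O 2) then 1 else 0) -
      ((if Ψ (Z ⊔ O 0 ⊔ O 1) then 1 else 0) - (if Ψ (Z ⊔ O 0 ⊔ O 1 ⊔ O 2) then 1 else 0))) := by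
  simp only [chi_succ, chi_zero]
  rfl

/-- ROW C3a -/
theorem case3a (hΦ : Fm n Φ) (hT : Test n Φ) (h1 : Φ _ (pk (⊥ : SimpleGraph Empty) μ))
    (hx : ¬ Φ _ (pk (⊥ : SimpleGraph Empty) (μ + 1))) {b : ℕ} (hn : 7 + 4 * (b + μ) = n) :
    False := by
  obtain ⟨m₁, m₂, rfl, hs⟩ := split μ (r := 7) (Or.inr rfl)
  have hn' : 0 + 7 + 4 * (b + m₁ + m₂) = n := by omega
  have hV := hT False 0 7 b m₁ m₂ hn' (Or.inl rfl) False.elim
  have anti : ∀ G G' : SimpleGraph (YY 0 7 b m₁ m₂), G ≤ G' → Φ _ G' → Φ _ G :=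
    fun G G' h => hΦ.le id Function.injective_id fun x y hxy => h hxy
  have symm : ∀ x y, Bad (Φ _) (zz False 0 7 b m₁ m₂) (hh 0 7 b m₁ m₂) x y →
      Bad (Φ _) (zz False 0 7 b m₁ m₂) (hh 0 7 b m₁ m₂) y x :=
    fun x y h G a1 a2 a3 => h G a1 a2 a3.symm
  have hO : Orbs (hh 0 7 b m₁ m₂) (zz False 0 7 b m₁ m₂)
      fun i : Fin 3 => cyc (circ 0 7 (i.val + 1)) ∅ := by
    refine ⟨fun i => orb_circ (by omega) (by omega), fun i x y h hz => ?_, fun i j x y h h' => ?_⟩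
    · obtain ⟨a, c, rfl, rfl⟩ := c3a_inv h
      exact hz.elim
    · obtain ⟨a, c, rfl, rfl⟩ := c3a_inv h
      have k1 := (c3a_adj _ a c).1 h
      have k2 := (c3a_adj _ a c).1 h'
      have : ∀ (i j : Fin 3) (a c : Fin 7),
          a ≠ c ∧ ((a.val + (i.val + 1)) % 7 = c.val ∨ (c.val + (i.val + 1)) % 7 = a.val) →
          a ≠ c ∧ ((a.val + (j.val + 1)) % 7 = c.val ∨ (c.val + (j.val + 1)) % 7 = a.val) →
          i = j := by decide
      exact this i j a c k1 k2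
  have hchi := eval anti (inv_zz False) hV hO (by
    intro x y hxy
    rcases x with (a | a) | ⟨t | t, v⟩
    · exact a.elim0
    · rcases y with (c | c) | ⟨t' | t', w⟩
      · exact c.elim0
      · right; left
        have hac : a ≠ c := fun h => hxy (by rw [h])
        have : ∀ a c : Fin 7, a ≠ c → ∃ i : Fin 3, a ≠ c ∧
            ((a.val + (i.val + 1)) % 7 = c.val ∨ (c.val + (i.val + 1)) % 7 = a.val) := by decide
        obtain ⟨i, hi⟩ := this a c hac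
        exact ⟨i, (c3a_adj _ a c).2 hi⟩
      · exact Or.inr (Or.inr (symm _ _ (bad_B hΦ hx (Or.inl rfl) (by norm_num) t' w _ hxy.symm)))
      · exact Or.inr (Or.inr (c3a_RC hΦ hx hs a t' w))
    · exact Or.inr (Or.inr (bad_B hΦ hx (Or.inl rfl) (by norm_num) t v _ hxy))
    · rcases y with (c | c) | ⟨t' | t', w⟩
      · exact c.elim0
      · exact Or.inr (Or.inr (symm _ _ (c3a_RC hΦ hx hs c t v)))
      · exact Or.inr (Or.inr (symm _ _ (bad_B hΦ hx (Or.inl rfl) (by norm_num) t' w _ hxy.symm)))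
      · by_cases htt : t = t'
        · subst htt
          rcases bad_in (lk := False) (u := 0) (r := 7) (b := b) hΦ (.inr t) v w
            (fun h => hxy (by rw [h])) with h | h
          · exact Or.inl h
          · exact Or.inr (Or.inr h)
        · exact Or.inr (Or.inr (bad_CC hΦ t t' htt v w)))
  have hZ : Φ _ (zz False 0 7 b m₁ m₂) := by
    have e : zr False 0 7 = ⊥ := by
      ext x y
      rcases x with a | a
      · exact a.elim0
      · rcases y with c | c <;> exact Iff.rfl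
    rw [zz, e, pk_iff hΦ hn', pk_bot hΦ (by omega)]
    exact h1
  have p12 := fun G => c3a_pair (b := b) (d := 1) (d' := 2) hΦ hx ![0, 1, 3, 2] (by decide)
    (by decide) (G := G)
  have p13 := fun G => c3a_pair (b := b) (d := 1) (d' := 3) hΦ hx ![0, 1, 4, 3] (by decide)
    (by decide) (G := G)
  have p23 := fun G => c3a_pair (b := b) (d := 2) (d' := 3) hΦ hx ![0, 2, 5, 3] (by decide)
    (by decide) (G := G)
  have a12 := c3a_two hΦ (b := b) (m₁ := m₁) (m₂ := m₂) (d := 1) (d' := 2) (by decide)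
  have a23 := c3a_two hΦ (b := b) (m₁ := m₁) (m₂ := m₂) (d := 2) (d' := 3) (by decide)
  have a31 := c3a_two hΦ (b := b) (m₁ := m₁) (m₂ := m₂) (d := 3) (d' := 1) (by decide)
  rw [c3a_chi, show ((0 : Fin 3) : ℕ) + 1 = 1 from rfl, show ((1 : Fin 3) : ℕ) + 1 = 2 from rfl,
    show ((2 : Fin 3) : ℕ) + 1 = 3 from rfl, if_pos hZ,
    if_neg (p23 _ (le_sup_left.trans le_sup_left) (le_sup_right.trans le_sup_left) le_sup_right),
    if_neg (p13 _ (le_sup_left.trans le_sup_left) (le_sup_right.trans le_sup_left) le_sup_right),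
    if_neg (p12 _ (le_sup_left.trans le_sup_left) (le_sup_right.trans le_sup_left) le_sup_right),
    if_neg (p23 _ ((le_sup_left.trans le_sup_left).trans le_sup_left)
      (le_sup_right.trans le_sup_left) le_sup_right)] at hchi
  by_cases h : Φ _ (zz False 0 7 b m₁ m₂ ⊔ cyc (circ 0 7 1) ∅)
  · rw [if_pos (a31 h), if_pos (a23 (a31 h)), if_pos h] at hchi
    omega
  · rw [if_neg (fun k => h (a12 (a23 k))), if_neg (fun k => h (a12 k)), if_neg h] at hchi
    omega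

end c3a

end Pool.Agent.MP_257582_lc.H71K
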