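import Pool.Agent.MP_257582_lc.H71K.EVAL
import Pool.Agent.MP_257582_lc.H71K.ORB1
import Pool.Agent.MP_257582_lc.H71K.ORB2
import Pool.Agent.MP_257582_lc.H71K.BAD4
import Pool.Agent.MP_257582_lc.H71K.EXT1
import Pool.Agent.MP_257582_lc.H71K.EXT2
import Pool.Agent.MP_257582_lc.H71K.PAD
import Pool.Agent.MP_257582_lc.H71K.GRP
import Pool.Agent.MP_257582_lc.H71K.Defs

set_option autoImplicit false

namespace Pool.Agent.MP_257582_lc.H71K

open Finset SimpleGraph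


theorem c3b_sup {R T : Type} (S S' : SimpleGraph R) (M : Set T) :
    cyc S M ⊔ cyc S' ∅ = cyc (S ⊔ S') M := by
  ext (a | p) (b | q) <;> simp [cyc]

theorem c3b_zr : zr False 0 7 = ⊥ := by
  ext (a | a) (b | b) <;> simp [zr]

theorem c3b_adj (d : ℕ) (a b : Fin 7) : (circ 0 7 d).Adj (.inr a) (.inr b) ↔
    a ≠ b ∧ ((a.val + d) % 7 = b.val ∨ (b.val + d) % 7 = a.val) := by
  simp [circ, fromRel_adj]

theorem c3b_tau {p q k : ℕ} (hk : p + q = k) (hp : 2 ≤ p) :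
    ∃ τ : Fin k → Fin p ⊕ Fin q, Function.Injective τ ∧ ∀ t, t.val < 2 → ∃ i, τ t = .inl i := by
  subst hk
  refine ⟨finSumFinEquiv.symm, finSumFinEquiv.symm.injective, fun t ht => ⟨⟨t, by omega⟩, ?_⟩⟩
  rw [Equiv.symm_apply_eq]
  rfl

section c3b
variable {n μ : ℕ} {Φ : ∀ A : Type, SimpleGraph A → Prop}

theorem c3b_two (hΦ : Fm n Φ) {T : Type} {M : Set T} {S S' : SimpleGraph (RR 0 7)}
    (h : ∀ a b : Fin 7, S.Adj (.inr a) (.inr b) → S'.Adj (.inr (2 * a)) (.inr (2 * b)))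
    (h' : Φ _ (cyc S' M)) : Φ _ (cyc S M) := by
  refine hΦ.le (Sum.map (Sum.map id fun a : Fin 7 => 2 * a) id)
    (Function.Injective.sumMap (Function.Injective.sumMap Function.injective_id (by decide))
      Function.injective_id) ?_ h'
  rintro ((⟨_, ⟨⟩⟩ | a) | p) ((⟨_, ⟨⟩⟩ | b) | q) hx
  · exact h a b hx
  all_goals exact hx

theorem c3b_emb (hΦ : Fm n Φ) {m₁ m₂ k : ℕ} (τ : Fin k → Fin m₁ ⊕ Fin m₂)
    (hτ : Function.Injective τ) {M : Set (TT 0 m₁ m₂)} (hM : ∀ t, t.val < 2 → .inr (τ t) ∈ M)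
    {G : SimpleGraph (YY 0 7 0 m₁ m₂)} (hz : zz False 0 7 0 m₁ m₂ ≤ G)
    (hj : join (Set.range Sum.inr) M ≤ G) (hG : Φ _ G) :
    Φ _ (pk (⊥ : SimpleGraph (Fin 7)) k ⊔ join Set.univ {t | t.val < 2}) := by
  refine hΦ.le (Sum.map Sum.inr (Prod.map (Sum.inr ∘ τ) id))
    (Function.Injective.sumMap Sum.inr_injective
      ((Sum.inr_injective.comp hτ).prodMap Function.injective_id)) ?_ hG
  rintro (a | p) (b | q) (hx | hx)
  · exact hx.elim
  · exact hx.elim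
  · exact hx.elim
  · exact hj ⟨⟨a, rfl⟩, hM _ hx.2⟩
  · exact hx.elim
  · exact hj ⟨⟨b, rfl⟩, hM _ hx.2⟩
  · exact hz ⟨congrArg (Sum.inr ∘ τ) hx.1, ⟨_, rfl⟩, hx.2.2⟩
  · exact hx.elim

/-- ROW C3b: seven points joined to two blocks -/
theorem case3b (hΦ : Fm n Φ) (hT : Test n Φ) (h1 : Φ _ (pk (⊥ : SimpleGraph Empty) (μ + 2)))
    (hn : 7 + 4 * (μ + 2) = n) :
    Φ _ (pk (⊥ : SimpleGraph (Fin 7)) (μ + 2) ⊔ join Set.univ {t | t.val < 2}) := by
  classical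
  by_contra hc
  obtain ⟨m₁, m₂, hm, hs⟩ := split (μ + 2) (r := 7) (Or.inr rfl)
  have hn' : 0 + 7 + 4 * (0 + m₁ + m₂) = n := by omega
  have b1 : ∀ (a : Fin 7) (t : Fin m₁ ⊕ Fin m₂) (v : V), Bad (Φ _) (zz False 0 7 0 m₁ m₂)
      (hh 0 7 0 m₁ m₂) (.inl (.inr a)) (.inr (.inr t, v)) := by
    rintro a (i | i) v G hz hG hx hF
    · have h2 : 2 ≤ m₁ := by omega
      have h7 : Nat.Coprime 7 m₁ := by
        rcases hs with ⟨_, h | h⟩ | h
        · omega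
        · exact h
        · exact h.2.2.1
      obtain ⟨τ, t1, t2⟩ := c3b_tau hm h2
      refine hc (c3b_emb hΦ τ t1 (fun t ht => ?_) hz
        ((orb_R1 (by norm_num) i.pos h7).le hG (by exact ⟨⟨a, rfl⟩, i, rfl⟩) hx) hF)
      obtain ⟨j, hj⟩ := t2 t ht
      exact ⟨j, by rw [hj]⟩
    · have h0 := i.pos
      have h2 : 2 ≤ m₂ := by omega
      have h7 : Nat.Coprime 7 m₂ := by
        rcases hs with ⟨h, _⟩ | h
        · omega
        · exact h.2.2.2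
      obtain ⟨τ, t1, t2⟩ := c3b_tau ((add_comm _ _).trans hm) h2
      refine hc (c3b_emb hΦ (Sum.swap ∘ τ) (Sum.swap_leftInverse.injective.comp t1) (fun t ht => ?_) hz
        ((orb_R2 (by norm_num) i.pos h7).le hG (by exact ⟨⟨a, rfl⟩, i, rfl⟩) hx) hF)
      obtain ⟨j, hj⟩ := t2 t ht
      exact ⟨j, by rw [Function.comp, hj]; rfl⟩
  have key := eval (Φ := Φ (YY 0 7 0 m₁ m₂))
    (fun G G' h => hΦ.le id Function.injective_id fun _ _ hx => h hx) (inv_zz False)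
    (hT False 0 7 0 m₁ m₂ hn' (Or.inl rfl) False.elim)
    (O := fun i : Fin 3 => cyc (circ 0 7 (i.val + 1)) ∅)
    ⟨fun i => orb_circ (by omega) (by omega), ?_, ?_⟩ ?_
  · simp only [chi_succ, chi_zero, zz, c3b_zr, c3b_sup, bot_sup_eq, Fin.val_succ, Fin.val_zero] at key
    have e0 : Φ _ (cyc (⊥ : SimpleGraph (RR 0 7)) (Set.range (Sum.inr : _ → TT 0 m₁ m₂))) := by
      rw [pk_iff hΦ hn', hm, pk_bot hΦ (by omega)]
      exact h1
    have e3 : ¬ Φ _ (cyc (circ 0 7 1 ⊔ circ 0 7 2 ⊔ circ 0 7 3)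
        (Set.range (Sum.inr : _ → TT 0 m₁ m₂))) := fun h => by
      refine hΦ.k4 (hΦ.le (fun i : Fin 4 => Sum.inl (Sum.inr (i.castLE (by norm_num)))) ?_ ?_ h)
      · exact Sum.inl_injective.comp (Sum.inr_injective.comp (Fin.castLE_injective _))
      · intro x y hx
        change (circ 0 7 1 ⊔ circ 0 7 2 ⊔ circ 0 7 3).Adj _ _
        simp only [sup_adj, c3b_adj]
        rw [top_adj] at hx
        revert x y
        decide
    have s : ∀ {S S' : SimpleGraph (RR 0 7)}, (∀ a b : Fin 7, S.Adj (.inr a) (.inr b) →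
        S'.Adj (.inr (2 * a)) (.inr (2 * b))) → Φ _ (cyc S' (Set.range (Sum.inr : _ → TT 0 m₁ m₂))) →
        Φ _ (cyc S (Set.range (Sum.inr : _ → TT 0 m₁ m₂))) := c3b_two hΦ
    have a1 := s (S := circ 0 7 1) (S' := circ 0 7 2) (by simp only [c3b_adj]; decide)
    have a2 := s (S := circ 0 7 2) (S' := circ 0 7 3) (by simp only [c3b_adj]; decide)
    have a3 := s (S := circ 0 7 3) (S' := circ 0 7 1) (by simp only [c3b_adj]; decide)
    have p1 := s (S := circ 0 7 1 ⊔ circ 0 7 2) (S' := circ 0 7 2 ⊔ circ 0 7 3)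
      (by simp only [sup_adj, c3b_adj]; decide)
    have p2 := s (S := circ 0 7 2 ⊔ circ 0 7 3) (S' := circ 0 7 1 ⊔ circ 0 7 3)
      (by simp only [sup_adj, c3b_adj]; decide)
    have p3 := s (S := circ 0 7 1 ⊔ circ 0 7 3) (S' := circ 0 7 1 ⊔ circ 0 7 2)
      (by simp only [sup_adj, c3b_adj]; decide)
    simp only [Nat.reduceAdd, if_pos e0, if_neg e3] at key
    rw [propext (Iff.intro a1 fun h => a2 (a3 h)), propext (Iff.intro (fun h => a1 (a2 h)) a3),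
      propext (Iff.intro p1 fun h => p2 (p3 h)), propext (Iff.intro (fun h => p1 (p2 h)) p3)] at key
    split_ifs at key <;> omega
  · rintro i ((⟨_, ⟨⟩⟩ | a) | p) ((⟨_, ⟨⟩⟩ | b) | q) hx hy
    · exact hy
    · exact hx
    · exact hx
    · exact hx.2.1
  · rintro i j ((⟨_, ⟨⟩⟩ | a) | p) ((⟨_, ⟨⟩⟩ | b) | q) hx hy
    · replace hx := (c3b_adj _ a b).1 hx
      replace hy := (c3b_adj _ a b).1 hy
      revert i j a b
      decide
    · exact hx.elim
    · exact hx.elim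
    · exact hx.2.1.elim
  · rintro ((⟨_, ⟨⟩⟩ | a) | ⟨⟨_, ⟨⟩⟩ | t, v⟩) ((⟨_, ⟨⟩⟩ | b) | ⟨⟨_, ⟨⟩⟩ | t', w⟩) hx
    · refine Or.inr (Or.inl ?_)
      change ∃ i : Fin 3, (circ 0 7 (i.val + 1)).Adj _ _
      simp only [c3b_adj]
      replace hx : a ≠ b := fun h => hx (by rw [h])
      revert a b
      decide
    · exact Or.inr (Or.inr (b1 a t' w))
    · exact Or.inr (Or.inr fun G hz hG h => b1 b t v G hz hG h.symm)
    · by_cases h : t = t'
      · subst h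
        exact (bad_in hΦ _ v w fun h => hx (by rw [h])).imp_right Or.inr
      · exact Or.inr (Or.inr (bad_CC hΦ t t' h v w))

end c3b

end Pool.Agent.MP_257582_lc.H71K
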