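import Pool.Agent.MP_257582_lc.H71K.EVAL
import Pool.Agent.MP_257582_lc.H71K.ORB1
import Pool.Agent.MP_257582_lc.H71K.ORB2
import Pool.Agent.MP_257582_lc.H71K.BAD4
import Pool.Agent.MP_257582_lc.H71K.EXT1
import Pool.Agent.MP_257582_lc.H71K.EXT2
import Pool.Agent.MP_257582_lc.H71K.PAD
import Pool.Agent.MP_257582_lc.H71K.GRP
import Pool.Agent.MP_257582_lc.H71K.Defs

set_option autoImplicit false

namespace Pool.Agent.MP_257582_lc.H71K

open Finset SimpleGraph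

/-- the embedding on fifteen points -/
def c3c_map : RR 2 5 ⊕ Fin 2 × V → Fin 7 ⊕ Fin 2 × V
  | .inl (.inl a) => ![.inl 0, .inr (0, (0, 0))] a
  | .inl (.inr a) => ![.inl 1, .inr (0, (0, 1)), .inl 2, .inr (0, (1, 1)), .inr (0, (1, 0))] a
  | .inr (t, v) =>
    if v = (0, 0) then .inl (![3, 5] t) else if v = (1, 1) then .inl (![4, 6] t)
    else if v = (1, 0) then .inr (1, ![(0, 0), (1, 0)] t) else .inr (1, ![(1, 1), (0, 1)] t)

/-- adjacency in the target -/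
def c3c_adj : Fin 7 ⊕ Fin 2 × V → Fin 7 ⊕ Fin 2 × V → Bool
  | .inl _, .inl _ => false
  | .inr p, .inr q => decide (p.1 = q.1 ∧ p.2.1 + q.2.1 ≠ p.2.2 + q.2.2)
  | _, _ => true

theorem c3c_inj : Function.Injective c3c_map := by decide

theorem c3c_e1 : ∀ a b : Fin 2, a ≠ b →
    c3c_adj (c3c_map (.inl (.inl a))) (c3c_map (.inl (.inl b))) = true := by decide

theorem c3c_e2 : ∀ a b : Fin 5, (a.val + 1) % 5 = b.val ∨ (b.val + 1) % 5 = a.val →
    c3c_adj (c3c_map (.inl (.inr a))) (c3c_map (.inl (.inr b))) = true := by decide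

theorem c3c_e3 : ∀ (t : Fin 2) (v w : V), v.1 + w.1 ≠ v.2 + w.2 →
    c3c_adj (c3c_map (.inr (t, v))) (c3c_map (.inr (t, w))) = true := by decide

/-- the first two blocks -/
def c3c_up (μ : ℕ) : Fin 7 ⊕ Fin 2 × V → Fin 7 ⊕ Fin (μ + 2) × V :=
  Sum.map id (Prod.map (Fin.castLE (Nat.le_add_left 2 μ)) id)

theorem c3c_up_inj (μ : ℕ) : Function.Injective (c3c_up μ) :=
  Sum.map_injective.2 ⟨Function.injective_id,
    (Fin.castLE_injective _).prodMap Function.injective_id⟩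

theorem c3c_up_ne {μ : ℕ} (z : Fin 7 ⊕ Fin 2 × V) {t : Fin (μ + 2)} (ht : ¬ t.val < 2) (v : V) :
    c3c_up μ z ≠ .inr (t, v) := by
  rcases z with a | ⟨s, w⟩
  · exact Sum.inl_ne_inr
  · intro h
    have h1 : s.val = t.val := congrArg Fin.val (Prod.mk.inj (Sum.inr.inj h)).1
    exact ht (h1 ▸ s.isLt)

theorem c3c_up_adj (μ : ℕ) {x y : Fin 7 ⊕ Fin 2 × V} (h : c3c_adj x y = true) :
    (pk (⊥ : SimpleGraph (Fin 7)) (μ + 2) ⊔ join Set.univ {t | t.val < 2}).Adj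
      (c3c_up μ x) (c3c_up μ y) := by
  rcases x with a | p <;> rcases y with b | q
  · exact absurd h (by simp [c3c_adj])
  · exact Or.inr ⟨trivial, q.1.isLt⟩
  · exact Or.inr ⟨trivial, p.1.isLt⟩
  · have h1 := of_decide_eq_true h
    exact Or.inl ⟨congrArg (Fin.castLE (Nat.le_add_left 2 μ)) h1.1, trivial, h1.2⟩

/-- the embedding -/
def c3c_j (μ : ℕ) : RR 2 5 ⊕ Fin (μ + 2) × V → Fin 7 ⊕ Fin (μ + 2) × V
  | .inl a => c3c_up μ (c3c_map (.inl a))
  | .inr p => if h : p.1.val < 2 then c3c_up μ (c3c_map (.inr (⟨p.1.val, h⟩, p.2))) else .inr p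

theorem c3c_j_inj (μ : ℕ) : Function.Injective (c3c_j μ) := by
  rintro (a | ⟨t, v⟩) (b | ⟨s, w⟩) h <;> simp only [c3c_j] at h
  · exact congrArg _ (Sum.inl.inj (c3c_inj (c3c_up_inj μ h)))
  · split_ifs at h with h1
    · exact absurd (c3c_inj (c3c_up_inj μ h)) Sum.inl_ne_inr
    · exact absurd h (c3c_up_ne _ h1 _)
  · split_ifs at h with h1
    · exact absurd (c3c_inj (c3c_up_inj μ h)) Sum.inr_ne_inl
    · exact absurd h.symm (c3c_up_ne _ h1 _)
  · split_ifs at h with h1 h2 h2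
    · have h3 := Prod.mk.inj (Sum.inr.inj (c3c_inj (c3c_up_inj μ h)))
      have h4 : t = s := Fin.ext (Fin.mk.inj h3.1)
      rw [h4, h3.2]
    · exact absurd h (c3c_up_ne _ h2 _)
    · exact absurd h.symm (c3c_up_ne _ h1 _)
    · exact congrArg _ (Sum.inr.inj h)

section cases
variable {n μ : ℕ} {Φ : ∀ A : Type, SimpleGraph A → Prop}

/-- ROW C3c: the embedding of an edge, a pentagon and two four-cycles -/
theorem case3c (hΦ : Fm n Φ)
    (h : Φ _ (pk (⊥ : SimpleGraph (Fin 7)) (μ + 2) ⊔ join Set.univ {t | t.val < 2})) :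
    Φ _ (pk kc (μ + 2)) := by
  refine hΦ.le (c3c_j μ) (c3c_j_inj μ) ?_ h
  rintro ((a | a) | ⟨t, v⟩) ((b | b) | ⟨s, w⟩) hxy
  · rcases hxy with h1 | h1
    · exact c3c_up_adj μ (c3c_e1 a b h1.2)
    · exact (h1.2.elim id id).elim
  · exact (hxy.elim id fun h1 => h1.2.elim id id).elim
  · exact hxy.elim
  · exact (hxy.elim id fun h1 => h1.2.elim id id).elim
  · exact c3c_up_adj μ (c3c_e2 a b (hxy.elim False.elim fun h1 => h1.2))
  · exact hxy.elim
  · exact hxy.elim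
  · exact hxy.elim
  · obtain ⟨h1, -, h2⟩ := hxy
    obtain rfl : t = s := h1
    simp only [c3c_j]
    split_ifs with h3
    · exact c3c_up_adj μ (c3c_e3 _ v w h2)
    · exact Or.inl ⟨rfl, trivial, h2⟩

end cases

end Pool.Agent.MP_257582_lc.H71K
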