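import Pool.Agent.MP_257582_lc.H71K.EVAL
import Pool.Agent.MP_257582_lc.H71K.ORB1
import Pool.Agent.MP_257582_lc.H71K.ORB2
import Pool.Agent.MP_257582_lc.H71K.BAD4
import Pool.Agent.MP_257582_lc.H71K.EXT1
import Pool.Agent.MP_257582_lc.H71K.EXT2
import Pool.Agent.MP_257582_lc.H71K.PAD
import Pool.Agent.MP_257582_lc.H71K.GRP
import Pool.Agent.MP_257582_lc.H71K.Defs

set_option autoImplicit false

namespace Pool.Agent.MP_257582_lc.H71K

open Finset SimpleGraph


section c3d_general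

variable {Y : Type} {Ψ : SimpleGraph Y → Prop} {Z : SimpleGraph Y}

theorem c3d_zero (anti : ∀ G G', G ≤ G' → Ψ G' → Ψ G) {I : Type} [Fintype I]
    (O : I → SimpleGraph Y) (h : ¬ Ψ Z) : chi Ψ Z O = 0 :=
  sum_eq_zero fun _ _ => if_neg fun h' => h (anti _ _ le_sup_left h')

theorem c3d_one (anti : ∀ G G', G ≤ G' → Ψ G' → Ψ G) {I : Type} [Fintype I]
    (O : I → SimpleGraph Y) (h : Ψ Z) (h' : ∀ i, ¬ Ψ (Z ⊔ O i)) : chi Ψ Z O = 1 := by
  unfold chi
  rw [sum_eq_single ∅]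
  · simp [h]
  · intro J _ hJ
    obtain ⟨i, hi⟩ := nonempty_iff_ne_empty.2 hJ
    exact if_neg fun e => h' i (anti _ _ (sup_le_sup_left (le_sup hi) _) e)
  · simp

theorem c3d_le (anti : ∀ G G', G ≤ G' → Ψ G' → Ψ G) {k : ℕ} (hk : k ≤ 2)
    (O : Fin (k + 1) → SimpleGraph Y) : chi Ψ Z O ≤ 1 := by
  obtain rfl | rfl | rfl : k = 0 ∨ k = 1 ∨ k = 2 := by omega
  · rw [chi_succ, chi_zero, chi_zero]; split_ifs <;> omega
  · rw [chi_succ, chi_succ, chi_succ, chi_zero, chi_zero, chi_zero, chi_zero]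
    have := anti (Z ⊔ O 0) (Z ⊔ O 0 ⊔ O (Fin.succ 0)) le_sup_left
    split_ifs <;> first | omega | tauto
  · simp only [chi_succ, chi_zero]
    have h1 := anti (Z ⊔ O 0) (Z ⊔ O 0 ⊔ O (Fin.succ 0)) le_sup_left
    have h2 := anti (Z ⊔ O (Fin.succ 0)) (Z ⊔ O (Fin.succ 0) ⊔ O (Fin.succ (Fin.succ 0)))
      le_sup_left
    have h3 := anti (Z ⊔ O (Fin.succ (Fin.succ 0))) (Z ⊔ O 0 ⊔ O (Fin.succ (Fin.succ 0)))
      (sup_le_sup_right le_sup_left _)
    split_ifs <;> first | omega | tauto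

theorem c3d_cons {k : ℕ} (A : SimpleGraph Y) (O : Fin k → SimpleGraph Y) :
    chi Ψ Z (Matrix.vecCons A O) = chi Ψ Z O - chi Ψ (Z ⊔ A) O := chi_succ Ψ Z _

end c3d_general

theorem c3d_circ {u r d : ℕ} (a b : Fin r) : (circ u r d).Adj (.inr a) (.inr b) ↔
    a ≠ b ∧ ((a.val + d) % r = b.val ∨ (b.val + d) % r = a.val) := by
  simp [circ, fromRel_adj]

theorem c3d_circ' {u r d : ℕ} {x y : RR u r} (h : (circ u r d).Adj x y) :
    ∃ a b, x = .inr a ∧ y = .inr b := by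
  rcases x with a | a <;> rcases y with b | b
  · exact (h.2.elim id id).elim
  · exact (h.2.elim id id).elim
  · exact (h.2.elim id id).elim
  · exact ⟨a, b, rfl, rfl⟩

theorem c3d_cyc {R T : Type} {S : SimpleGraph R} {x y : R ⊕ T × V} (h : (cyc S ∅).Adj x y) :
    ∃ a b, x = .inl a ∧ y = .inl b ∧ S.Adj a b := by
  rcases x with a | a <;> rcases y with b | b
  · exact ⟨a, b, rfl, rfl, h⟩
  · exact h.elim
  · exact h.elim
  · exact h.2.1.elim

theorem c3d_jUR {u r : ℕ} (a : Fin u) (b : Fin r) : (jUR u r).Adj (.inl a) (.inr b) :=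
  ⟨Sum.inl_ne_inr, Or.inl trivial⟩

section cases
variable {n μ : ℕ} {Φ : ∀ A : Type, SimpleGraph A → Prop}

theorem c3d_core (hΦ : Fm n Φ) (hT : Test n Φ) {m₁ m₂ k : ℕ} (hn : 7 + 4 * (m₁ + m₂) = n)
    (hk : k ≤ 2) (M : Fin k → Set (TT 0 m₁ m₂))
    (horb : ∀ i, IsOrb (hh 2 5 0 m₁ m₂) (join (Set.range Sum.inr) (M i)))
    (hne : ∀ i, ∃ t, Sum.inr t ∈ M i) (hdis : ∀ i j t, t ∈ M i → t ∈ M j → i = j)
    (hcov : ∀ t, ∃ i, Sum.inr t ∈ M i) : ¬ Φ _ (pk kc (m₁ + m₂)) := by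
  intro h
  have hn' : 2 + 5 + 4 * (0 + m₁ + m₂) = n := by omega
  rw [← pk_iff (b := 0) hΦ hn'] at h
  have anti : ∀ G G' : SimpleGraph (YY 2 5 0 m₁ m₂), G ≤ G' → Φ _ G' → Φ _ G :=
    fun G G' e => hΦ.le id Function.injective_id fun _ _ a => e a
  have hV := hT True 2 5 0 m₁ m₂ hn' (Or.inr rfl) fun _ => rfl
  have d12 : ∀ a b : Fin 5, (circ 2 5 1).Adj (.inr a) (.inr b) →
      ¬ (circ 2 5 2).Adj (.inr a) (.inr b) := by
    intro a b
    rw [c3d_circ, c3d_circ]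
    revert a b
    decide
  have c12 : ∀ a b : Fin 5, a ≠ b → (circ 2 5 1).Adj (.inr a) (.inr b) ∨
      (circ 2 5 2).Adj (.inr a) (.inr b) := by
    intro a b
    rw [c3d_circ, c3d_circ]
    revert a b
    decide
  have m21 : ∀ a b : Fin 5, (circ 2 5 2).Adj (.inr a) (.inr b) →
      (circ 2 5 1).Adj (.inr (3 * a)) (.inr (3 * b)) := by
    intro a b
    rw [c3d_circ, c3d_circ]
    revert a b
    decide
  let Q : Fin (k + 1) → SimpleGraph (YY 2 5 0 m₁ m₂) :=
    Matrix.vecCons (cyc (jUR 2 5) ∅) fun i => join (Set.range Sum.inr) (M i)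
  have cj : ∀ (S : SimpleGraph (RR 2 5)) (N : Set (TT 0 m₁ m₂)) x y, (cyc S ∅).Adj x y →
      ¬ (join (Set.range Sum.inr) N).Adj x y := by
    intro S N x y e e'
    obtain ⟨a, b, rfl, rfl, _⟩ := c3d_cyc e
    exact e'
  have cq : ∀ d i x y, (cyc (circ 2 5 d) ∅).Adj x y → ¬ (Q i).Adj x y := by
    intro d i x y e
    refine Fin.cases ?_ (fun i => ?_) i
    · obtain ⟨a, b, rfl, rfl, e1⟩ := c3d_cyc e
      obtain ⟨a, b, rfl, rfl⟩ := c3d_circ' e1
      exact fun e' => e'.2.elim id id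
    · exact cj _ _ x y e
  have cc : ∀ x y : YY 2 5 0 m₁ m₂, (cyc (circ 2 5 1) ∅).Adj x y →
      ¬ (cyc (circ 2 5 2) ∅).Adj x y := by
    intro x y e e'
    obtain ⟨a, b, rfl, rfl, e1⟩ := c3d_cyc e
    obtain ⟨a, b, rfl, rfl⟩ := c3d_circ' e1
    exact d12 a b e1 e'
  have cz : ∀ d x y, (cyc (circ 2 5 d) ∅).Adj x y → ¬ (zz True 2 5 0 m₁ m₂).Adj x y := by
    intro d x y e e'
    obtain ⟨a, b, rfl, rfl, e1⟩ := c3d_cyc e
    obtain ⟨a, b, rfl, rfl⟩ := c3d_circ' e1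
    exact e'
  have qo : ∀ i, IsOrb (hh 2 5 0 m₁ m₂) (Q i) := fun i =>
    Fin.cases (orb_UR (by omega)) horb i
  have qz : ∀ i x y, (Q i).Adj x y → ¬ (zz True 2 5 0 m₁ m₂).Adj x y := by
    intro i x y
    refine Fin.cases ?_ (fun i => ?_) i
    · intro e e'
      obtain ⟨a, b, rfl, rfl, e1⟩ := c3d_cyc e
      rcases a with a | a <;> rcases b with b | b
      · exact e1.2.elim id id
      · exact e'
      · exact e'
      · exact e'
    · intro e e'
      rcases x with a | p <;> rcases y with b | q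
      · exact e
      · exact e'
      · exact e'
      · exact e
  have qq : ∀ i j x y, (Q i).Adj x y → (Q j).Adj x y → i = j := by
    intro i j x y
    refine Fin.cases ?_ (fun i => ?_) i <;> refine Fin.cases ?_ (fun j => ?_) j <;> intro e e'
    · rfl
    · exact (cj _ _ x y e e').elim
    · exact (cj _ _ x y e' e).elim
    · congr 1
      rcases x with a | p <;> rcases y with b | q
      · exact e.elim
      · exact hdis _ _ _ e.2 e'.2
      · exact hdis _ _ _ e.2 e'.2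
      · exact e.elim
  have hO : Orbs (hh 2 5 0 m₁ m₂) (zz True 2 5 0 m₁ m₂)
      (Matrix.vecCons (cyc (circ 2 5 1) ∅) (Matrix.vecCons (cyc (circ 2 5 2) ∅) Q)) := by
    refine ⟨fun i => ?_, fun i x y e => ?_, fun i j x y e e' => ?_⟩
    · refine Fin.cases ?_ (fun i => Fin.cases ?_ (fun i => ?_) i) i
      · exact orb_circ (by omega) (by omega)
      · exact orb_circ (by omega) (by omega)
      · exact qo i
    · revert e
      refine Fin.cases ?_ (fun i => Fin.cases ?_ (fun i => ?_) i) i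
      · exact cz _ x y
      · exact cz _ x y
      · exact qz i x y
    · revert e e'
      refine Fin.cases ?_ (fun i => Fin.cases ?_ (fun i => ?_) i) i <;>
        refine Fin.cases ?_ (fun j => Fin.cases ?_ (fun j => ?_) j) j <;> intro e e'
      · rfl
      · exact (cc x y e e').elim
      · exact (cq _ _ x y e e').elim
      · exact (cc x y e' e).elim
      · rfl
      · exact (cq _ _ x y e e').elim
      · exact (cq _ _ x y e' e).elim
      · exact (cq _ _ x y e' e).elim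
      · rw [qq _ _ x y e e']
  have h0 := eval anti (inv_zz True) hV hO (by
    rintro ((a | a) | ⟨t | t, v⟩) ((b | b) | ⟨t' | t', w⟩) e
    all_goals first | exact t.elim0 | exact t'.elim0 | skip
    · exact Or.inl ⟨trivial, fun e' => e (by rw [e'])⟩
    · exact Or.inr (Or.inl ⟨Fin.succ (Fin.succ 0), c3d_jUR a b⟩)
    · exact Or.inr (Or.inr (bad_UC hΦ a t' w))
    · exact Or.inr (Or.inl ⟨Fin.succ (Fin.succ 0), (c3d_jUR b a).symm⟩)
    · rcases c12 a b (fun e' => e (by rw [e'])) with e' | e'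
      · exact Or.inr (Or.inl ⟨0, e'⟩)
      · exact Or.inr (Or.inl ⟨Fin.succ 0, e'⟩)
    · obtain ⟨i, hi⟩ := hcov t'
      exact Or.inr (Or.inl ⟨i.succ.succ.succ, ⟨a, rfl⟩, hi⟩)
    · exact Or.inr (Or.inr fun G g1 g2 g3 => bad_UC hΦ b t v G g1 g2 g3.symm)
    · obtain ⟨i, hi⟩ := hcov t
      exact Or.inr (Or.inl ⟨i.succ.succ.succ, ⟨b, rfl⟩, hi⟩)
    · by_cases et : t = t'
      · subst et
        exact (bad_in hΦ (.inr t) v w fun e' => e (by rw [e'])).imp_right Or.inr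
      · exact Or.inr (Or.inr (bad_CC hΦ t t' et v w)))
  rw [c3d_cons, c3d_cons _ Q, c3d_cons _ Q] at h0
  have kj : ∀ (S : SimpleGraph (RR 2 5)) (a b : Fin 5), S.Adj (.inr a) (.inr b) → ∀ i,
      ¬ Φ _ (zz True 2 5 0 m₁ m₂ ⊔ cyc S ∅ ⊔ Q i) := by
    intro S a b e i
    refine Fin.cases ?_ (fun i => ?_) i
    · intro e'
      refine hΦ.k4 (hΦ.le (![.inl (.inl 0), .inl (.inl 1), .inl (.inr a), .inl (.inr b)] :
        Fin 4 → YY 2 5 0 m₁ m₂) ?_ ?_ e')
      · have hab : a ≠ b := fun e'' => e.ne (by rw [e''])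
        intro i j
        fin_cases i <;> fin_cases j <;> simp [hab, hab.symm]
      · intro i j hij
        fin_cases i <;> fin_cases j
        all_goals first
          | exact (hij.ne rfl).elim
          | exact Or.inl (Or.inl ⟨trivial, by decide⟩)
          | exact Or.inr (c3d_jUR _ _)
          | exact Or.inr (c3d_jUR _ _).symm
          | exact Or.inl (Or.inr e)
          | exact Or.inl (Or.inr e.symm)
    · obtain ⟨t, ht⟩ := hne i
      exact k4_join (lk := True) hΦ (le_sup_left.trans le_sup_left) (x := .inr a) (y := .inr b)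
        (Or.inl (Or.inr e)) t (fun v => Or.inr ⟨⟨a, rfl⟩, ht⟩) fun v => Or.inr ⟨⟨b, rfl⟩, ht⟩
  have p1 : Φ _ (zz True 2 5 0 m₁ m₂ ⊔ cyc (circ 2 5 1) ∅) := by
    refine anti _ _ ?_ h
    rintro x y (e | e)
    · rcases x with a | p <;> rcases y with b | q
      · exact Or.inl e
      · exact e
      · exact e
      · exact e
    · obtain ⟨a, b, rfl, rfl, e1⟩ := c3d_cyc e
      exact Or.inr e1
  have p2 : Φ _ (zz True 2 5 0 m₁ m₂ ⊔ cyc (circ 2 5 2) ∅) := by
    refine hΦ.le (Sum.map (Sum.map id fun a : Fin 5 => 3 * a) id)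
      ((Function.injective_id.sumMap (by decide)).sumMap Function.injective_id) ?_ h
    rintro x y (e | e)
    · rcases x with (a | a) | p <;> rcases y with (b | b) | q
      all_goals first | exact Or.inl e | exact e.elim | exact e
    · obtain ⟨a, b, rfl, rfl, e1⟩ := c3d_cyc e
      obtain ⟨a, b, rfl, rfl⟩ := c3d_circ' e1
      exact Or.inr (m21 a b e1)
  have p3 : ¬ Φ _ (zz True 2 5 0 m₁ m₂ ⊔ cyc (circ 2 5 1) ∅ ⊔ cyc (circ 2 5 2) ∅) := by
    intro e
    refine hΦ.k4 (hΦ.le (fun i : Fin 4 => (.inl (.inr i.castSucc) : YY 2 5 0 m₁ m₂))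
      (fun i j e' => Fin.castSucc_injective _ (Sum.inr.inj (Sum.inl.inj e'))) (fun i j e' => ?_) e)
    rcases c12 _ _ (fun e'' => e'.ne (Fin.castSucc_injective _ e'')) with e'' | e''
    · exact Or.inl (Or.inr e'')
    · exact Or.inr e''
  rw [c3d_one anti _ p1 (kj _ 0 1 (by rw [c3d_circ]; decide)),
    c3d_one anti _ p2 (kj _ 0 2 (by rw [c3d_circ]; decide)), c3d_zero anti _ p3] at h0
  have := c3d_le (Z := zz True 2 5 0 m₁ m₂) anti hk Q
  omega

/-- ROW C3d -/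
theorem case3d (hΦ : Fm n Φ) (hT : Test n Φ) (hn : 7 + 4 * μ = n) : ¬ Φ _ (pk kc μ) := by
  obtain ⟨m₁, m₂, rfl, h⟩ := split μ (r := 5) (Or.inl rfl)
  rcases h with ⟨rfl, h⟩ | ⟨h1, h2, h3, h4⟩
  · rcases Nat.eq_zero_or_pos m₁ with rfl | hm
    · exact c3d_core hΦ hT hn (k := 0) (by omega) Fin.elim0 (fun i => i.elim0) (fun i => i.elim0)
        (fun i => i.elim0) (by rintro (t | t) <;> exact t.elim0)
    · refine c3d_core hΦ hT hn (k := 1) (by omega) (fun _ => g1 0 m₁ 0)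
        (fun _ => orb_R1 (by omega) hm (h.resolve_left hm.ne'))
        (fun _ => ⟨.inl ⟨0, hm⟩, _, rfl⟩) (fun i j _ _ _ => Subsingleton.elim i j) ?_
      rintro (t | t)
      · exact ⟨0, t, rfl⟩
      · exact t.elim0
  · refine c3d_core hΦ hT hn (k := 2) le_rfl ![g1 0 m₁ m₂, g2 0 m₁ m₂] (fun i => ?_) (fun i => ?_)
      (fun i j t e e' => ?_) ?_
    · fin_cases i
      · exact orb_R1 (by omega) (by omega) h3
      · exact orb_R2 (by omega) (by omega) h4
    · fin_cases i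
      · exact ⟨.inl ⟨0, by omega⟩, _, rfl⟩
      · exact ⟨.inr ⟨0, by omega⟩, _, rfl⟩
    · fin_cases i <;> fin_cases j
      · rfl
      · obtain ⟨a, rfl⟩ := e
        obtain ⟨b, e'⟩ := e'
        cases e'
      · obtain ⟨a, rfl⟩ := e
        obtain ⟨b, e'⟩ := e'
        cases e'
      · rfl
    · rintro (t | t)
      · exact ⟨0, t, rfl⟩
      · exact ⟨1, t, rfl⟩

end cases

end Pool.Agent.MP_257582_lc.H71K
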