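import Pool.Agent.MP_257582_lc.H71K.Defs

set_option autoImplicit false

namespace Pool.Agent.MP_257582_lc.H71K

open Finset SimpleGraph

/-- the orbit of a pair -/
def eval_orb {Y : Type} (H : Subgroup (Equiv.Perm Y)) {x y : Y} (h : x ≠ y) : SimpleGraph Y where
  Adj a b := ∃ g ∈ H, s(g x, g y) = s(a, b)
  symm := ⟨fun _ _ ⟨g, hg, e⟩ => ⟨g, hg, e.trans Sym2.eq_swap⟩⟩
  loopless := ⟨fun a ⟨g, _, e⟩ => by
    have : s(g x, g y).IsDiag := by rw [e]; simp
    exact h (g.injective (Sym2.mk_isDiag_iff.1 this))⟩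

theorem eval_isOrb {Y : Type} (H : Subgroup (Equiv.Perm Y)) {x y : Y} (h : x ≠ y) :
    IsOrb H (eval_orb H h) where
  ne := ⟨x, y, 1, H.one_mem, rfl⟩
  inv := fun k hk a b ⟨g, hg, e⟩ => ⟨k * g, H.mul_mem hk hg, congrArg (Sym2.map k) e⟩
  tr := fun a b a' b' ⟨g, hg, e⟩ ⟨g', hg', e'⟩ =>
    ⟨g' * g⁻¹, H.mul_mem hg' (H.inv_mem hg), by
      have := congrArg (Sym2.map (g' * g⁻¹ : Equiv.Perm Y)) e
      rw [Sym2.map_mk, Sym2.map_mk] at this
      rw [← this, ← e']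
      simp⟩

theorem eval_sup {Y I : Type} {H : Subgroup (Equiv.Perm Y)} {O : I → SimpleGraph Y}
    (hO : ∀ i, Inv H (O i)) (A : Finset I) : Inv H (A.sup O) :=
  sup_induction (p := Inv H) (fun _ _ _ _ h => h.elim)
    (fun _ h1 _ h2 g hg x y h => h.imp (h1 g hg x y) (h2 g hg x y)) fun i _ => hO i

/-- only the orbits that are not bad count -/
theorem eval {Y : Type} [Finite Y] {Φ : SimpleGraph Y → Prop} (anti : ∀ G G', G ≤ G' → Φ G' → Φ G)
    {Z : SimpleGraph Y} {H : Subgroup (Equiv.Perm Y)} (hZ : Inv H Z) (hV : Van Φ Z H) {I : Type}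
    [Fintype I] {O : I → SimpleGraph Y} (hO : Orbs H Z O)
    (hb : ∀ x y, x ≠ y → Z.Adj x y ∨ (∃ i, (O i).Adj x y) ∨ Bad Φ Z H x y) : chi Φ Z O = 0 := by
  classical
  have _ := anti
  let J : Type := {G : SimpleGraph Y // IsOrb H G ∧ (∀ x y, G.Adj x y → ¬ Z.Adj x y) ∧
    ∀ i x y, G.Adj x y → ¬ (O i).Adj x y}
  have : Fintype J := Fintype.ofFinite J
  have ho : ∀ k : I ⊕ J, IsOrb H (Sum.elim O Subtype.val k) := by
    rintro (i | j)
    · exact hO.orb i
    · exact j.2.1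
  have h1 := hV (I ⊕ J) (Sum.elim O Subtype.val) ⟨ho, by
    rintro (i | j)
    · exact hO.free i
    · exact j.2.2.1, by
    rintro (i | j) (i' | j') x y h h'
    · exact congrArg _ (hO.disj i i' x y h h')
    · exact absurd h (j'.2.2.2 i x y h')
    · exact absurd h' (j.2.2.2 i' x y h)
    · exact congrArg _ (Subtype.ext (le_antisymm (j.2.1.le j'.2.1.inv h h')
        (j'.2.1.le j.2.1.inv h' h)))⟩ (fun x y hxy => by
    by_cases h1 : Z.Adj x y
    · exact Or.inl h1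
    by_cases h2 : ∃ i, (O i).Adj x y
    · exact Or.inr (h2.elim fun i hi => ⟨.inl i, hi⟩)
    have h3 : (eval_orb H hxy).Adj x y := ⟨1, H.one_mem, rfl⟩
    exact Or.inr ⟨.inr ⟨eval_orb H hxy, eval_isOrb H hxy,
      fun a b h h' => h1 ((eval_isOrb H hxy).le hZ h h' h3),
      fun i a b h h' => h2 ⟨i, (eval_isOrb H hxy).le (hO.orb i).inv h h' h3⟩⟩, h3⟩)
  rw [← h1]
  unfold chi
  refine sum_of_injOn (fun A : Finset I => A.map Function.Embedding.inl)
    (fun A _ B _ h => map_injective _ h) (fun _ _ => by simp) (fun A _ hA => if_neg ?_)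
    fun A _ => ?_
  · have h2 : ∃ j : J, Sum.inr j ∈ A := by
      by_contra hc
      refine hA ⟨A.toLeft, by simp, ?_⟩
      ext (i | j)
      · simp
      · simpa using fun h => hc ⟨j, h⟩
    obtain ⟨j, hj⟩ := h2
    obtain ⟨x, y, hxy⟩ := j.2.1.ne
    have hs := eval_sup (fun k => (ho k).inv) A
    exact (((hb x y hxy.ne).resolve_left (j.2.2.1 x y hxy)).resolve_left
      fun ⟨i, hi⟩ => j.2.2.2 i x y hxy hi) _ le_sup_left
      (fun g hg a b h => h.imp (hZ g hg a b) (hs g hg a b))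
      (Or.inr (le_sup (f := Sum.elim O (Subtype.val : J → SimpleGraph Y)) hj hxy))
  · rw [sup_map, card_map]
    rfl

end Pool.Agent.MP_257582_lc.H71K
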