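import Pool.Agent.MP_257582_lc.H71K.C0
import Pool.Agent.MP_257582_lc.H71K.C1a
import Pool.Agent.MP_257582_lc.H71K.C1b
import Pool.Agent.MP_257582_lc.H71K.C1c
import Pool.Agent.MP_257582_lc.H71K.C3a
import Pool.Agent.MP_257582_lc.H71K.C3b
import Pool.Agent.MP_257582_lc.H71K.C3c
import Pool.Agent.MP_257582_lc.H71K.C3d
import Pool.Agent.MP_257582_lc.H71K.PAD
import Pool.Agent.MP_257582_lc.H71K.Defs

set_option autoImplicit false

namespace Pool.Agent.MP_257582_lc.H71K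

open Finset SimpleGraph

section cases
variable {n μ : ℕ} {Φ : ∀ A : Type, SimpleGraph A → Prop}

lemma fin_mono (hΦ : Fm n Φ) {k l : ℕ} (h : k ≤ l) (h1 : Φ _ (pk (⊥ : SimpleGraph Empty) l)) :
    Φ _ (pk (⊥ : SimpleGraph Empty) k) := by
  refine hΦ.le (Sum.map id (Prod.map (Fin.castLE h) id)) (Function.injective_id.sumMap
    ((Fin.castLE_injective h).prodMap Function.injective_id)) ?_ h1
  rintro (a | p) (a' | q) e
  · exact a.elim
  · exact a.elim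
  · exact a'.elim
  · exact ⟨congrArg (Fin.castLE h) e.1, trivial, e.2.2⟩

theorem fin (hΦ : Fm n Φ) (hT : Test n Φ) (h3 : n ≠ 3) (h7 : n ≠ 7) (h11 : n ≠ 11) (h2 : 2 ≤ n) :
    False := by
  classical
  have hb : ∀ k, Φ _ (pk (⊥ : SimpleGraph Empty) k) → 4 * k ≤ n := fun k h => by
    have := hΦ.card h
    simp only [Nat.card_sum, Nat.card_prod, Nat.card_fin, Nat.card_zmod, Nat.card_of_isEmpty] at this
    omega
  have h0 : Φ _ (pk (⊥ : SimpleGraph Empty) 0) :=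
    hΦ.pad (A := Empty) Empty.elim (fun a => a.elim) (by simp) (by
      rintro (a | p) _ _
      · exact a.elim
      · exact p.1.elim0) hΦ.bot
  have hex : ∃ k, ¬ Φ _ (pk (⊥ : SimpleGraph Empty) (k + 1)) :=
    ⟨n, fun h => by have := hb _ h; omega⟩
  obtain ⟨μ, hx, h1⟩ : ∃ μ, ¬ Φ _ (pk (⊥ : SimpleGraph Empty) (μ + 1)) ∧
      Φ _ (pk (⊥ : SimpleGraph Empty) μ) := by
    refine ⟨Nat.find hex, Nat.find_spec hex, ?_⟩
    cases h : Nat.find hex with
    | zero => exact h0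
    | succ k => exact not_not.1 (Nat.find_min hex (h ▸ Nat.lt_succ_self k))
  have h4 := hb μ h1
  obtain ⟨b, hb⟩ : ∃ b, 4 * (b + μ) = n ∨ 5 + 4 * (b + μ) = n ∨ 1 + 4 * μ = n ∨
      2 + 4 * (b + μ) = n ∨ 7 + 4 * (b + μ) = n ∨ 3 + 4 * μ = n := by
    by_cases k : n % 2 = 0
    · exact ⟨n / 4 - μ, by omega⟩
    · exact ⟨n / 4 - μ - 1, by omega⟩
  rcases hb with e | e | e | e | e | e
  · exact case0 hΦ hT h1 hx e
  · exact case1a hΦ hT h1 hx e
  · obtain ⟨k, rfl⟩ : ∃ k, μ = k + 1 := ⟨μ - 1, by omega⟩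
    exact case1c hΦ hT (μ := k) (by omega) (case1b hΦ hT h1 (by omega))
  · exact case2a hΦ hT hx e (case2b hΦ hT h1 hx e)
  · exact case3a hΦ hT h1 hx e
  · obtain ⟨k, rfl⟩ : ∃ k, μ = k + 3 := ⟨μ - 3, by omega⟩
    exact case3d hΦ hT (μ := k + 2) (by omega)
      (case3c hΦ (case3b hΦ hT (fin_mono hΦ (by omega) h1) (by omega)))

end cases

end Pool.Agent.MP_257582_lc.H71K
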