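import Pool.Agent.MP_257582_lc.H71K.Defs

set_option autoImplicit false

namespace Pool.Agent.MP_257582_lc.H71K

open Finset SimpleGraph

/-- subgraphs of members -/
def Sub {n : ℕ} (f : SimpleGraph (Fin n) → Prop) (A : Type) (S : SimpleGraph A) : Prop :=
  ∃ G, f G ∧ ∃ j : A → Fin n, Function.Injective j ∧ ∀ x y, S.Adj x y → G.Adj (j x) (j y)

theorem fm_sub {n d : ℕ} {f : SimpleGraph (Fin n) → Prop} (hf : Setup n d f)
    (h4 : ∀ G, f G → G.CliqueFree 4) : Fm n (Sub f) where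
  le := fun j hj h ⟨G, hG, i, hi, a⟩ => ⟨G, hG, i ∘ j, hi.comp hj, fun x y e => a _ _ (h x y e)⟩
  pad := fun {A B} _ _ _ j hj hn h ⟨G, hG, i, hi, a⟩ => by
    have := Finite.of_injective j hj
    have := Fintype.ofFinite B
    obtain ⟨k⟩ : Nonempty (B ↪ Fin n) := Function.Embedding.nonempty_of_card_le (by
      rwa [Fintype.card_fin, ← Nat.card_eq_fintype_card])
    obtain ⟨σ, hσ⟩ := Equiv.Perm.exists_extending_pair (k ∘ j) i (k.injective.comp hj) hi
    refine ⟨G, hG, σ ∘ k, σ.injective.comp k.injective, fun u v e => ?_⟩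
    obtain ⟨x, y, e', rfl, rfl⟩ := h u v e
    have := a x y e'
    rwa [← hσ x, ← hσ y] at this
  k4 := fun ⟨G, hG, i, hi, a⟩ => h4 G hG (univ.map ⟨i, hi⟩) ⟨fun u hu v hv e => by
    obtain ⟨x, -, rfl⟩ := mem_map.1 (mem_coe.1 hu)
    obtain ⟨y, -, rfl⟩ := mem_map.1 (mem_coe.1 hv)
    exact a x y fun e' => e (congrArg i e'), by simp⟩
  bot := ⟨⊥, hf.bot, Empty.elim, fun x => x.elim, fun x => x.elim⟩
  card := fun ⟨_, _, i, hi, _⟩ => by simpa using Nat.card_le_card_of_injective i hi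

theorem sub_iff {n d : ℕ} {f : SimpleGraph (Fin n) → Prop} (hf : Setup n d f) {Y : Type} [Finite Y]
    (hY : Nat.card Y = n) (G : SimpleGraph Y) : Sub f Y G ↔ InG f G := by
  refine ⟨fun ⟨H, hH, i, hi, a⟩ => ⟨Equiv.ofBijective i ((Nat.bijective_iff_injective_and_card i).2
    ⟨hi, by simpa using hY⟩), hf.anti _ _ (fun u v h => ?_) hH⟩,
    fun ⟨e, he⟩ => ⟨_, he, e, e.injective, fun x y h => ?_⟩⟩
  · obtain ⟨x, y, h', rfl, rfl⟩ := (map_adj _ _ _ _).1 h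
    exact a x y h'
  · exact (map_adj _ _ _ _).2 ⟨x, y, h, rfl, rfl⟩

end Pool.Agent.MP_257582_lc.H71K
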