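import Pool.Agent.MP_257582_lc.H71K.Defs

/-! Three twists isolate the four-cycles. -/

set_option autoImplicit false

namespace Pool.Agent.MP_257582_lc.H71K

open Finset SimpleGraph

section isoaux

variable {Y : Type} {Φ : SimpleGraph Y → Prop}

theorem iso_equiv (Z : SimpleGraph Y) {I I' : Type} [Fintype I] [Fintype I'] (e : I' ≃ I)
    (O : I → SimpleGraph Y) : chi Φ Z (fun i => O (e i)) = chi Φ Z O := by
  classical
  unfold chi
  refine Fintype.sum_equiv e.finsetCongr _ _ fun J => ?_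
  rw [Equiv.finsetCongr_apply, sup_map, card_map]
  rfl

theorem iso_opt (Z A : SimpleGraph Y) {I : Type} [Fintype I] (O : I → SimpleGraph Y) :
    chi Φ Z (fun o : Option I => o.elim A O) = chi Φ Z O - chi Φ (Z ⊔ A) O := by
  classical
  have h0 : (none : Option I) ∉ (univ : Finset I).map Function.Embedding.some := by simp
  have k1 : ∀ F : Finset (Option I) → ℤ,
      ∑ J ∈ ((univ : Finset I).map Function.Embedding.some).powerset, F J =
        ∑ J : Finset I, F (J.map Function.Embedding.some) := fun F => by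
    refine (sum_bij (fun J _ => J.map Function.Embedding.some) (fun J _ => ?_)
      (fun J _ J' _ h => ?_) (fun J hJ => ?_) fun _ _ => rfl).symm
    · exact mem_powerset.2 (map_subset_map.2 (subset_univ _))
    · exact map_injective _ h
    · obtain ⟨J', _, rfl⟩ := subset_map_iff.1 (mem_powerset.1 hJ)
      exact ⟨J', mem_univ _, rfl⟩
  have hu : (univ : Finset (Option I)) = insert none (univ.map Function.Embedding.some) := by
    ext o
    cases o <;> simp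
  unfold chi
  rw [← powerset_univ, hu, sum_powerset_insert h0, k1, k1, sub_eq_add_neg, ← sum_neg_distrib]
  congr 1
  · refine sum_congr rfl fun J _ => ?_
    rw [sup_map, card_map]
    rfl
  · refine sum_congr rfl fun J _ => ?_
    rw [sup_insert, card_insert_of_notMem (by simp), sup_map, card_map, ← sup_assoc, pow_succ]
    change (if Φ (Z ⊔ A ⊔ J.sup O) then _ else _) = _
    split_ifs <;> simp

theorem iso_orbs {H : Subgroup (Equiv.Perm Y)} {Z A : SimpleGraph Y} {I : Type}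
    {O : I → SimpleGraph Y} (h : Orbs H Z O) (hA : IsOrb H A) (h1 : ∀ x y, A.Adj x y → ¬ Z.Adj x y)
    (h2 : ∀ i x y, (O i).Adj x y → ¬ A.Adj x y) : Orbs H Z fun o : Option I => o.elim A O where
  orb := by
    rintro (_ | i)
    · exact hA
    · exact h.orb i
  free := by
    rintro (_ | i)
    · exact h1
    · exact h.free i
  disj := by
    rintro (_ | i) (_ | j) x y a b
    · rfl
    · exact absurd a (h2 j x y b)
    · exact absurd b (h2 i x y a)
    · exact congrArg some (h.disj i j x y a b)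

theorem iso_congr {W W' : SimpleGraph Y} {I : Type} [Fintype I] {O : I → SimpleGraph Y}
    (h : ∀ J : Finset I, Φ (W ⊔ J.sup O) ↔ Φ (W' ⊔ J.sup O)) : chi Φ W O = chi Φ W' O := by
  classical
  unfold chi
  exact sum_congr rfl fun J _ => if_congr (h J) rfl rfl

theorem iso_dead {W : SimpleGraph Y} {I : Type} [Fintype I] {O : I → SimpleGraph Y}
    (h : ∀ J : Finset I, ¬ Φ (W ⊔ J.sup O)) : chi Φ W O = 0 := by
  classical
  unfold chi
  exact sum_eq_zero fun J _ => if_neg (h J)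

theorem iso_sup {H : Subgroup (Equiv.Perm Y)} {I : Type} {O : I → SimpleGraph Y}
    (h : ∀ i, Inv H (O i)) (J : Finset I) : Inv H (J.sup O) := by
  classical
  induction J using Finset.induction_on with
  | empty => exact fun _ _ _ _ a => a.elim
  | insert i J _ ih =>
    rw [sup_insert]
    exact fun g hg x y a => a.imp (h i g hg x y) (ih g hg x y)

end isoaux

theorem iso {Y : Type} [Finite Y] {Φ : SimpleGraph Y → Prop}
    (hΦ : ∀ (β : Equiv.Perm Y) G G', (∀ x y, G.Adj x y → G'.Adj (β x) (β y)) → Φ G' → Φ G)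
    {Z : SimpleGraph Y} {C : Fin 3 → SimpleGraph Y} {H0 H1 H2 : Subgroup (Equiv.Perm Y)}
    (o2 : Orbs H2 Z C) (o1 : IsOrb H1 (C 0)) (o1' : IsOrb H1 (C 1 ⊔ C 2))
    (o0 : IsOrb H0 (C 0 ⊔ C 1 ⊔ C 2))
    (t0 : ∀ O, IsOrb H2 O → (∀ i x y, O.Adj x y → ¬ (C i).Adj x y) → IsOrb H0 O)
    (t1 : ∀ O, IsOrb H2 O → (∀ i x y, O.Adj x y → ¬ (C i).Adj x y) → IsOrb H1 O)
    (z0 : Inv H0 Z) {β : Equiv.Perm Y} (hβ : β ∈ H0)
    (b : ∀ i x y, (C i).Adj x y → (C (i + 1)).Adj (β x) (β y))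
    (dead : ¬ Φ (C 0 ⊔ C 1 ⊔ C 2)) (v0 : Van Φ Z H0) (v1 : Van Φ Z H1) (v2 : Van Φ Z H2) :
    Van Φ (Z ⊔ C 1 ⊔ C 2) H2 := by
  classical
  intro I _ O hO hc
  have dj : ∀ i j : Fin 3, i ≠ j → ∀ x y, (C i).Adj x y → ¬ (C j).Adj x y :=
    fun i j hij x y a a' => hij (o2.disj i j x y a a')
  obtain ⟨i0, e0⟩ : ∃ i0, O i0 = C 0 := by
    obtain ⟨x, y, a⟩ := (o2.orb 0).ne
    rcases hc x y a.ne with ((h | h) | h) | ⟨i, h⟩
    · exact absurd h (o2.free 0 x y a)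
    · exact absurd h (dj 0 1 (by decide) x y a)
    · exact absurd h (dj 0 2 (by decide) x y a)
    · exact ⟨i, le_antisymm ((hO.orb i).le (o2.orb 0).inv h a) ((o2.orb 0).le (hO.orb i).inv a h)⟩
  let P : {i // i ≠ i0} → SimpleGraph Y := fun i => O i.1
  have pC : ∀ i k x y, (P i).Adj x y → ¬ (C k).Adj x y := fun i k x y a a' => by
    have h12 := hO.free i.1 x y a
    have h3 : k = 0 ∨ k = 1 ∨ k = 2 := by omega
    rcases h3 with rfl | rfl | rfl
    · exact i.2 (hO.disj _ _ x y a (e0.symm ▸ a'))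
    · exact h12 (Or.inl (Or.inr a'))
    · exact h12 (Or.inr a')
  have pO : ∀ H : Subgroup (Equiv.Perm Y), (∀ i, IsOrb H (P i)) → Orbs H Z P := fun H h =>
    ⟨h, fun i x y a a' => hO.free i.1 x y a (Or.inl (Or.inl a')),
      fun i j x y a a' => Subtype.ext (hO.disj _ _ x y a a')⟩
  have p0 : ∀ i, IsOrb H0 (P i) := fun i => t0 _ (hO.orb i.1) (pC i)
  have p1 : ∀ i, IsOrb H1 (P i) := fun i => t1 _ (hO.orb i.1) (pC i)
  have cov : ∀ x y, x ≠ y → Z.Adj x y ∨ (C 0).Adj x y ∨ (C 1).Adj x y ∨ (C 2).Adj x y ∨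
      ∃ i, (P i).Adj x y := fun x y hxy => by
    rcases hc x y hxy with ((h | h) | h) | ⟨i, h⟩
    · exact Or.inl h
    · exact Or.inr (Or.inr (Or.inl h))
    · exact Or.inr (Or.inr (Or.inr (Or.inl h)))
    · by_cases hi : i = i0
      · exact Or.inr (Or.inl (e0 ▸ hi ▸ h))
      · exact Or.inr (Or.inr (Or.inr (Or.inr ⟨⟨i, hi⟩, h⟩)))
  have dd : ∀ W : SimpleGraph Y, C 0 ≤ W → C 1 ≤ W → C 2 ≤ W → chi Φ W P = 0 :=
    fun W a0 a1 a2 => iso_dead fun J h => dead (hΦ 1 _ _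
      (fun x y a => Or.inl ((sup_le (sup_le a0 a1) a2) a)) h)
  have mv : ∀ X X' : SimpleGraph Y, (∀ x y, X.Adj x y → X'.Adj (β x) (β y)) → ∀ J : Finset _,
      Φ (X' ⊔ J.sup P) → Φ (X ⊔ J.sup P) := fun X X' h J => hΦ β _ _ fun x y a =>
    a.imp (h x y) (iso_sup (fun i => (p0 i).inv) J β hβ x y)
  have m1 : ∀ i j : Fin 3, j = i + 1 → ∀ J : Finset _,
      Φ (Z ⊔ C j ⊔ J.sup P) → Φ (Z ⊔ C i ⊔ J.sup P) := fun i j hj =>
    mv _ _ fun x y a => a.imp (z0 β hβ x y) (hj ▸ b i x y)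
  have m2 : ∀ i j i' j' : Fin 3, (i' = i + 1 ∧ j' = j + 1) ∨ (i' = j + 1 ∧ j' = i + 1) →
      ∀ J : Finset _, Φ (Z ⊔ C i' ⊔ C j' ⊔ J.sup P) → Φ (Z ⊔ C i ⊔ C j ⊔ J.sup P) :=
    fun i j i' j' h => mv _ _ fun x y a => by
      rcases h with ⟨rfl, rfl⟩ | ⟨rfl, rfl⟩
      · exact a.imp (Or.imp (z0 β hβ x y) (b i x y)) (b j x y)
      · rcases a with (a | a) | a
        · exact Or.inl (Or.inl (z0 β hβ x y a))
        · exact Or.inr (b i x y a)
        · exact Or.inl (Or.inr (b j x y a))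
  have s1 : chi Φ (Z ⊔ C 1) P = chi Φ (Z ⊔ C 0) P := iso_congr fun J =>
    ⟨m1 0 1 rfl J, fun h => m1 1 2 rfl J (m1 2 0 rfl J h)⟩
  have s2 : chi Φ (Z ⊔ C 2) P = chi Φ (Z ⊔ C 0) P := iso_congr fun J =>
    ⟨fun h => m1 0 1 rfl J (m1 1 2 rfl J h), m1 2 0 rfl J⟩
  have n01 := m2 0 1 1 2 (Or.inl ⟨rfl, rfl⟩)
  have n12 := m2 1 2 0 2 (Or.inr ⟨rfl, rfl⟩)
  have n02 := m2 0 2 0 1 (Or.inr ⟨rfl, rfl⟩)
  have s3 : chi Φ (Z ⊔ C 0 ⊔ C 1) P = chi Φ (Z ⊔ C 1 ⊔ C 2) P := iso_congr fun J =>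
    ⟨fun h => n12 J (n02 J h), n01 J⟩
  have s4 : chi Φ (Z ⊔ C 0 ⊔ C 2) P = chi Φ (Z ⊔ C 1 ⊔ C 2) P := iso_congr fun J =>
    ⟨n12 J, fun h => n02 J (n01 J h)⟩
  have w0 := v0 _ _ (iso_orbs (pO H0 p0) o0
    (fun x y a => a.elim (fun a => a.elim (o2.free 0 x y) (o2.free 1 x y)) (o2.free 2 x y))
    (fun i x y a a' => a'.elim (fun a' => a'.elim (pC i 0 x y a) (pC i 1 x y a)) (pC i 2 x y a)))
    fun x y hxy => by
      rcases cov x y hxy with h | h | h | h | ⟨i, h⟩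
      · exact Or.inl h
      · exact Or.inr ⟨none, Or.inl (Or.inl h)⟩
      · exact Or.inr ⟨none, Or.inl (Or.inr h)⟩
      · exact Or.inr ⟨none, Or.inr h⟩
      · exact Or.inr ⟨some i, h⟩
  have w1 := v1 _ _ (iso_orbs (iso_orbs (pO H1 p1) o1'
    (fun x y a => a.elim (o2.free 1 x y) (o2.free 2 x y))
    (fun i x y a a' => a'.elim (pC i 1 x y a) (pC i 2 x y a))) o1 (o2.free 0) (by
      rintro (_ | i) x y a
      · exact a.elim (dj 1 0 (by decide) x y) (dj 2 0 (by decide) x y)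
      · exact pC i 0 x y a))
    fun x y hxy => by
      rcases cov x y hxy with h | h | h | h | ⟨i, h⟩
      · exact Or.inl h
      · exact Or.inr ⟨none, h⟩
      · exact Or.inr ⟨some none, Or.inl h⟩
      · exact Or.inr ⟨some none, Or.inr h⟩
      · exact Or.inr ⟨some (some i), h⟩
  have w2 := v2 _ _ (iso_orbs (iso_orbs (iso_orbs (pO H2 fun i => hO.orb i.1) (o2.orb 2)
    (o2.free 2) (fun i => pC i 2)) (o2.orb 1) (o2.free 1) (by
      rintro (_ | i) x y a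
      · exact dj 2 1 (by decide) x y a
      · exact pC i 1 x y a)) (o2.orb 0) (o2.free 0) (by
      rintro (_ | _ | i) x y a
      · exact dj 1 0 (by decide) x y a
      · exact dj 2 0 (by decide) x y a
      · exact pC i 0 x y a))
    fun x y hxy => by
      rcases cov x y hxy with h | h | h | h | ⟨i, h⟩
      · exact Or.inl h
      · exact Or.inr ⟨none, h⟩
      · exact Or.inr ⟨some none, h⟩
      · exact Or.inr ⟨some (some none), h⟩
      · exact Or.inr ⟨some (some (some i)), h⟩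
  simp only [iso_opt] at w0 w1 w2
  have d0 := dd (Z ⊔ (C 0 ⊔ C 1 ⊔ C 2)) (fun _ _ a => Or.inr (Or.inl (Or.inl a)))
    (fun _ _ a => Or.inr (Or.inl (Or.inr a))) fun _ _ a => Or.inr (Or.inr a)
  have d1 := dd (Z ⊔ C 0 ⊔ (C 1 ⊔ C 2)) (fun _ _ a => Or.inl (Or.inr a))
    (fun _ _ a => Or.inr (Or.inl a)) fun _ _ a => Or.inr (Or.inr a)
  have d2 := dd (Z ⊔ C 0 ⊔ C 1 ⊔ C 2) (fun _ _ a => Or.inl (Or.inl (Or.inr a)))
    (fun _ _ a => Or.inl (Or.inr a)) fun _ _ a => Or.inr a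
  have d3 := dd (Z ⊔ C 1 ⊔ C 2 ⊔ C 0) (fun _ _ a => Or.inr a)
    (fun _ _ a => Or.inl (Or.inl (Or.inr a))) fun _ _ a => Or.inl (Or.inr a)
  rw [← sup_assoc Z (C 1) (C 2)] at w1
  have e1 : (fun i => O (Equiv.optionSubtypeNe i0 i)) = fun o : Option {i // i ≠ i0} =>
      o.elim (C 0) P := by
    funext o
    cases o with
    | none => exact e0
    | some i => rfl
  rw [← iso_equiv _ (Equiv.optionSubtypeNe i0) O, e1, iso_opt]
  omega

end Pool.Agent.MP_257582_lc.H71K
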