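import Pool.Agent.MP_257582_lc.H71K.SG
import Pool.Agent.MP_257582_lc.H71K.GRP
import Pool.Agent.MP_257582_lc.H71K.FM
import Pool.Agent.MP_257582_lc.H71K.Defs

set_option autoImplicit false

namespace Pool.Agent.MP_257582_lc.H71K

open Finset SimpleGraph


lemma t0_adj {lk : Prop} {u r : ℕ} {T : Type} {x y : RR u r ⊕ T × V}
    (h : (cyc (zr lk u r) (∅ : Set T)).Adj x y) :
    ∃ i j : Fin u, x = .inl (.inl i) ∧ y = .inl (.inl j) ∧ lk ∧ i ≠ j := by
  rcases x with (x | x) | x <;> rcases y with (y | y) | y <;>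
    first | exact ⟨_, _, rfl, rfl, h.1, h.2⟩ | exact h.elim | exact h.2.1.elim

theorem test0 {n : ℕ} {f : SimpleGraph (Fin n) → Prop} (hn : 3 ≤ n)
    (hf : Setup n (n.choose 2 - 1) f) {a b : Fin n} (hab : a ≠ b)
    (hA : H52K.Ac f {s(a, b)} (n.choose 2 - 2)) : Test0 n (Sub f) := by
  intro lk u r k m₁ m₂ A hsum hu hlk
  classical
  have h3 : 3 ≤ n.choose 2 := Nat.choose_le_choose 2 hn
  have hY : Nat.card (YY u r k m₁ m₂) = n := by
    simp only [Nat.card_sum, Nat.card_prod, Nat.card_fin, Nat.card_zmod]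
    omega
  have hS : Sub f (YY u r k m₁ m₂) = InG f := funext fun G => propext (sub_iff hf hY G)
  rw [hS]
  obtain ⟨φ, h0, hadd, hn', hH⟩ := grp_shape (s := sU u r) (ρ := rR u r)
    (Equiv.ext fun x => by
      rcases x with x | x
      · rcases hu with rfl | rfl
        · exact x.elim0
        · exact congrArg Sum.inl ((by decide : ∀ x : Fin 2, finRotate 2 (finRotate 2 x) = x) x)
      · rfl)
    (Equiv.ext fun x => by rcases x with x | x <;> rfl) (sT k m₁ m₂) A
  have hZ : Inv (grp (sU u r) (rR u r) (sT k m₁ m₂) A) (cyc (zr lk u r) ∅) :=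
    inv_grp (fun c x y h => by
        obtain ⟨i, j, rfl, rfl, h1, h2⟩ := t0_adj h
        exact ⟨h1, h2⟩)
      (fun x y h => by
        obtain ⟨i, j, rfl, rfl, h1, h2⟩ := t0_adj h
        exact ⟨h1, (finRotate u).injective.ne h2⟩)
      fun x y h => by
        obtain ⟨i, j, rfl, rfl, h1, h2⟩ := t0_adj h
        exact ⟨h1, h2⟩
  obtain ⟨e0⟩ : Nonempty (YY u r k m₁ m₂ ≃ Fin n) := Finite.card_eq.1 (hY.trans (Nat.card_fin n).symm)
  by_cases hl : lk
  · obtain rfl := hlk hl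
    have two : ∀ i j : Fin 2, i ≠ j → (i = 0 ∧ j = 1) ∨ (i = 1 ∧ j = 0) := by decide
    obtain ⟨ρ, hρ⟩ := Equiv.Perm.exists_extending_pair _ (fun i : Fin 2 => if i = 0 then a else b)
      (e0.injective.comp (Sum.inl_injective.comp Sum.inl_injective)) (fun i j h => by_contra fun h' => by
        rcases two i j h' with ⟨rfl, rfl⟩ | ⟨rfl, rfl⟩
        · exact hab h
        · exact hab h.symm)
    have e1 : (e0.trans ρ) (.inl (.inl 0)) = a := hρ 0
    have e2 : (e0.trans ρ) (.inl (.inl 1)) = b := hρ 1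
    have hc := H52K.card_free (cyc (zr lk 2 r) (∅ : Set (TT k m₁ m₂)))
      {s(.inl (.inl 0), .inl (.inl 1))} fun x y h => by
        obtain ⟨i, j, rfl, rfl, _, h2⟩ := t0_adj h
        rcases two i j h2 with ⟨rfl, rfl⟩ | ⟨rfl, rfl⟩
        · exact mem_singleton_self _
        · exact mem_singleton.2 Sym2.eq_swap
    rw [hY, card_singleton] at hc
    refine sg hf (e0.trans ρ) _ hA (fun x y _ => ?_)
      (lt_of_lt_of_le (by omega : n.choose 2 - 2 < n.choose 2 - 1) (Nat.sub_le_of_le_add hc))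
      h0 hadd hn' hH hZ
    rw [mem_singleton, ← e1, ← e2, Sym2.eq_iff]
    simp only [(e0.trans ρ).injective.eq_iff]
    refine ⟨?_, fun h => ?_⟩
    · rintro (⟨rfl, rfl⟩ | ⟨rfl, rfl⟩)
      · exact ⟨hl, by decide⟩
      · exact ⟨hl, by decide⟩
    · obtain ⟨i, j, rfl, rfl, _, h2⟩ := t0_adj h
      rcases two i j h2 with ⟨rfl, rfl⟩ | ⟨rfl, rfl⟩
      · exact Or.inl ⟨rfl, rfl⟩
      · exact Or.inr ⟨rfl, rfl⟩
  · have hE : ∀ x y, ¬ (cyc (zr lk u r) (∅ : Set (TT k m₁ m₂))).Adj x y := fun x y h => by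
      obtain ⟨_, _, _, _, h1, _⟩ := t0_adj h
      exact hl h1
    have hc := H52K.card_free (cyc (zr lk u r) (∅ : Set (TT k m₁ m₂))) ∅ fun x y h => absurd h (hE x y)
    rw [hY, card_empty] at hc
    exact sg hf e0 _ (B := ∅) (c := n.choose 2 - 1) (fun W _ _ j q hq hd => hf.acyc _ W j ∅ q hq hd)
      (fun x y _ => iff_of_false (notMem_empty _) (hE x y))
      (lt_of_lt_of_le (by omega : n.choose 2 - 1 < n.choose 2) hc) h0 hadd hn' hH hZ

end Pool.Agent.MP_257582_lc.H71K
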