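import Pool.Agent.MP_257582_lc.H71K.STEP
import Pool.Agent.MP_257582_lc.H71K.GRP
import Pool.Agent.MP_257582_lc.H71K.Defs

set_option autoImplicit false

namespace Pool.Agent.MP_257582_lc.H71K

open Finset SimpleGraph


/-- one more rotated group of blocks, possibly empty, for all twists that are trivial there -/
theorem T1_step {R T : Type} [Finite R] [Finite T] [DecidableEq T]
    {Φ : SimpleGraph (R ⊕ T × V) → Prop}
    (hΦ : ∀ (β : Equiv.Perm (R ⊕ T × V)) G G', (∀ x y, G.Adj x y → G'.Adj (β x) (β y)) → Φ G' → Φ G)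
    (k4 : ∀ G, Φ G → G.CliqueFree 4) {s ρ : Equiv.Perm R} {σ : Equiv.Perm T}
    {S : SimpleGraph R} (hs : ∀ x y, S.Adj x y → S.Adj (s x) (s y))
    (hρ : ∀ x y, S.Adj x y → S.Adj (ρ x) (ρ y)) {M : Set T} (hM : ∀ t, σ t ∈ M ↔ t ∈ M)
    {m : ℕ} {ι : Fin m → T} (hι : Function.Injective ι) (hσ : ∀ i, σ (ι i) = ι (finRotate _ i))
    (hd : ∀ i, ι i ∉ M)
    (hV : ∀ A : T → V ≃+ V, (∀ t ∈ M, A t = AddEquiv.refl V) → Van Φ (cyc S M) (grp s ρ σ A))
    (A : T → V ≃+ V) (hA : ∀ t ∈ M ∪ Set.range ι, A t = AddEquiv.refl V) :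
    Van Φ (cyc S (M ∪ Set.range ι)) (grp s ρ σ A) := by
  cases m with
  | zero =>
    rw [Set.range_eq_empty, Set.union_empty] at *
    exact hV A hA
  | succ m =>
    refine step hΦ k4 hs hρ hM (fun t ht => hA t (Or.inl ht)) hι hσ hd
      (fun i => hA _ (Or.inr ⟨i, rfl⟩)) fun B => hV _ fun t ht => ?_
    rw [Function.update_of_ne fun h : t = ι (Fin.last m) => hd _ (h ▸ ht)]
    exact hA t (Or.inl ht)

/-- ROW T1 (step twice; empty groups need no step) -/
theorem test1 {n : ℕ} {Φ : ∀ A : Type, SimpleGraph A → Prop} (hΦ : Fm n Φ) (h : Test0 n Φ) :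
    Test n Φ := by
  intro lk u r b m₁ m₂ hn hu hl
  have h1 : ∀ (β : Equiv.Perm (YY u r b m₁ m₂)) (G G' : SimpleGraph (YY u r b m₁ m₂)),
      (∀ x y, G.Adj x y → G'.Adj (β x) (β y)) → Φ _ G' → Φ _ G :=
    fun β _ _ e k => hΦ.le β β.injective e k
  have k4 : ∀ G : SimpleGraph (YY u r b m₁ m₂), Φ _ G → G.CliqueFree 4 := fun G k =>
    by_contra fun e => hΦ.k4 (hΦ.le (topEmbeddingOfNotCliqueFree e)
      (topEmbeddingOfNotCliqueFree e).injective
      (fun _ _ k => (topEmbeddingOfNotCliqueFree e).map_rel_iff.2 k) k)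
  have hs : ∀ x y, (zr lk u r).Adj x y → (zr lk u r).Adj (sU u r x) (sU u r y) := by
    rintro (x | x) (y | y) e
    · exact ⟨e.1, fun k => e.2 ((finRotate u).injective k)⟩
    all_goals exact e
  have hρ : ∀ x y, (zr lk u r).Adj x y → (zr lk u r).Adj (rR u r x) (rR u r y) := by
    rintro (x | x) (y | y) e <;> exact e
  have s1 := T1_step (σ := sT b m₁ m₂) (M := ∅) (ι := fun i => Sum.inr (Sum.inl i)) h1 k4 hs hρ
    (fun _ => Iff.rfl) (Sum.inr_injective.comp Sum.inl_injective) (fun _ => rfl)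
    (fun _ e => e) fun A _ => h lk u r b m₁ m₂ A hn hu hl
  have s2 := T1_step (ι := fun i => Sum.inr (Sum.inr i)) h1 k4 hs hρ (by
      rintro (t | t | t) <;> simp [sT]) (Sum.inr_injective.comp Sum.inr_injective) (fun _ => rfl)
    (by simp) s1 (Sum.elim (fun _ => om) fun _ => AddEquiv.refl V) (by
      rintro (t | t) e
      · simp at e
      · rfl)
  have e : (∅ ∪ Set.range fun i => Sum.inr (Sum.inl i)) ∪ (Set.range fun i => Sum.inr (Sum.inr i)) =
      Set.range (Sum.inr : _ → TT b m₁ m₂) := by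
    ext (t | t | t) <;> simp
  rw [e] at s2
  exact s2

end Pool.Agent.MP_257582_lc.H71K
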