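import Pool.Agent.MP_257582_lc.H71K.FIN
import Pool.Agent.MP_257582_lc.H71K.T0
import Pool.Agent.MP_257582_lc.H71K.T1
import Pool.Agent.MP_257582_lc.H71K.FM

/-! Families of graphs without a clique on four vertices are evasive. -/

set_option autoImplicit false

namespace Pool.Agent.MP_257582_lc.H71K

open Finset SimpleGraph

theorem main {n : ℕ} (hn : 3 ≤ n) (P : SimpleGraph (Fin n) → Prop)
    (hmono : ∀ G H : SimpleGraph (Fin n), G ≤ H → P G → P H)
    (hinv : ∀ (σ : Fin n ≃ Fin n) (G : SimpleGraph (Fin n)), P G → P (G.map σ.toEmbedding))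
    (h1 : ∃ G : SimpleGraph (Fin n), P G) (h2 : ∃ G : SimpleGraph (Fin n), ¬ P G)
    (h4 : ∀ G : SimpleGraph (Fin n), ¬ P G → G.CliqueFree 4)
    (s : Finset (Sym2 (Fin n)) → SimpleGraph (Fin n) → Sym2 (Fin n))
    (hs : ∀ (Q : Finset (Sym2 (Fin n))) (G H : SimpleGraph (Fin n)),
      (∀ e ∈ Q, (e ∈ G.edgeSet ↔ e ∈ H.edgeSet)) → s Q G = s Q H)
    (h : ¬ ∃ G H : SimpleGraph (Fin n),
      (∀ e ∈ (fun Q : Finset (Sym2 (Fin n)) => insert (s Q G) Q)^[n.choose 2 - 1]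
        (∅ : Finset (Sym2 (Fin n))), (e ∈ G.edgeSet ↔ e ∈ H.edgeSet)) ∧ P G ∧ ¬ P H) : False := by
  have hf := setup_of_strategy P hmono hinv h1 h2 s hs h
  have h3 : 3 ≤ n.choose 2 := Nat.choose_le_choose 2 hn
  by_cases hp : n.Prime
  · exact H52K.prime_case hf (by omega) hp
  obtain ⟨a, b, hab, hA⟩ := H52K.link hn P hmono s hs h
  have hΦ := fm_sub hf h4
  exact fin hΦ (test1 hΦ (test0 hn hf hab hA)) (fun e => hp (e ▸ Nat.prime_three))
    (fun e => hp (e ▸ Nat.prime_seven)) (fun e => hp (e ▸ Nat.prime_eleven)) (by omega)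

end Pool.Agent.MP_257582_lc.H71K
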