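import Pool.Agent.MP_257582_lc.H71K.GRP
import Pool.Agent.MP_257582_lc.H71K.Defs

/-! Orbits without pairs inside a twisted block do not depend on the twists. -/

set_option autoImplicit false

namespace Pool.Agent.MP_257582_lc.H71K

open Finset SimpleGraph

/-- the two points are not in one block of `M` -/
def outGood {R T : Type} (M : Set T) (x y : R ⊕ T × V) : Prop :=
  ∀ t ∈ M, ∀ v w, x = .inr (t, v) → y = .inr (t, w) → False

theorem out_tl_inl {R T : Type} (c : T → V) (a : R) : tl c (.inl a : R ⊕ T × V) = .inl a := rfl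

theorem out_tl_inr {R T : Type} (c : T → V) (t : T) (v : V) :
    tl c (.inr (t, v) : R ⊕ T × V) = .inr (t, v + c t) := rfl

theorem out_gen_inl {R T : Type} (ρ : Equiv.Perm R) (σ : Equiv.Perm T) (A : T → V ≃+ V) (a : R) :
    gen ρ σ A (.inl a) = .inl (ρ a) := rfl

theorem out_gen_inr {R T : Type} (ρ : Equiv.Perm R) (σ : Equiv.Perm T) (A : T → V ≃+ V) (t : T)
    (v : V) : gen ρ σ A (.inr (t, v)) = .inr (σ t, A t v) := rfl

theorem out_key {R T : Type} [Finite R] [Finite T] {s ρ : Equiv.Perm R} {σ : Equiv.Perm T}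
    {A A' : T → V ≃+ V} {M : Set T} (hM : ∀ t, σ t ∈ M ↔ t ∈ M) (hA : ∀ t, t ∉ M → A t = A' t)
    {g : Equiv.Perm (R ⊕ T × V)} (hg : g ∈ grp s ρ σ A) : ∀ x y, outGood M x y →
      outGood M (g x) (g y) ∧ ∃ g' ∈ grp s ρ σ A', g' x = g x ∧ g' y = g y := by
  classical
  have m1 : ∀ c, tl c ∈ grp s ρ σ A' := fun c => Subgroup.subset_closure (Or.inl ⟨c, rfl⟩)
  have m2 : Equiv.sumCongr s (Equiv.refl _) ∈ grp s ρ σ A' :=
    Subgroup.subset_closure (Or.inr (Or.inl rfl))
  have m3 : gen ρ σ A' ∈ grp s ρ σ A' := Subgroup.subset_closure (Or.inr (Or.inr rfl))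
  let P : Equiv.Perm (R ⊕ T × V) → Prop := fun g => ∀ x y, outGood M x y →
    outGood M (g x) (g y) ∧ ∃ g' ∈ grp s ρ σ A', g' x = g x ∧ g' y = g y
  have p1 : P 1 := fun x y h => ⟨h, 1, one_mem _, rfl, rfl⟩
  have p2 : ∀ a b, P a → P b → P (a * b) := fun a b ha hb x y h => by
    obtain ⟨h1, b', hb', e1, e2⟩ := hb x y h
    obtain ⟨h2, a', ha', e3, e4⟩ := ha _ _ h1
    exact ⟨h2, a' * b', mul_mem ha' hb', by
      rw [Equiv.Perm.mul_apply, Equiv.Perm.mul_apply, e1, e3], by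
      rw [Equiv.Perm.mul_apply, Equiv.Perm.mul_apply, e2, e4]⟩
  have p3 : ∀ a, P a → ∀ k : ℕ, P (a ^ k) := fun a ha k => by
    induction k with
    | zero => rw [pow_zero]; exact p1
    | succ k ih => rw [pow_succ]; exact p2 _ _ ih ha
  change P g
  refine Subgroup.closure_induction (p := fun g _ => P g) ?_ p1 (fun a b _ _ => p2 a b)
    (fun a _ ha => ?_) hg
  · rintro _ (⟨c, rfl⟩ | rfl | rfl) x y h
    · refine ⟨fun t ht v w e1 e2 => ?_, _, m1 c, rfl, rfl⟩
      rcases x with a | ⟨t1, v1⟩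
      · exact Sum.inl_ne_inr e1
      rcases y with a | ⟨t2, v2⟩
      · exact Sum.inl_ne_inr e2
      have f1 : t1 = t := congrArg Prod.fst (Sum.inr_injective e1)
      have f2 : t2 = t := congrArg Prod.fst (Sum.inr_injective e2)
      exact h t ht v1 v2 (by rw [f1]) (by rw [f2])
    · refine ⟨fun t ht v w e1 e2 => ?_, _, m2, rfl, rfl⟩
      rcases x with a | ⟨t1, v1⟩
      · exact Sum.inl_ne_inr e1
      rcases y with a | ⟨t2, v2⟩
      · exact Sum.inl_ne_inr e2
      exact h t ht v w e1 e2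
    · refine ⟨fun t ht v w e1 e2 => ?_, ?_⟩
      · rcases x with a | ⟨t1, v1⟩
        · exact Sum.inl_ne_inr e1
        rcases y with a | ⟨t2, v2⟩
        · exact Sum.inl_ne_inr e2
        have f1 : σ t1 = t := congrArg Prod.fst (Sum.inr_injective e1)
        have f2 : σ t2 = t := congrArg Prod.fst (Sum.inr_injective e2)
        have f3 : t2 = t1 := σ.injective (f2.trans f1.symm)
        exact h t1 ((hM t1).1 (f1 ▸ ht)) v1 v2 rfl (by rw [f3])
      · rcases x with a | ⟨t1, v1⟩ <;> rcases y with b | ⟨t2, v2⟩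
        · exact ⟨_, m3, rfl, rfl⟩
        · refine ⟨tl (fun _ => A t2 v2 - A' t2 v2) * gen ρ σ A', mul_mem (m1 _) m3, rfl, ?_⟩
          rw [Equiv.Perm.mul_apply, out_gen_inr, out_gen_inr, out_tl_inr, add_sub_cancel]
        · refine ⟨tl (fun _ => A t1 v1 - A' t1 v1) * gen ρ σ A', mul_mem (m1 _) m3, ?_, rfl⟩
          rw [Equiv.Perm.mul_apply, out_gen_inr, out_gen_inr, out_tl_inr, add_sub_cancel]
        · by_cases e : t2 = t1
          · subst e
            have : A t2 = A' t2 := hA t2 fun ht => h t2 ht v1 v2 rfl rfl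
            exact ⟨_, m3, by rw [out_gen_inr, out_gen_inr, this],
              by rw [out_gen_inr, out_gen_inr, this]⟩
          · refine ⟨tl (fun t => if t = σ t1 then A t1 v1 - A' t1 v1 else A t2 v2 - A' t2 v2) *
              gen ρ σ A', mul_mem (m1 _) m3, ?_, ?_⟩
            · rw [Equiv.Perm.mul_apply, out_gen_inr, out_gen_inr, out_tl_inr, if_pos rfl,
                add_sub_cancel]
            · rw [Equiv.Perm.mul_apply, out_gen_inr, out_gen_inr, out_tl_inr,
                if_neg fun h' => e (σ.injective h'), add_sub_cancel]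
  · have e : a⁻¹ = a ^ (orderOf a - 1) := by
      refine inv_eq_of_mul_eq_one_left ?_
      rw [← pow_succ, Nat.sub_add_cancel (orderOf_pos a), pow_orderOf_eq_one]
    rw [e]
    exact p3 a ha _

/-- ROW OUT: orbits without pairs inside a block do not depend on the twists -/
theorem out_orb {R T : Type} [Finite R] [Finite T] {s ρ : Equiv.Perm R} {σ : Equiv.Perm T}
    {A A' : T → V ≃+ V} {M : Set T} (hM : ∀ t, σ t ∈ M ↔ t ∈ M) (hA : ∀ t, t ∉ M → A t = A' t)
    {O : SimpleGraph (R ⊕ T × V)} (hO : IsOrb (grp s ρ σ A) O)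
    (h : ∀ t ∈ M, ∀ v w, ¬ O.Adj (.inr (t, v)) (.inr (t, w))) : IsOrb (grp s ρ σ A') O := by
  have good : ∀ x y, O.Adj x y → outGood M x y := fun x y a t ht v w e1 e2 =>
    h t ht v w (e1 ▸ e2 ▸ a)
  refine ⟨hO.ne, fun g hg x y a => ?_, fun x y x' y' a a' => ?_⟩
  · obtain ⟨_, g', hg', e1, e2⟩ := out_key hM (fun t ht => (hA t ht).symm) hg x y (good x y a)
    rw [← e1, ← e2]
    exact hO.inv g' hg' x y a
  · obtain ⟨g, hg, e⟩ := hO.tr x y x' y' a a'
    obtain ⟨_, g', hg', e1, e2⟩ := out_key hM hA hg x y (good x y a)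
    exact ⟨g', hg', by rw [e1, e2, e]⟩

end Pool.Agent.MP_257582_lc.H71K
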