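import Pool.Agent.MP_257582_lc.H71K.Defs

/-! The theorem of Oliver with signs, for a list of orbits. -/

set_option autoImplicit false

namespace Pool.Agent.MP_257582_lc.H71K

open Finset SimpleGraph
open Pool.Agent.MP_257582_lc.H99 (aut acyc_rat)
open Pool.Agent.MP_257582_lc.H52K (Ac aut_iff)

open Classical in
theorem face_sign {V : Type} [Fintype V] [DecidableEq V] {κ : Type} [Fintype κ] [DecidableEq κ]
    {p : ℕ} [Fact p.Prime] {K : Set (Finset V)} {φ : (κ → ZMod p) → Equiv.Perm V} (h0 : φ 0 = 1)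
    (hadd : ∀ a b, φ (a + b) = φ a * φ b) (hlow : IsLowerSet K)
    (hK : ∀ a σ, σ.map (φ a).toEmbedding ∈ K ↔ σ ∈ K)
    {r : V → ℕ} (hr : Function.Injective r) (hA : Acyc (ZMod p) r K) {g : Equiv.Perm V}
    (hg : ∀ σ, σ.map g.toEmbedding ∈ K ↔ σ ∈ K) (hn : ∀ a, ∃ b, g * φ a = φ b * g)
    {ι : Type} [Fintype ι] (O : ι → Finset V) (o1 : ∀ i, (O i).Nonempty)
    (o2 : ∀ i j, ∀ v ∈ O i, v ∈ O j → i = j) (o3 : ∀ i, ∀ v ∈ O i, (∀ a, φ a v ∈ O i) ∧ g v ∈ O i)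
    (o4 : ∀ i (σ : Finset V), (∀ v ∈ σ, (∀ a, φ a v ∈ σ) ∧ g v ∈ σ) → ∀ v ∈ O i, v ∈ σ → O i ⊆ σ)
    (o5 : ∀ σ ∈ K, (∀ v ∈ σ, (∀ a, φ a v ∈ σ) ∧ g v ∈ σ) → ∀ v ∈ σ, ∃ i, v ∈ O i) :
    ∑ A : Finset ι with A.biUnion O ∈ K, (-1 : ℤ) ^ #A = 0 := by
  have hn' : ∀ j a, ∃ b, g ^ j * φ a = φ b * g ^ j := fun j => by
    induction j with
    | zero => exact fun a => ⟨a, by simp⟩
    | succ j ih =>
      intro a
      obtain ⟨b, hb⟩ := hn a
      obtain ⟨c, hc⟩ := ih b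
      exact ⟨c, by rw [pow_succ, mul_assoc, hb, ← mul_assoc, hc, mul_assoc]⟩
  let H : Submonoid (Equiv.Perm V) :=
    { carrier := {h | ∃ a, ∃ j : ℕ, h = φ a * g ^ j}
      one_mem' := ⟨0, 0, by simp [h0]⟩
      mul_mem' := by
        rintro _ _ ⟨a, j, rfl⟩ ⟨b, l, rfl⟩
        obtain ⟨c, hc⟩ := hn' j b
        exact ⟨a + c, j + l, by
          rw [hadd, pow_add, mul_assoc, ← mul_assoc (g ^ j), hc]; simp only [mul_assoc]⟩ }
  let s : Setoid V := ⟨fun x y => ∃ h ∈ H, h x = y, fun x => ⟨1, H.one_mem, rfl⟩, by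
    rintro x _ ⟨h, hh, rfl⟩
    refine ⟨h ^ (orderOf h - 1), H.pow_mem hh _, ?_⟩
    rw [← Equiv.Perm.mul_apply, ← pow_succ, Nat.sub_add_cancel (orderOf_pos h), pow_orderOf_eq_one]
    rfl, by
    rintro x _ _ ⟨h, hh, rfl⟩ ⟨h', hh', rfl⟩
    exact ⟨h' * h, H.mul_mem hh' hh, rfl⟩⟩
  have e1 : ∀ a x, Quotient.mk s (φ a x) = Quotient.mk s x := fun a x =>
    Eq.symm (Quotient.sound ⟨φ a, ⟨a, 0, by simp⟩, rfl⟩)
  have e2 : ∀ x, Quotient.mk s (g x) = Quotient.mk s x := fun x =>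
    Eq.symm (Quotient.sound ⟨g, ⟨0, 1, by simp [h0]⟩, rfl⟩)
  obtain ⟨s0, hs0⟩ := exists_rank (Quotient (relS φ h0 hadd univ))
  obtain ⟨g', q'', a1, a2, a3, a4, _, a6⟩ := exists_induced (g := g) (K := K)
    (q := Quotient.mk (relS φ h0 hadd univ)) (q' := Quotient.mk s) Quotient.mk_surjective
    Quotient.mk_surjective hg
    (fun x y h => by
      obtain ⟨a, _, rfl⟩ := Quotient.exact h
      obtain ⟨b, hb⟩ := hn a
      refine Quotient.sound ⟨b, fun i hi => absurd (mem_univ i) hi, ?_⟩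
      rw [← Equiv.Perm.mul_apply, ← hb]; rfl)
    (fun x y h => by
      obtain ⟨a, _, rfl⟩ := Quotient.exact h
      exact (e1 a x).symm) e2
    (fun x y h => by
      obtain ⟨_, ⟨a, j, rfl⟩, rfl⟩ := Quotient.exact h
      exact ⟨j, Quotient.sound ⟨a, fun i hi => absurd (mem_univ i) hi, rfl⟩⟩)
  have hE := lefschetz_quo hs0 a1 (quo_lower _ hlow) a2 a3 a4 (acyc_rat hs0 (quo_lower _ hlow)
    (acyc_relS h0 hadd hlow hK hr hA univ s0 hs0))
  rw [a6, ← sum_filter] at hE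
  have hZ : ∑ A ∈ univ.filter (· ∈ quo (Quotient.mk s) K), (-1 : ℤ) ^ A.card = 0 := by
    exact_mod_cast hE
  choose w hw using o1
  have cl : ∀ σ : Finset V, (∀ v ∈ σ, (∀ a, φ a v ∈ σ) ∧ g v ∈ σ) → ∀ x ∈ σ, ∀ y,
      Quotient.mk s x = Quotient.mk s y → y ∈ σ := fun σ hσ x hx y e => by
    have k : ∀ j, ∀ v ∈ σ, (g ^ j) v ∈ σ := fun j => by
      induction j with
      | zero => exact fun v hv => hv
      | succ j ih => exact fun v hv => by rw [pow_succ]; exact ih _ (hσ v hv).2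
    obtain ⟨_, ⟨a, j, rfl⟩, rfl⟩ := Quotient.exact e
    exact (hσ _ (k j x hx)).1 a
  have iv : ∀ B : Finset (Quotient s), ∀ v ∈ univ.filter (fun x => Quotient.mk s x ∈ B),
      (∀ a, φ a v ∈ univ.filter (fun x => Quotient.mk s x ∈ B)) ∧
        g v ∈ univ.filter (fun x => Quotient.mk s x ∈ B) := fun B v hv => by
    simp only [mem_filter, mem_univ, true_and, e1, e2] at hv ⊢
    exact ⟨fun _ => hv, hv⟩
  have m1 : ∀ i x, x ∈ O i ↔ Quotient.mk s (w i) = Quotient.mk s x := fun i x =>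
    ⟨fun h => (mem_singleton.1 (mem_filter.1 (o4 i _ (iv {Quotient.mk s (w i)}) _ (hw i)
      (mem_filter.2 ⟨mem_univ _, mem_singleton_self _⟩) h)).2).symm, cl _ (o3 i) _ (hw i) x⟩
  have inj : Function.Injective fun i => Quotient.mk s (w i) := fun i j e =>
    o2 i j _ ((m1 i _).2 e) (hw j)
  have m2 : ∀ A : Finset ι, (univ.filter fun x => Quotient.mk s x ∈
      A.image fun i => Quotient.mk s (w i)) = A.biUnion O := fun A => by
    ext x
    simp only [mem_filter, mem_univ, true_and, mem_image, mem_biUnion, m1]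
  rw [← hZ]
  refine sum_bij (fun A _ => A.image fun i => Quotient.mk s (w i)) (fun A hA => ?_)
    (fun A _ B _ e => image_injective inj e) (fun B hB => ?_)
    fun A _ => by rw [card_image_of_injective _ inj]
  · refine mem_filter.2 ⟨mem_univ _, ?_⟩
    change _ ∈ K
    rw [m2]
    exact (mem_filter.1 hA).2
  · have hB' : (univ.filter fun x => Quotient.mk s x ∈ B) ∈ K := (mem_filter.1 hB).2
    have e : ((univ.filter fun i => Quotient.mk s (w i) ∈ B).image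
        fun i => Quotient.mk s (w i)) = B := by
      ext ω
      obtain ⟨x, rfl⟩ := Quotient.mk_surjective ω
      rw [mem_image]
      refine ⟨fun ⟨i, h, e⟩ => e ▸ (mem_filter.1 h).2, fun h => ?_⟩
      obtain ⟨i, hi⟩ := o5 _ hB' (iv B) x (mem_filter.2 ⟨mem_univ _, h⟩)
      exact ⟨i, mem_filter.2 ⟨mem_univ _, ((m1 i x).1 hi).symm ▸ h⟩, (m1 i x).1 hi⟩
    exact ⟨_, mem_filter.2 ⟨mem_univ _, by rw [← m2, e]; exact hB'⟩, e⟩

/-- `Z` together with the atoms from `A` -/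
def un {Y ι : Type} (Z : SimpleGraph Y) (O : ι → SimpleGraph Y) (A : Finset ι) : SimpleGraph Y where
  Adj x y := Z.Adj x y ∨ ∃ i ∈ A, (O i).Adj x y
  symm := ⟨fun _ _ h => h.imp (fun h => h.symm) fun ⟨i, h1, h2⟩ => ⟨i, h1, h2.symm⟩⟩
  loopless := ⟨fun _ h => h.elim (fun h => h.ne rfl) fun ⟨_, _, h⟩ => h.ne rfl⟩

open Classical in
theorem signZ {n d : ℕ} {f : SimpleGraph (Fin n) → Prop} (hf : Setup n d f) {Y : Type} [Finite Y]
    (e : Y ≃ Fin n) (Z : SimpleGraph Y) {B : Finset (Sym2 (Fin n))} {c : ℕ} (hA : Ac f B c)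
    (hB : ∀ x y, x ≠ y → (s(e x, e y) ∈ B ↔ Z.Adj x y))
    (hc : c < Nat.card {v : Sym2 Y // ¬ v.IsDiag ∧ v ∉ Z.edgeSet}) {κ : Type} [Fintype κ]
    {φ : (κ → ZMod 2) → Equiv.Perm Y} (h0 : φ 0 = 1) (hadd : ∀ a b, φ (a + b) = φ a * φ b)
    {g : Equiv.Perm Y} (hn : ∀ a, ∃ b, g * φ a = φ b * g) (z1 : ∀ a, φ a ∈ aut Z) (z2 : g ∈ aut Z)
    {ι : Type} [Fintype ι] (O : ι → SimpleGraph Y) (o1 : ∀ i, ∃ x y, (O i).Adj x y)
    (o2 : ∀ i j x y, (O i).Adj x y → (O j).Adj x y → i = j)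
    (o0 : ∀ i x y, (O i).Adj x y → ¬ Z.Adj x y)
    (o3 : ∀ i, (∀ a, φ a ∈ aut (O i)) ∧ g ∈ aut (O i))
    (o4 : ∀ i (G : SimpleGraph Y), (∀ a, φ a ∈ aut G) → g ∈ aut G → ∀ x y, (O i).Adj x y →
      G.Adj x y → O i ≤ G)
    (o5 : ∀ G : SimpleGraph Y, (∀ a, φ a ∈ aut G) → g ∈ aut G → Z ≤ G → InG f G → ∀ x y,
      G.Adj x y → Z.Adj x y ∨ ∃ i, (O i).Adj x y) :
    ∑ A : Finset ι with InG f (un Z O A), (-1 : ℤ) ^ #A = 0 := by
  have := Fintype.ofFinite Y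
  have : Fact (Nat.Prime 2) := ⟨Nat.prime_two⟩
  let a : Equiv.Perm Y →* Equiv.Perm (Sym2 Y) :=
    { toFun := fun σ => ⟨Sym2.map σ, Sym2.map σ.symm, fun v => by simp [Sym2.map_map],
        fun v => by simp [Sym2.map_map]⟩
      map_one' := Equiv.ext fun v => by simp
      map_mul' := fun σ τ => Equiv.ext fun v => by simp [Sym2.map_map] }
  have aa : ∀ σ x y, a σ s(x, y) = s(σ x, σ y) := fun _ _ _ => rfl
  let K : Set (Finset (Sym2 Y)) :=
    {A | (∀ x y, s(x, y) ∈ A → x ≠ y ∧ ¬ Z.Adj x y) ∧ InG f (Z ⊔ fromEdgeSet A)}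
  have hK : ∀ σ ∈ aut Z, ∀ A : Finset _, A.map (a σ).toEmbedding ∈ K ↔ A ∈ K := fun σ hσ A => by
    have k : ∀ x y, s(σ x, σ y) ∈ A.map (a σ).toEmbedding ↔ s(x, y) ∈ A := fun x y =>
      mem_map' (a σ).toEmbedding (a := s(x, y))
    have k2 : ∀ x y, (Z ⊔ fromEdgeSet (A.map (a σ).toEmbedding)).Adj (σ x) (σ y) ↔
        (Z ⊔ fromEdgeSet A).Adj x y := fun x y => by
      simp only [sup_adj, fromEdgeSet_adj, mem_coe, k, aut_iff hσ, σ.injective.ne_iff]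
    refine and_congr ⟨fun h x y hxy => ?_, fun h x y hxy => ?_⟩
      ⟨inG_of_le hf σ fun x y => (k2 x y).2, inG_of_le hf σ.symm fun x y hxy => (k2 _ _).1 ?_⟩
    · have := h _ _ ((k x y).2 hxy)
      rwa [aut_iff hσ, σ.injective.ne_iff] at this
    · obtain ⟨x, rfl⟩ := σ.surjective x
      obtain ⟨y, rfl⟩ := σ.surjective y
      rw [aut_iff hσ, σ.injective.ne_iff]
      exact h _ _ ((k x y).1 hxy)
    · rwa [Equiv.apply_symm_apply, Equiv.apply_symm_apply]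
  obtain ⟨r, hr⟩ := exists_rank (Sym2 Y)
  have hA' : Acyc (ZMod 2) r K := by
    let m : Sym2 Y ↪ Sym2 (Fin n) := ⟨Sym2.map e, Sym2.map.injective e.injective⟩
    let i : {v : Sym2 Y // ¬ v.IsDiag ∧ v ∉ Z.edgeSet} ↪ Sym2 Y := Function.Embedding.subtype _
    have hr' := hr.comp i.injective
    have h1 := (acyc_map_iff hr' hr i _).1
      (hA _ (i.trans m) _ hr' (by rwa [← Nat.card_eq_fintype_card]))
    have k : ∀ σ : Finset {v : Sym2 Y // ¬ v.IsDiag ∧ v ∉ Z.edgeSet},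
        f (fromEdgeSet ((B ∪ σ.map (i.trans m) : Finset (Sym2 (Fin n))) : Set (Sym2 (Fin n)))) ↔
          InG f (Z ⊔ fromEdgeSet (σ.map i)) := fun σ => by
      rw [inG_iff hf _ e, ← Finset.map_map]
      refine iff_of_eq (congrArg f ?_)
      ext u v
      obtain ⟨x, rfl⟩ := e.surjective u
      obtain ⟨y, rfl⟩ := e.surjective v
      refine Iff.trans ?_ (map_adj_apply (G := Z ⊔ fromEdgeSet (σ.map i)) (f := e.toEmbedding)
        (a := x) (b := y)).symm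
      have h2 : s(e x, e y) ∈ (σ.map i).map m ↔ s(x, y) ∈ σ.map i := mem_map' m (a := s(x, y))
      rw [fromEdgeSet_adj, sup_adj, fromEdgeSet_adj, mem_coe, mem_coe, mem_union, h2,
        e.injective.ne_iff]
      exact ⟨fun h => h.1.imp (hB x y h.2).1 fun h' => ⟨h', h.2⟩, fun h => h.elim
        (fun h => ⟨Or.inl ((hB x y h.ne).2 h), h.ne⟩) fun h => ⟨Or.inr h.1, h.2⟩⟩
    refine (congrArg (Acyc (ZMod 2) r) ?_).mp h1
    ext A
    constructor
    · rintro ⟨σ, h2, rfl⟩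
      refine ⟨fun x y hxy => ?_, (k σ).1 h2⟩
      obtain ⟨v, _, hv⟩ := mem_map.1 hxy
      have h3 := v.2
      rw [show v.1 = s(x, y) from hv] at h3
      exact ⟨fun h => h3.1 (Sym2.mk_isDiag_iff.2 h), h3.2⟩
    · rintro ⟨h2, h3⟩
      have h4 : (A.subtype fun v => ¬ v.IsDiag ∧ v ∉ Z.edgeSet).map i = A :=
        subtype_map_of_mem fun v => Sym2.ind (fun x y hv =>
          ⟨fun h => (h2 x y hv).1 (Sym2.mk_isDiag_iff.1 h), (h2 x y hv).2⟩) v
      exact ⟨_, (k _).2 (h4.symm ▸ h3), h4⟩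
  have mo : ∀ i x y, s(x, y) ∈ (univ.filter (· ∈ (O i).edgeSet) : Finset (Sym2 Y)) ↔
      (O i).Adj x y := fun i x y => by rw [mem_filter, mem_edgeSet, and_iff_right (mem_univ _)]
  have au : ∀ (σ : Finset (Sym2 Y)) (π : Equiv.Perm Y), (∀ v ∈ σ, a π v ∈ σ) →
      π ∈ aut (fromEdgeSet (σ : Set (Sym2 Y))) := fun σ π h x y hxy =>
    ⟨h _ hxy.1, π.injective.ne hxy.2⟩
  have h1 := face_sign (K := K) (φ := fun c => a (φ c)) (g := a g) (by rw [h0, a.map_one])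
    (fun c c' => by rw [hadd, a.map_mul])
    (fun A A' h hA => ⟨fun x y hxy => hA.1 x y (h hxy), inG_of_le hf (Equiv.refl _)
      (fun x y hxy => sup_le_sup_left (fromEdgeSet_mono (coe_subset.2 h)) Z hxy) hA.2⟩)
    (fun c => hK _ (z1 c)) hr hA' (hK _ z2) (fun c => (hn c).imp fun c' h => by
      rw [← a.map_mul, ← a.map_mul, h]) (fun i => univ.filter (· ∈ (O i).edgeSet))
    (fun i => by
      obtain ⟨x, y, h⟩ := o1 i
      exact ⟨_, (mo i x y).2 h⟩)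
    (fun i j v => Sym2.ind (fun x y h h' => o2 i j x y ((mo i x y).1 h) ((mo j x y).1 h')) v)
    (fun i v => Sym2.ind (fun x y h => ⟨fun c => (mo i _ _).2 ((o3 i).1 c x y ((mo i x y).1 h)),
      (mo i _ _).2 ((o3 i).2 x y ((mo i x y).1 h))⟩) v)
    (fun i σ hσ v => Sym2.ind (fun x y h h' w => Sym2.ind (fun x' y' hw =>
      (o4 i _ (fun c => au σ _ fun v hv => (hσ v hv).1 c) (au σ _ fun v hv => (hσ v hv).2) x y
        ((mo i x y).1 h) ⟨h', ((mo i x y).1 h).ne⟩ ((mo i x' y').1 hw)).1) w) v)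
    (fun σ hσ hi v => Sym2.ind (fun x y h => by
      have k : ∀ π ∈ aut Z, (∀ v ∈ σ, a π v ∈ σ) → π ∈ aut (Z ⊔ fromEdgeSet σ) :=
        fun π h1 h2 x y hxy => hxy.imp (h1 x y) (au σ π h2 x y)
      obtain ⟨i, hi⟩ := (o5 _ (fun c => k _ (z1 c) fun v hv => (hi v hv).1 c)
        (k _ z2 fun v hv => (hi v hv).2) le_sup_left hσ.2 x y
        (Or.inr ⟨h, (hσ.1 x y h).1⟩)).resolve_left (hσ.1 x y h).2
      exact ⟨i, (mo i x y).2 hi⟩) v)
  rw [← h1]
  refine sum_congr (Finset.ext fun A => ?_) fun _ _ => rfl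
  simp only [mem_filter, mem_univ, true_and]
  have mb : ∀ x y, s(x, y) ∈ A.biUnion (fun i => (univ.filter (· ∈ (O i).edgeSet) :
      Finset (Sym2 Y))) ↔ ∃ i ∈ A, (O i).Adj x y := fun x y => by
    simp only [mem_biUnion, mo]
  have e1 : un Z O A = Z ⊔ fromEdgeSet (A.biUnion fun i => (univ.filter (· ∈ (O i).edgeSet) :
      Finset (Sym2 Y))) := by
    ext x y
    rw [sup_adj, fromEdgeSet_adj, mem_coe, mb]
    exact or_congr_right ⟨fun ⟨i, h1, h2⟩ => ⟨⟨i, h1, h2⟩, h2.ne⟩, fun h => h.1⟩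
  rw [e1]
  refine ⟨fun h => ⟨fun x y hxy => ?_, h⟩, fun h => h.2⟩
  obtain ⟨i, _, h2⟩ := (mb x y).1 hxy
  exact ⟨h2.ne, o0 i x y h2⟩

theorem sg_un {Y I : Type} (Z : SimpleGraph Y) (O : I → SimpleGraph Y) (J : Finset I) :
    un Z O J = Z ⊔ J.sup O := by
  ext x y
  rw [sup_adj, Finset.sup_eq_iSup]
  simp only [iSup_adj, exists_prop]
  rfl

theorem sg {n d : ℕ} {f : SimpleGraph (Fin n) → Prop} (hf : Setup n d f) {Y : Type} [Finite Y]
    (e : Y ≃ Fin n) (Z : SimpleGraph Y) {B : Finset (Sym2 (Fin n))} {c : ℕ} (hA : H52K.Ac f B c)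
    (hB : ∀ x y, x ≠ y → (s(e x, e y) ∈ B ↔ Z.Adj x y))
    (hc : c < Nat.card {v : Sym2 Y // ¬ v.IsDiag ∧ v ∉ Z.edgeSet}) {κ : Type} [Fintype κ]
    {φ : (κ → ZMod 2) → Equiv.Perm Y} (h0 : φ 0 = 1) (hadd : ∀ a b, φ (a + b) = φ a * φ b)
    {g : Equiv.Perm Y} (hn : ∀ a, ∃ b, g * φ a = φ b * g) {H : Subgroup (Equiv.Perm Y)}
    (hH : H = Subgroup.closure (Set.range φ ∪ {g})) (hZ : Inv H Z) : Van (InG f) Z H := by
  classical
  intro I _ O hO hc'
  have m1 : ∀ a, φ a ∈ H := fun a => hH ▸ Subgroup.subset_closure (Or.inl ⟨a, rfl⟩)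
  have m2 : g ∈ H := hH ▸ Subgroup.subset_closure (Or.inr rfl)
  have iv : ∀ G : SimpleGraph Y, (∀ a, φ a ∈ H99.aut G) → g ∈ H99.aut G → Inv H G :=
    fun G h1 h2 h hh => by
      rw [hH] at hh
      change h ∈ H99.aut G
      induction hh using Subgroup.closure_induction with
      | mem x hx =>
        rcases hx with ⟨a, rfl⟩ | rfl
        · exact h1 a
        · exact h2
      | one => exact one_mem _
      | mul x y _ _ hx hy => exact mul_mem hx hy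
      | inv x _ hx =>
        intro a b hab
        refine (H52K.aut_iff hx _ _).1 ?_
        rwa [← Equiv.Perm.mul_apply, ← Equiv.Perm.mul_apply, mul_inv_cancel]
  have h1 := signZ hf e Z hA hB hc h0 hadd hn (fun a => hZ _ (m1 a)) (hZ _ m2) O
    (fun i => (hO.orb i).ne) hO.disj hO.free
    (fun i => ⟨fun a => (hO.orb i).inv _ (m1 a), (hO.orb i).inv _ m2⟩)
    (fun i G g1 g2 x y h h' => (hO.orb i).le (iv G g1 g2) h h')
    fun G _ _ _ _ x y h => hc' x y h.ne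
  rw [sum_filter] at h1
  exact Eq.trans (sum_congr rfl fun J _ => by rw [sg_un]) h1

end Pool.Agent.MP_257582_lc.H71K
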