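import Pool.Agent.MP_257582_lc.H71K.ISO
import Pool.Agent.MP_257582_lc.H71K.OUT
import Pool.Agent.MP_257582_lc.H71K.GRP
import Pool.Agent.MP_257582_lc.H71K.Defs

set_option autoImplicit false

namespace Pool.Agent.MP_257582_lc.H71K

open Finset SimpleGraph


/-- pairs inside a block of `N` whose difference has the property `D` -/
def step_blk {R T : Type} (N : Set T) (D : V → Prop) : SimpleGraph (R ⊕ T × V) where
  Adj x y := match x, y with
    | .inr p, .inr q => p.1 = q.1 ∧ p.1 ∈ N ∧ p.2 ≠ q.2 ∧ D (p.2 + q.2)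
    | _, _ => False
  symm := ⟨by
    rintro (a | p) (b | q) h
    · exact h
    · exact h
    · exact h
    · exact ⟨h.1.symm, h.1 ▸ h.2.1, h.2.2.1.symm, by rw [add_comm]; exact h.2.2.2⟩⟩
  loopless := ⟨by
    rintro (a | p) h
    · exact h
    · exact h.2.2.1 rfl⟩

theorem step_elim {R T : Type} {N : Set T} {D : V → Prop} {x y : R ⊕ T × V}
    (h : (step_blk N D).Adj x y) :
    ∃ t ∈ N, ∃ v w, x = .inr (t, v) ∧ y = .inr (t, w) ∧ v ≠ w ∧ D (v + w) := by
  rcases x with a | ⟨t, v⟩ <;> rcases y with b | ⟨t', w⟩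
  · exact h.elim
  · exact h.elim
  · exact h.elim
  · obtain ⟨h1, h2, h3, h4⟩ := h
    obtain rfl : t = t' := h1
    exact ⟨t, h2, v, w, rfl, rfl, h3, h4⟩

theorem step_intro {R T : Type} {N : Set T} {D : V → Prop} {t : T} (ht : t ∈ N) {v w : V}
    (h : v ≠ w) (hD : D (v + w)) :
    (step_blk N D : SimpleGraph (R ⊕ T × V)).Adj (.inr (t, v)) (.inr (t, w)) := ⟨rfl, ht, h, hD⟩

theorem step_sup {R T : Type} (N : Set T) (D D' : V → Prop) :
    (step_blk N D : SimpleGraph (R ⊕ T × V)) ⊔ step_blk N D' = step_blk N fun v => D v ∨ D' v := by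
  ext x y
  rw [sup_adj]
  constructor
  · rintro (h | h) <;> obtain ⟨t, ht, v, w, rfl, rfl, h1, h2⟩ := step_elim h
    · exact step_intro ht h1 (Or.inl h2)
    · exact step_intro ht h1 (Or.inr h2)
  · intro h
    obtain ⟨t, ht, v, w, rfl, rfl, h1, h2⟩ := step_elim h
    exact h2.imp (step_intro ht h1) (step_intro ht h1)

theorem step_tl {R T : Type} (c : T → V) (t : T) (v : V) :
    (tl c : Equiv.Perm (R ⊕ T × V)) (.inr (t, v)) = .inr (t, v + c t) := rfl

theorem step_gen {R T : Type} (ρ : Equiv.Perm R) (σ : Equiv.Perm T) (A : T → V ≃+ V) (t : T)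
    (v : V) : gen ρ σ A (.inr (t, v)) = .inr (σ t, A t v) := rfl

theorem step_tl_mem {R T : Type} (s ρ : Equiv.Perm R) (σ : Equiv.Perm T) (A : T → V ≃+ V)
    (c : T → V) : tl c ∈ grp s ρ σ A := Subgroup.subset_closure (Or.inl ⟨c, rfl⟩)

theorem step_gen_mem {R T : Type} (s ρ : Equiv.Perm R) (σ : Equiv.Perm T) (A : T → V ≃+ V) :
    gen ρ σ A ∈ grp s ρ σ A := Subgroup.subset_closure (Or.inr (Or.inr rfl))

section rot

variable {R T : Type} {ρ : Equiv.Perm R} {σ : Equiv.Perm T} {A : T → V ≃+ V} {m : ℕ}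
  {ι : Fin (m + 1) → T} {B : V ≃+ V}

theorem step_pow (hσ : ∀ i, σ (ι i) = ι (finRotate _ i))
    (h1 : ∀ i, i ≠ Fin.last m → A (ι i) = AddEquiv.refl V) (k : ℕ) (hk : k < m + 1) (v : V) :
    (gen ρ σ A ^ k) (.inr (ι 0, v)) = .inr (ι ⟨k, hk⟩, v) := by
  induction k with
  | zero => rfl
  | succ k ih =>
    have hk' : k < m := by omega
    rw [pow_succ', Equiv.Perm.mul_apply, ih (by omega), step_gen, hσ, finRotate_of_lt hk',
      h1 _ fun e => hk'.ne (congrArg Fin.val e)]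
    rfl

theorem step_full (hσ : ∀ i, σ (ι i) = ι (finRotate _ i))
    (h1 : ∀ i, i ≠ Fin.last m → A (ι i) = AddEquiv.refl V) (h2 : A (ι (Fin.last m)) = B)
    (i : Fin (m + 1)) (v : V) :
    (gen ρ σ A ^ (m + 1)) (.inr (ι i, v)) = .inr (ι i, B v) := by
  have h0 : (gen ρ σ A ^ (m + 1)) (.inr (ι 0, v)) = .inr (ι 0, B v) := by
    rw [pow_succ', Equiv.Perm.mul_apply, step_pow hσ h1 m m.lt_succ_self, step_gen]
    change Sum.inr (σ (ι (Fin.last m)), A (ι (Fin.last m)) v) = _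
    rw [hσ, finRotate_last, h2]
  rw [← step_pow (ρ := ρ) hσ h1 i.1 i.2 v, ← Equiv.Perm.mul_apply, pow_mul_comm,
    Equiv.Perm.mul_apply, h0, step_pow hσ h1 i.1 i.2]

theorem step_orb [Finite R] [Finite T] (s : Equiv.Perm R) (hσ : ∀ i, σ (ι i) = ι (finRotate _ i))
    (h1 : ∀ i, i ≠ Fin.last m → A (ι i) = AddEquiv.refl V) (h2 : A (ι (Fin.last m)) = B)
    {D : V → Prop} (hn : ∃ v, 0 ≠ v ∧ D v) (hi : ∀ v, D v → D (B v))
    (ht : ∀ v w, D v → D w → v = w ∨ B v = w ∨ B (B v) = w) :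
    IsOrb (grp s ρ σ A) (step_blk (Set.range ι) D) := by
  have c2 : ∀ v w c : V, v + c + (w + c) = v + w := by decide
  have c3 : ∀ v w : V, v + (v + w) = w := by decide
  have c4 : ∀ a b v w : V, a + b = v + w → b + (a + v) = w := by decide
  refine ⟨?_, inv_grp (fun c x y h => ?_) (fun x y h => ?_) fun x y h => ?_, fun x y x' y' h h' => ?_⟩
  · obtain ⟨v, hv, hD⟩ := hn
    exact ⟨_, _, step_intro (Set.mem_range_self 0) hv (by rwa [zero_add])⟩
  · obtain ⟨t, ht, v, w, rfl, rfl, e1, e2⟩ := step_elim h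
    rw [step_tl, step_tl]
    exact step_intro ht (fun e => e1 (add_right_cancel e)) (by rwa [c2])
  · obtain ⟨t, ht, v, w, rfl, rfl, e1, e2⟩ := step_elim h
    exact h
  · obtain ⟨t, ⟨i, rfl⟩, v, w, rfl, rfl, e1, e2⟩ := step_elim h
    rw [step_gen, step_gen]
    refine step_intro (hσ i ▸ Set.mem_range_self _) (fun e => e1 ((A _).injective e)) ?_
    rw [← map_add]
    by_cases e : i = Fin.last m
    · rw [e, h2]
      exact hi _ e2
    · rw [h1 i e]
      exact e2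
  · obtain ⟨t, ⟨i, rfl⟩, v, w, rfl, rfl, e1, e2⟩ := step_elim h
    obtain ⟨t, ⟨j, rfl⟩, v', w', rfl, rfl, e1', e2'⟩ := step_elim h'
    have hg := step_gen_mem s ρ σ A
    obtain ⟨g, hg', E, k1, k2⟩ : ∃ g ∈ grp s ρ σ A, ∃ E : V ≃+ V,
        (∀ u, g (.inr (ι j, u)) = .inr (ι j, E u)) ∧ E (v + w) = v' + w' := by
      rcases ht _ _ e2 e2' with e | e | e
      · exact ⟨1, one_mem _, AddEquiv.refl V, fun _ => rfl, e⟩
      · exact ⟨_, pow_mem hg (m + 1), B, step_full hσ h1 h2 j, e⟩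
      · refine ⟨_, mul_mem (pow_mem hg (m + 1)) (pow_mem hg (m + 1)), B.trans B, fun u => ?_, e⟩
        rw [Equiv.Perm.mul_apply, step_full hσ h1 h2, step_full hσ h1 h2]
        rfl
    have k3 : ∀ u, (g * gen ρ σ A ^ j.1 * (gen ρ σ A ^ i.1)⁻¹) (.inr (ι i, u)) = .inr (ι j, E u) :=
      fun u => by
        rw [← step_pow (ρ := ρ) hσ h1 i.1 i.2 u, ← Equiv.Perm.mul_apply, inv_mul_cancel_right,
          Equiv.Perm.mul_apply, step_pow hσ h1 j.1 j.2, k1]
    refine ⟨tl (fun _ => E v + v') * (g * gen ρ σ A ^ j.1 * (gen ρ σ A ^ i.1)⁻¹),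
      mul_mem (step_tl_mem _ _ _ _ _) (mul_mem (mul_mem hg' (pow_mem hg _))
        (inv_mem (pow_mem hg _))), ?_⟩
    rw [Equiv.Perm.mul_apply, Equiv.Perm.mul_apply _ _ (Sum.inr (ι i, w)), k3, k3, step_tl, step_tl,
      c3, c4 _ _ _ _ ((map_add E v w).symm.trans k2)]

end rot

/-- the three differences -/
def step_d : Fin 3 → V := ![(1, 1), (1, 0), (0, 1)]

theorem step_inv {R T : Type} [Finite R] [Finite T] {s ρ : Equiv.Perm R} {σ : Equiv.Perm T}
    {A : T → V ≃+ V} {S : SimpleGraph R} (hs : ∀ x y, S.Adj x y → S.Adj (s x) (s y))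
    (hρ : ∀ x y, S.Adj x y → S.Adj (ρ x) (ρ y)) {M : Set T} (hM : ∀ t, σ t ∈ M ↔ t ∈ M)
    (hAM : ∀ t ∈ M, A t = AddEquiv.refl V) : Inv (grp s ρ σ A) (cyc S M) := by
  have c : ∀ v w c : V, v.1 + w.1 ≠ v.2 + w.2 → (v + c).1 + (w + c).1 ≠ (v + c).2 + (w + c).2 := by
    decide
  refine inv_grp (fun c' => ?_) ?_ ?_
  · rintro (a | ⟨t, v⟩) (b | ⟨t', w⟩) h
    · exact h
    · exact h.elim
    · exact h.elim
    · obtain ⟨h1, h2, h3⟩ := h
      obtain rfl : t = t' := h1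
      exact ⟨rfl, h2, c v w _ h3⟩
  · rintro (a | p) (b | q) h
    · exact hs a b h
    · exact h.elim
    · exact h.elim
    · exact h
  · rintro (a | ⟨t, v⟩) (b | ⟨t', w⟩) h
    · exact hρ a b h
    · exact h.elim
    · exact h.elim
    · obtain ⟨h1, h2, h3⟩ := h
      obtain rfl : t = t' := h1
      rw [step_gen, step_gen, hAM t h2]
      exact ⟨rfl, (hM t).2 h2, h3⟩

theorem step {R T : Type} [Finite R] [Finite T] [DecidableEq T]
    {Φ : SimpleGraph (R ⊕ T × V) → Prop}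
    (hΦ : ∀ (β : Equiv.Perm (R ⊕ T × V)) G G', (∀ x y, G.Adj x y → G'.Adj (β x) (β y)) → Φ G' → Φ G)
    (k4 : ∀ G, Φ G → G.CliqueFree 4) {s ρ : Equiv.Perm R} {σ : Equiv.Perm T} {A : T → V ≃+ V}
    {S : SimpleGraph R} (hs : ∀ x y, S.Adj x y → S.Adj (s x) (s y))
    (hρ : ∀ x y, S.Adj x y → S.Adj (ρ x) (ρ y)) {M : Set T} (hM : ∀ t, σ t ∈ M ↔ t ∈ M)
    (hAM : ∀ t ∈ M, A t = AddEquiv.refl V) {m : ℕ} {ι : Fin (m + 1) → T}
    (hι : Function.Injective ι) (hσ : ∀ i, σ (ι i) = ι (finRotate _ i)) (hd : ∀ i, ι i ∉ M)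
    (hA : ∀ i, A (ι i) = AddEquiv.refl V)
    (hV : ∀ B, Van Φ (cyc S M) (grp s ρ σ (Function.update A (ι (Fin.last m)) B))) :
    Van Φ (cyc S (M ∪ Set.range ι)) (grp s ρ σ A) := by
  have hr : ∀ t, σ t ∈ Set.range ι ↔ t ∈ Set.range ι := fun t =>
    ⟨fun ⟨i, e⟩ => ⟨(finRotate _).symm i, σ.injective (by rw [hσ, Equiv.apply_symm_apply, e])⟩,
      fun ⟨i, e⟩ => ⟨_, e ▸ (hσ i).symm⟩⟩
  have u1 : ∀ (B : V ≃+ V) i, i ≠ Fin.last m →
      Function.update A (ι (Fin.last m)) B (ι i) = AddEquiv.refl V := fun B i e => by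
    rw [Function.update_of_ne fun e' => e (hι e'), hA]
  have u2 : ∀ B : V ≃+ V, Function.update A (ι (Fin.last m)) B (ι (Fin.last m)) = B := fun B =>
    Function.update_self _ _ _
  have u3 : ∀ (B : V ≃+ V) t, t ∉ Set.range ι → A t = Function.update A (ι (Fin.last m)) B t :=
    fun B t e => (Function.update_of_ne (fun e' => e ⟨_, e'.symm⟩) _ _).symm
  have cov : ∀ v w : V, v ≠ w → ∃ i, v + w = step_d i := by decide
  have out : ∀ (B : V ≃+ V) (O : SimpleGraph (R ⊕ T × V)), IsOrb (grp s ρ σ A) O →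
      (∀ i x y, O.Adj x y → ¬ (step_blk (Set.range ι) fun v => v = step_d i).Adj x y) →
      IsOrb (grp s ρ σ (Function.update A (ι (Fin.last m)) B)) O := fun B O hO h =>
    out_orb hr (u3 B) hO fun t ht v w e => by
      have e1 : v ≠ w := fun e' => e.ne (by rw [e'])
      obtain ⟨i, hi⟩ := cov v w e1
      exact h i _ _ e (step_intro ht e1 hi)
  have fin : cyc S M ⊔ (step_blk (Set.range ι) fun v => v = step_d 1) ⊔
      (step_blk (Set.range ι) fun v => v = step_d 2) = cyc S (M ∪ Set.range ι) := by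
    have c : ∀ v w : V, (v ≠ w ∧ (v + w = step_d 1 ∨ v + w = step_d 2)) ↔
        v.1 + w.1 ≠ v.2 + w.2 := by decide
    rw [sup_assoc, step_sup]
    ext x y
    rw [sup_adj]
    rcases x with a | ⟨t, v⟩ <;> rcases y with b | ⟨t', w⟩
    · exact or_iff_left id
    · exact or_iff_left id
    · exact or_iff_left id
    · constructor
      · rintro (⟨h1, h2, h3⟩ | ⟨h1, h2, h3⟩)
        · exact ⟨h1, Or.inl h2, h3⟩
        · exact ⟨h1, Or.inr h2, (c v w).1 h3⟩
      · rintro ⟨h1, h2 | h2, h3⟩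
        · exact Or.inl ⟨h1, h2, h3⟩
        · exact Or.inr ⟨h1, h2, (c v w).2 h3⟩
  rw [← fin]
  refine iso (C := fun i => step_blk (Set.range ι) fun v => v = step_d i)
    (H0 := grp s ρ σ (Function.update A (ι (Fin.last m)) om))
    (H1 := grp s ρ σ (Function.update A (ι (Fin.last m)) sw)) hΦ ⟨fun i => ?_, ?_, ?_⟩ ?_ ?_ ?_
    (out om) (out sw) (step_inv hs hρ hM fun t ht => ?_)
    (pow_mem (step_gen_mem _ _ _ _) (m + 1)) ?_ ?_ (hV om) (hV sw) ?_
  · exact step_orb s hσ (fun i _ => hA i) (hA _) ⟨step_d i, by revert i; decide, rfl⟩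
      (fun v e => e) fun v w e e' => Or.inl (e.trans e'.symm)
  · intro i x y h h'
    obtain ⟨t, ⟨j, rfl⟩, v, w, rfl, rfl, -, -⟩ := step_elim h
    exact hd j h'.2.1
  · intro i j x y h h'
    obtain ⟨t, -, v, w, rfl, rfl, -, e⟩ := step_elim h
    have c : ∀ i j, step_d i = step_d j → i = j := by decide
    exact c i j (e.symm.trans h'.2.2.2)
  · exact step_orb s hσ (u1 sw) (u2 sw) (by decide) (by decide) (by decide)
  · rw [step_sup]
    exact step_orb s hσ (u1 sw) (u2 sw) (by decide) (by decide) (by decide)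
  · rw [step_sup, step_sup]
    exact step_orb s hσ (u1 om) (u2 om) (by decide) (by decide) (by decide)
  · rw [← u3 om t fun ⟨i, e⟩ => hd i (e ▸ ht), hAM t ht]
  · intro i x y h
    obtain ⟨t, ⟨j, rfl⟩, v, w, rfl, rfl, e1, e2⟩ := step_elim h
    have c : ∀ i, om (step_d i) = step_d (i + 1) := by decide
    rw [step_full hσ (u1 om) (u2 om), step_full hσ (u1 om) (u2 om)]
    exact step_intro (Set.mem_range_self j) (fun e => e1 (om.injective e))
      (by rw [← map_add, e2, c])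
  · classical
    intro h
    rw [step_sup, step_sup] at h
    have c : ∀ v w : V, v ≠ w → (v + w = step_d 0 ∨ v + w = step_d 1) ∨ v + w = step_d 2 := by
      decide
    refine k4 _ h (univ.map ⟨fun v : V => Sum.inr (ι 0, v), fun v w e => by simpa using e⟩) ⟨?_, ?_⟩
    · intro x hx y hy e
      obtain ⟨v, -, rfl⟩ := mem_map.1 (mem_coe.1 hx)
      obtain ⟨w, -, rfl⟩ := mem_map.1 (mem_coe.1 hy)
      have e1 : v ≠ w := fun e' => e (by rw [e'])
      exact step_intro (Set.mem_range_self 0) e1 (c v w e1)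
    · rw [card_map]
      rfl
  · have := hV (AddEquiv.refl V)
    rwa [← hA (Fin.last m), Function.update_eq_self] at this

end Pool.Agent.MP_257582_lc.H71K
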